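import Pool.Agent.H21.FF.Final
import Pool.Graph.R_pool_sql_team_seeded_c8625f6e.K4H21.CT.SplitPrime

/-!
# The statements of the result
-/

set_option autoImplicit false
set_option linter.unusedSectionVars false

namespace Pool.Agent.H21.FF

open NumberField Module Pool.Agent.W547.KB Pool.Agent.W495.TA Pool.Agent.W495.TC
  Pool.Agent.TH117.PO Pool.Agent.TH117.BL Pool.Agent.Q43.HN Pool.Agent.H21.NP Pool.Agent.H21.HS
  Pool.Agent.H21.TC

section

variable {K K' : Type*} [Field K] [Field K']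

theorem irred_iff {A : ((K →+* ℂ) → ℚ) → Prop} {S : Submodule ℚ ((K →+* ℂ) → ℚ)}
    (h : ∀ f, A f ↔ f ∈ S) : Irred A ↔ IsIrred S := by
  constructor
  · rintro ⟨⟨f, hf, hf0⟩, h2⟩
    refine ⟨fun h0 => hf0 ?_, fun W hW hle => ?_⟩
    · have h1 := (h f).1 hf
      rw [h0, Submodule.mem_bot] at h1
      exact h1
    · rcases h2 W hW fun f hf => (h f).2 (hle hf) with h3 | h3
      · exact Or.inl ((Submodule.eq_bot_iff W).2 h3)
      · exact Or.inr (le_antisymm hle fun f hf => h3 f ((h f).2 hf))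
  · rintro ⟨h1, h2⟩
    obtain ⟨f, hf, hf0⟩ := Submodule.exists_mem_ne_zero_of_ne_bot h1
    refine ⟨⟨f, (h f).2 hf, hf0⟩, fun W hW hA => ?_⟩
    rcases h2 W hW fun f hf => (h f).1 (hA f hf) with h3 | h3
    · left
      rw [h3]
      intro f hf
      rwa [Submodule.mem_bot] at hf
    · right
      intro f hf
      rw [h3]
      exact (h f).1 hf

theorem noEquivMaps_iff {A : ((K →+* ℂ) → ℚ) → Prop} {B : ((K' →+* ℂ) → ℚ) → Prop}
    {S : Submodule ℚ ((K →+* ℂ) → ℚ)} {T : Submodule ℚ ((K' →+* ℂ) → ℚ)}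
    (h : ∀ f, A f ↔ f ∈ S) (h' : ∀ f, B f ↔ f ∈ T) : NoEquivMaps A B ↔ NoMapsTo S T := by
  constructor
  · intro h1 R hR hRe f hf
    exact h1 R (fun f hf => (h' _).2 (hR f ((h f).1 hf)))
      (fun τ f hf => hRe τ f ((h f).1 hf)) f ((h f).2 hf)
  · intro h1 R hR hRe f hf
    exact h1 R (fun f hf => (h' _).1 (hR f ((h f).2 hf)))
      (fun τ f hf => hRe τ f ((h f).2 hf)) f ((h f).1 hf)

end

section

variable {F : Type*} [Field F] [NumberField F] [IsCMField F]

theorem antiFn_iff (σ : F ≃+* F) (f : (F →+* ℂ) → ℚ) :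
    AntiFn σ f ↔ f ∈ oddInvariants (σ.trans (conjRing F)) := by
  have h1 : ∀ φ : F →+* ℂ, φ.comp ((σ.trans (conjRing F) : F ≃+* F) : F →+* F) =
      ComplexEmbedding.conjugate (φ.comp (σ : F →+* F)) := by
    intro φ
    exact RingHom.ext fun a => IsCMField.complexEmbedding_complexConj (K := F) φ (σ a)
  constructor
  · rintro ⟨h2, h3⟩
    refine ⟨h2, fun φ => ?_⟩
    rw [h1, h2, h3, neg_neg]
  · rintro ⟨h2, h3⟩
    refine ⟨h2, fun φ => ?_⟩
    have h4 := h3 φ
    rw [h1, h2] at h4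
    linarith

theorem cmList_iff : CMList F ↔ CondList F := by
  unfold CMList CondList
  rw [irred_iff (A := OddFn (K := F)) (S := oddFunctions F) fun f => Iff.rfl]
  have h1 : (∃ σ : F ≃+* F, (∀ x, σ (σ x) = x) ∧ Irred (InvFn σ) ∧ Irred (AntiFn σ) ∧
      NoEquivMaps (InvFn σ) (AntiFn σ)) ↔
      ∃ σ : F ≃+* F, (∀ x, σ (σ x) = x) ∧ IsIrred (oddInvariants σ) ∧
      IsIrred (oddInvariants (σ.trans (conjRing F))) ∧
      NoMaps (oddInvariants σ) (oddInvariants (σ.trans (conjRing F))) := by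
    refine exists_congr fun σ => ?_
    rw [irred_iff (A := InvFn σ) (S := oddInvariants σ) fun f => Iff.rfl, irred_iff (antiFn_iff σ),
      noEquivMaps_iff (A := InvFn σ) (S := oddInvariants σ) (fun f => Iff.rfl) (antiFn_iff σ)]
    rfl
  have h2 : (∃ d : ℕ, 0 < d ∧ (∃ t : F, t ^ 2 = -(d : F)) ∧ Irred (CoreFn d (K := F))) ↔
      ∃ d : ℕ, 0 < d ∧ (∃ t : F, t ^ 2 = -(d : F)) ∧ IsIrred (core d F) := by
    refine exists_congr fun d => ?_
    rw [irred_iff (A := CoreFn d (K := F)) (S := core d F) fun f => Iff.rfl]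
  rw [h1, h2]

end

section

variable {F : Type} [Field F] [NumberField F] [IsCMField F]

theorem subfieldCondition_iff : SubfieldCondition F ↔ CondThree F := by
  have h0 : 2 * finrank ℚ (oddFunctions F) = finrank ℚ F := by
    have h1 := finrank_odd (X := F →+* ℂ) TC.conj_conj TC.conj_ne
    have h2 : OddS (ComplexEmbedding.conjugate : (F →+* ℂ) → (F →+* ℂ)) = oddFunctions F := rfl
    rw [h2] at h1
    rw [h1]
    exact Embeddings.card F ℂ
  constructor
  · intro h W hW hWo hr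
    obtain ⟨E, hE, h1⟩ := h W hW hWo (by omega)
    exact ⟨E, hE, fun f hf => ⟨hWo hf, h1 f hf⟩⟩
  · intro h W hW hWo hr
    obtain ⟨E, hE, h1⟩ := h W hW hWo (by omega)
    exact ⟨E, hE, fun f hf => (h1 hf).2⟩

/-- The fields which allow at most one relation. -/
theorem fields (F : Type) [Field F] [NumberField F] [IsCMField F] :
    List.TFAE
      [∀ (p : ℕ) [Fact p.Prime] (a : ℕ) (π : F), IsWeilNumber (p ^ a) π → Generates π →
          AtMostOneRelation (p ^ a) π,
        ∃ (p : ℕ) (_ : Fact p.Prime), SplitsCompletely p F ∧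
          ∀ (a : ℕ) (π : F), 0 < a → IsWeilNumber (p ^ a) π → Generates π →
            AtMostOneRelation (p ^ a) π,
        SubfieldCondition F,
        CMList F] := by
  tfae_have 1 → 2 := by
    intro h
    obtain ⟨p, hp, -, hs⟩ := Pool.Agent.K4H21.CT.exists_split_prime F 0
    exact ⟨p, hp, hs, fun a π _ hπ hgen => h p a π hπ hgen⟩
  tfae_have 2 → 3 := by
    rintro ⟨p, hp, hs, hall⟩
    exact subfieldCondition_iff.2 (three_iff_propC.2 (propC_of_atMostOne p hs hall))
  tfae_have 3 → 4 := fun h => cmList_iff.2 (condList_iff.2 (four_iff_propC.2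
    (three_iff_propC.1 (subfieldCondition_iff.1 h))))
  tfae_have 4 → 1 := fun h p _ a π hπ hgen =>
    one_of_propC (four_iff_propC.1 (condList_iff.1 (cmList_iff.1 h))) p a π hπ hgen
  tfae_finish

end

section

variable {p : ℕ} [Fact p.Prime] {ν : PadicAlgCl p ≃+* ℂ}

theorem commutative_of_generates {Z : RedAV p ν} {i : Z.X.I} (h : Generates (Z.π i)) :
    IsCommutative Z i := fun x y s hs hxy => inj_of_adjoin (h s hs) x y hxy

theorem products (Z : RedAV p ν) (d : ℕ) (hd : 0 < d)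
    (h1 : ∀ i, ((∃ t : (Z.X.factor i).E, t ^ 2 = -(d : (Z.X.factor i).E)) ∧
        finrank ℚ (Z.X.factor i).E = 2) ∨
      (Generates (Z.π i) ∧ Irred (CoreFn d (K := (Z.X.factor i).E))))
    (h2 : ∀ i k, i ≠ k →
      NoEquivMaps (CoreFn d (K := (Z.X.factor i).E)) (CoreFn d (K := (Z.X.factor k).E))) :
    HodgeOnPowers Z := by
  refine hodge_of_controlled fun r => controlled hd (fun i => ?_) (fun i k hik => ?_) r
  · rcases h1 i with ⟨⟨t, ht⟩, h3⟩ | ⟨h3, h4⟩
    · exact Or.inl (core_eq_bot hd ht h3)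
    · exact Or.inr ⟨(irred_iff fun f => Iff.rfl).1 h4, commutative_of_generates h3⟩
  · exact (noEquivMaps_iff (fun f => Iff.rfl) fun f => Iff.rfl).1 (h2 i k hik)

theorem products_explicit (Z : RedAV p ν) (d : ℕ) (hd : 0 < d)
    (h1 : ∀ i, ∃ t : (Z.X.factor i).E, t ^ 2 = -(d : (Z.X.factor i).E) ∧
      (finrank ℚ (Z.X.factor i).E = 2 ∨ (Generates (Z.π i) ∧
        ((∃ g : ℕ, g.Prime ∧ finrank ℚ (Z.X.factor i).E = 2 * g) ∨ IsTwoTransitive t))))
    (h2 : ∀ i k, i ≠ k → finrank ℚ (Z.X.factor i).E = finrank ℚ (Z.X.factor k).E →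
      finrank ℚ (Z.X.factor i).E = 2) :
    HodgeOnPowers Z := by
  choose t ht h using h1
  refine hodge_of_controlled fun r => controlled_explicit hd t ht (fun i hi => ?_) h2 r
  rcases h i with h3 | ⟨h3, h4⟩
  · exact absurd h3 hi
  · exact ⟨commutative_of_generates h3, h4⟩

theorem single (Z : RedAV p ν) (i : Z.X.I) (hi : ∀ k, k = i) (hgen : Generates (Z.π i))
    (h : CMList (Z.X.factor i).E) : HodgeOnPowers Z :=
  hodge_of_condList i hi (commutative_of_generates hgen) (cmList_iff.1 h)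

end

end Pool.Agent.H21.FF
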