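import Pool.Agent.H21.FF.Sign

/-!
# Stable spaces of codimension at least two: classification
-/

set_option autoImplicit false
set_option linter.unusedSectionVars false

namespace Pool.Agent.H21.FF

open Module Pool.Agent.H21.TC Pool.Agent.H21.NP

variable {X : Type*} [Fintype X] {P : Subgroup (Equiv.Perm X)} {bar : X → X}

/-- Different signs are orthogonal. -/
theorem orth_signs (htr : ∀ x y : X, ∃ σ ∈ P, σ x = y) [Nonempty X] {f f' : X → ℚ}
    (hf : IsSign P bar f) (hf' : IsSign P bar f') (h1 : f' ≠ f) (h2 : f' ≠ -f) :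
    ∑ x, f x * f' x = 0 := by
  by_contra hne
  have key : ∀ σ ∈ P, ∀ x, f (σ x) * f' (σ x) = f x * f' x := by
    intro σ hσ
    have h3 : (∀ x, f (σ x) * f' (σ x) = f x * f' x) ∨
        (∀ x, f (σ x) * f' (σ x) = - (f x * f' x)) := by
      rcases hf.char σ hσ with h | h
      · rcases hf'.char σ hσ with h' | h'
        · exact Or.inl fun x => by rw [h, h']
        · exact Or.inr fun x => by rw [h, h']; ring
      · rcases hf'.char σ hσ with h' | h'
        · exact Or.inr fun x => by rw [h, h']; ring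
        · exact Or.inl fun x => by rw [h, h']; ring
    rcases h3 with h3 | h3
    · exact h3
    · exfalso
      apply hne
      have h4 := Equiv.sum_comp σ (fun x => f x * f' x)
      rw [Finset.sum_congr rfl fun x _ => h3 x, Finset.sum_neg_distrib] at h4
      linarith
  obtain ⟨x₀⟩ : Nonempty X := inferInstance
  have h3 : ∀ x, f x * f' x = f x₀ * f' x₀ := by
    intro x
    obtain ⟨σ, hσ, rfl⟩ := htr x₀ x
    exact key σ hσ x₀
  have h4 : ∀ x, f' x = (f x₀ * f' x₀) * f x := by
    intro x
    have h5 := sign_sq hf x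
    rw [← h3 x]
    linear_combination (-f' x) * h5
  have h5 : f x₀ * f' x₀ = 1 ∨ f x₀ * f' x₀ = -1 := by
    rcases hf.val x₀ with h | h
    · rcases hf'.val x₀ with h' | h'
      · left; rw [h, h']; norm_num
      · right; rw [h, h']; norm_num
    · rcases hf'.val x₀ with h' | h'
      · right; rw [h, h']; norm_num
      · left; rw [h, h']; norm_num
  rcases h5 with h5 | h5
  · apply h1
    funext x
    rw [h4 x, h5, one_mul]
  · apply h2
    funext x
    rw [h4 x, h5, Pi.neg_apply]
    ring

/-- A stable space that is not orthogonal to a sign contains it. -/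
theorem mem_of_not_perp (htr : ∀ x y : X, ∃ σ ∈ P, σ x = y) {f : X → ℚ}
    (hf : IsSign P bar f) {W : Submodule ℚ (X → ℚ)} (hW : StableS P W)
    (hWo : W ≤ OddS bar) (h : ¬ W ≤ perpOf bar f) : f ∈ W := by
  obtain ⟨f₀, hf₀, ho⟩ := exists_decomp W f
  have hch : ∀ σ ∈ P, ∀ x, f₀ (σ x) * f (σ x) = f₀ x * f x := by
    intro σ hσ
    obtain ⟨ε, hε, hε'⟩ : ∃ ε : ℚ, ε * ε = 1 ∧ ∀ x, f (σ x) = ε * f x := by
      rcases hf.char σ hσ with h1 | h1
      · exact ⟨1, by norm_num, fun x => by rw [h1, one_mul]⟩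
      · exact ⟨-1, by norm_num, fun x => by rw [h1]; ring⟩
    have h1 := decomp_perm P hW hσ ho
    let r : X → ℚ := fun x => f₀ (σ x) - ε * f₀ x
    have hr : r ∈ W := Submodule.sub_mem _ (hW σ hσ f₀ hf₀) (Submodule.smul_mem _ ε hf₀)
    have h2 : ∑ x, r x * r x = 0 := by
      have e1 := h1 r hr
      have e2 := ho r hr
      have e3 : ∀ x, r x * r x = ε * ((f x - f₀ x) * r x) - (f (σ x) - f₀ (σ x)) * r x := by
        intro x
        rw [hε']
        simp only [r]
        ring
      rw [Finset.sum_congr rfl fun x _ => e3 x, Finset.sum_sub_distrib, ← Finset.mul_sum, e1, e2]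
      ring
    have h3 := sum_sq_pos h2
    intro x
    have h4 : f₀ (σ x) = ε * f₀ x := by
      have h5 := congrFun h3 x
      simp only [r, Pi.zero_apply] at h5
      linarith
    rw [h4, hε']
    linear_combination (f₀ x * f x) * hε
  by_cases hX : Nonempty X
  · obtain ⟨x₀⟩ := hX
    have h3 : ∀ x, f₀ x = (f₀ x₀ * f x₀) * f x := by
      intro x
      obtain ⟨σ, hσ, rfl⟩ := htr x₀ x
      rw [← hch σ hσ x₀]
      have h5 := sign_sq hf (σ x₀)
      linear_combination (-f₀ (σ x₀)) * h5
    by_cases h0 : f₀ x₀ * f x₀ = 0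
    · exfalso
      apply h
      intro k hk
      refine ⟨hWo hk, ?_⟩
      have h4 := ho k hk
      rw [← h4]
      refine Finset.sum_congr rfl fun x _ => ?_
      rw [h3 x, h0]
      ring
    · have h4 : f = (f₀ x₀ * f x₀)⁻¹ • f₀ := by
        funext x
        rw [Pi.smul_apply, h3 x, smul_eq_mul, ← mul_assoc, inv_mul_cancel₀ h0, one_mul]
      rw [h4]
      exact Submodule.smul_mem _ _ hf₀
  · have hem : IsEmpty X := not_nonempty_iff.1 hX
    have h4 : f = 0 := Subsingleton.elim _ _
    rw [h4]
    exact Submodule.zero_mem _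

/-- Two sign functions take at most four pairs of values. -/
theorem coinc_of_two (hcard : 4 < Fintype.card X) {f f' : X → ℚ} (hf : ∀ x, f x = 1 ∨ f x = -1)
    (hf' : ∀ x, f' x = 1 ∨ f' x = -1) {W : Submodule ℚ (X → ℚ)}
    (h : ∀ k ∈ W, ∃ a b : ℚ, k = a • f + b • f') : ∃ x y, x ≠ y ∧ RelOf W x y := by
  classical
  obtain ⟨x, y, hxy, he⟩ := Fintype.exists_ne_map_eq_of_card_lt
    (fun x : X => (decide (f x = 1), decide (f' x = 1))) (by
      simpa using hcard)
  refine ⟨x, y, hxy, fun k hk => ?_⟩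
  rw [Prod.mk.injEq, decide_eq_decide, decide_eq_decide] at he
  have e1 : f x = f y := by
    rcases hf x with h1 | h1
    · rw [h1, he.1.1 h1]
    · rcases hf y with h2 | h2
      · rw [h2, he.1.2 h2]
      · rw [h1, h2]
  have e2 : f' x = f' y := by
    rcases hf' x with h1 | h1
    · rw [h1, he.2.1 h1]
    · rcases hf' y with h2 | h2
      · rw [h2, he.2.2 h2]
      · rw [h1, h2]
  obtain ⟨a, b, rfl⟩ := h k hk
  simp only [Pi.add_apply, Pi.smul_apply, e1, e2]

/-- Stable spaces of dimension at most one. -/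
theorem coinc_of_le_one (htr : ∀ x y : X, ∃ σ ∈ P, σ x = y) (hcard : 4 < Fintype.card X)
    {W : Submodule ℚ (X → ℚ)} (hW : StableS P W) (hWo : W ≤ OddS bar) (h1 : finrank ℚ W ≤ 1) :
    ∃ x y, x ≠ y ∧ RelOf W x y := by
  rcases Nat.le_one_iff_eq_zero_or_eq_one.1 h1 with h | h
  · rw [Submodule.finrank_eq_zero.1 h]
    obtain ⟨x, y, hxy⟩ := Fintype.exists_pair_of_one_lt_card (by omega : 1 < Fintype.card X)
    exact ⟨x, y, hxy, rel_bot x y⟩
  · obtain ⟨f, hf, -, hgen⟩ := exists_sign htr hW hWo h
    refine coinc_of_two hcard hf.val hf.val fun k hk => ?_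
    obtain ⟨t, rfl⟩ := hgen k hk
    exact ⟨t, 0, by rw [zero_smul, add_zero]⟩

theorem propC_of_propB (h : PropB P bar) : PropC P bar := by
  intro W hW hWo hr
  refine h W hW hWo ?_
  rintro rfl
  omega

theorem propC_of_card (hbar : ∀ x, bar (bar x) = x) (hb : ∀ x, bar x ≠ x) [Nonempty X]
    (hcard : Fintype.card X ≤ 4) : PropC P bar := by
  intro W hW hWo hr
  have h1 := finrank_odd hbar hb
  obtain ⟨x⟩ : Nonempty X := inferInstance
  rw [Submodule.finrank_eq_zero.1 (by omega : finrank ℚ W = 0)]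
  exact ⟨x, bar x, (hb x).symm, rel_bot _ _⟩

theorem propC_of_irred (hbar : ∀ x, bar (bar x) = x) (hb : ∀ x, bar x ≠ x)
    (hcomm : ∀ σ ∈ P, ∀ x, σ (bar x) = bar (σ x)) (htr : ∀ x y : X, ∃ σ ∈ P, σ x = y)
    {f : X → ℚ} (hf : IsSign P bar f)
    (hirr : ∀ S, StableS P S → S ≤ perpOf bar f → S = ⊥ ∨ S = perpOf bar f) [Nonempty X] :
    PropC P bar := by
  by_cases hcard : Fintype.card X ≤ 4
  · exact propC_of_card hbar hb hcard
  intro W hW hWo hr
  have h1 := finrank_perpOf hf
  have hstab : StableS P (W ⊓ perpOf bar f) := fun σ hσ h hh =>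
    ⟨hW σ hσ h hh.1, perpOf_stable hcomm hf σ hσ h hh.2⟩
  refine coinc_of_le_one htr (by omega) hW hWo ?_
  rcases hirr _ hstab inf_le_right with h2 | h2
  · have h3 := Submodule.finrank_sup_add_finrank_inf_eq W (perpOf bar f)
    rw [h2, finrank_bot, add_zero] at h3
    have h4 : finrank ℚ (W ⊔ perpOf bar f : Submodule ℚ (X → ℚ)) ≤ finrank ℚ (OddS bar) :=
      Submodule.finrank_mono (sup_le hWo (perpOf_le f))
    omega
  · have h3 : perpOf bar f ≤ W := by
      rw [← h2]
      exact inf_le_left
    have h4 := Submodule.finrank_mono h3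
    omega

/-- Eight points and two signs. -/
theorem propC_of_two_signs (hbar : ∀ x, bar (bar x) = x) (hb : ∀ x, bar x ≠ x)
    (hcomm : ∀ σ ∈ P, ∀ x, σ (bar x) = bar (σ x)) (htr : ∀ x y : X, ∃ σ ∈ P, σ x = y)
    {f f' : X → ℚ} (hf : IsSign P bar f) (hf' : IsSign P bar f') (h1 : f' ≠ f) (h2 : f' ≠ -f)
    (hcard : Fintype.card X = 8) : PropC P bar := by
  classical
  have hne : Nonempty X := Fintype.card_pos_iff.1 (by omega)
  have hodd := finrank_odd hbar hb
  intro W hW hWo hr
  -- a sign in `W`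
  have key : ∀ k : X → ℚ, IsSign P bar k → k ∈ W → ∃ x y, x ≠ y ∧ RelOf W x y := by
    intro k hk hkW
    have hs : StableS P (W ⊓ perpOf bar k) := fun σ hσ h hh =>
      ⟨hW σ hσ h hh.1, perpOf_stable hcomm hk σ hσ h hh.2⟩
    have hk2 : ∑ x, k x * k x = 8 := by
      rw [Finset.sum_congr rfl fun x _ => sign_sq hk x]
      simp [hcard]
    have hlt : finrank ℚ (W ⊓ perpOf bar k : Submodule ℚ (X → ℚ)) < finrank ℚ W := by
      apply Submodule.finrank_lt_finrank_of_lt
      refine lt_of_le_of_ne inf_le_left fun he => ?_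
      have h3 : k ∈ W ⊓ perpOf bar k := by
        rw [he]
        exact hkW
      have h4 := h3.2.2
      rw [hk2] at h4
      norm_num at h4
    have hdec : ∀ h ∈ W, ∃ a : ℚ, ∃ h' ∈ W ⊓ perpOf bar k, h = a • k + h' := by
      intro h hh
      refine ⟨(∑ x, h x * k x) / 8, h - ((∑ x, h x * k x) / 8) • k, ⟨Submodule.sub_mem _ hh
        (Submodule.smul_mem _ _ hkW), hWo (Submodule.sub_mem _ hh
        (Submodule.smul_mem _ _ hkW)), ?_⟩, by abel⟩
      have h3 : ∀ x, (h - ((∑ x, h x * k x) / 8) • k) x * k x =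
          h x * k x - ((∑ x, h x * k x) / 8) * (k x * k x) := by
        intro x
        simp only [Pi.sub_apply, Pi.smul_apply, smul_eq_mul]
        ring
      rw [Finset.sum_congr rfl fun x _ => h3 x, Finset.sum_sub_distrib, ← Finset.mul_sum, hk2]
      ring
    rcases Nat.le_one_iff_eq_zero_or_eq_one.1 (by omega :
      finrank ℚ (W ⊓ perpOf bar k : Submodule ℚ (X → ℚ)) ≤ 1) with h3 | h3
    · have h4 := Submodule.finrank_eq_zero.1 h3
      refine coinc_of_two (by omega) hk.val hk.val fun h hh => ?_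
      obtain ⟨a, h', hh', rfl⟩ := hdec h hh
      rw [h4, Submodule.mem_bot] at hh'
      exact ⟨a, 0, by rw [hh', zero_smul]⟩
    · obtain ⟨l, hl, -, hgen⟩ := exists_sign htr hs (inf_le_left.trans hWo) h3
      refine coinc_of_two (by omega) hk.val hl.val fun h hh => ?_
      obtain ⟨a, h', hh', rfl⟩ := hdec h hh
      obtain ⟨t, rfl⟩ := hgen h' hh'
      exact ⟨a, t, rfl⟩
  by_cases c1 : W ≤ perpOf bar f
  · by_cases c2 : W ≤ perpOf bar f'
    · -- both orthogonal
      let S : Finset X := Finset.univ.filter fun x => f x = 1 ∧ f' x = 1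
      have hS : ∀ h : X → ℚ, ∑ x ∈ S, h x = (∑ x, h x + ∑ x, h x * f x + ∑ x, h x * f' x +
          ∑ x, h x * (f x * f' x)) / 4 := by
        intro h
        have e1 : ∀ x, (if f x = 1 ∧ f' x = 1 then h x else 0) =
            (h x + h x * f x + h x * f' x + h x * (f x * f' x)) / 4 := by
          intro x
          rcases hf.val x with e | e
          · rcases hf'.val x with e' | e'
            · rw [e, e', if_pos ⟨rfl, rfl⟩]
              ring
            · rw [e, e', if_neg (by norm_num)]
              ring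
          · rcases hf'.val x with e' | e'
            · rw [e, e', if_neg (by norm_num)]
              ring
            · rw [e, e', if_neg (by norm_num)]
              ring
        simp only [S]
        rw [Finset.sum_filter, Finset.sum_congr rfl fun x _ => e1 x, ← Finset.sum_div,
          Finset.sum_add_distrib, Finset.sum_add_distrib, Finset.sum_add_distrib]
      have hff := orth_signs htr hf hf' h1 h2
      have hoddsum : ∀ h : X → ℚ, (∀ x, h (bar x) = - h x) → ∑ x, h x = 0 := by
        intro h hh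
        have e1 : ∑ x, h (bar x) = ∑ x, h x :=
          Finset.sum_nbij' bar bar (fun _ _ => Finset.mem_univ _) (fun _ _ => Finset.mem_univ _)
            (fun y _ => hbar y) (fun y _ => hbar y) (fun y _ => rfl)
        rw [Finset.sum_congr rfl fun x _ => hh x, Finset.sum_neg_distrib] at e1
        linarith
      have hSc : S.card = 2 := by
        have e1 := hS fun _ => 1
        simp only [one_mul, hff, hoddsum f hf.odd, hoddsum f' hf'.odd, Finset.sum_const,
          Finset.card_univ, hcard, nsmul_eq_mul, mul_one] at e1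
        have e2 : (S.card : ℚ) = 2 := by
          rw [e1]
          norm_num
        exact_mod_cast e2
      obtain ⟨x, y, hxy, hSxy⟩ := Finset.card_eq_two.1 hSc
      have hxS : x ∈ S := by
        rw [hSxy]
        exact Finset.mem_insert_self _ _
      have hyS : y ∈ S := by
        rw [hSxy]
        exact Finset.mem_insert_of_mem (Finset.mem_singleton_self _)
      refine ⟨y, bar x, ?_, fun h hh => ?_⟩
      · intro he
        have e1 : f y = 1 := (Finset.mem_filter.1 hyS).2.1
        have e2 : f x = 1 := (Finset.mem_filter.1 hxS).2.1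
        rw [he, hf.odd, e2] at e1
        norm_num at e1
      · have e1 := hS h
        have e2 : ∑ x, h x * (f x * f' x) = 0 := hoddsum _ fun x => by
          have e3 : h (bar x) = - h x := hWo hh x
          rw [e3, hf.odd, hf'.odd]
          ring
        rw [hoddsum h (hWo hh), (c1 hh).2, (c2 hh).2, e2, hSxy, Finset.sum_pair hxy] at e1
        have e3 : h (bar x) = - h x := hWo hh x
        rw [e3]
        linarith
    · exact key f' hf' (mem_of_not_perp htr hf' hW hWo c2)
  · exact key f hf (mem_of_not_perp htr hf hW hWo c1)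

/-- Orthogonal signs on six points do not exist. -/
theorem card_ne_six (hbar : ∀ x, bar (bar x) = x) (hb : ∀ x, bar x ≠ x) {f f' : X → ℚ}
    (hf : IsSign P bar f) (hf' : IsSign P bar f') (h : ∑ x, f x * f' x = 0) :
    Fintype.card X ≠ 6 := by
  classical
  intro hcard
  obtain ⟨O, hO⟩ := exists_tr hbar hb
  have h1 := sum_tr hbar hO (fun x => (1 + f x * f' x) / 2) (fun x => by
    rw [hf.odd, hf'.odd]
    ring)
  have h2 : ∑ x, (1 + f x * f' x) / 2 = 3 := by
    rw [← Finset.sum_div, Finset.sum_add_distrib, h]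
    simp only [Finset.sum_const, Finset.card_univ, hcard, nsmul_eq_mul]
    norm_num
  have h3 : ∀ x, (1 + f x * f' x) / 2 = if f x = f' x then (1 : ℚ) else 0 := by
    intro x
    rcases hf.val x with e | e
    · rcases hf'.val x with e' | e'
      · rw [e, e', if_pos rfl]
        norm_num
      · rw [e, e', if_neg (by norm_num)]
        norm_num
    · rcases hf'.val x with e' | e'
      · rw [e, e', if_neg (by norm_num)]
        norm_num
      · rw [e, e', if_pos rfl]
        norm_num
  rw [h2, Finset.sum_congr rfl fun x _ => h3 x, Finset.sum_boole] at h1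
  have h4 : (3 : ℕ) = 2 * (O.filter fun x => f x = f' x).card := by exact_mod_cast h1
  omega

/-- **The classification.** -/
theorem cases_of_propC (hC : PropC P bar) (hbar : ∀ x, bar (bar x) = x) (hb : ∀ x, bar x ≠ x)
    (hcomm : ∀ σ ∈ P, ∀ x, σ (bar x) = bar (σ x)) (htr : ∀ x y : X, ∃ σ ∈ P, σ x = y)
    (hcard : 4 < Fintype.card X) :
    PropB P bar ∨ ∃ f, IsSign P bar f ∧
      ((∀ S, StableS P S → S ≤ perpOf bar f → S = ⊥ ∨ S = perpOf bar f) ∨
        (Fintype.card X = 8 ∧ ∃ f', IsSign P bar f' ∧ f' ≠ f ∧ f' ≠ -f)) := by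
  classical
  have hne : Nonempty X := Fintype.card_pos_iff.1 (by omega)
  have hodd := finrank_odd hbar hb
  by_cases hex : ∃ W : Submodule ℚ (X → ℚ), StableS P W ∧ W ≤ OddS bar ∧ finrank ℚ W = 1
  · right
    obtain ⟨W, hW, hWo, hW1⟩ := hex
    obtain ⟨f, hf, -, -⟩ := exists_sign htr hW hWo hW1
    refine ⟨f, hf, ?_⟩
    by_cases hirr : ∀ S, StableS P S → S ≤ perpOf bar f → S = ⊥ ∨ S = perpOf bar f
    · exact Or.inl hirr
    right
    push Not at hirr
    obtain ⟨S, hS, hSle, hS0, hS1⟩ := hirr
    have hfr := finrank_perpOf hf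
    have hSo : S ≤ OddS bar := hSle.trans (perpOf_le f)
    have hfi : Submodule.span ℚ {f} ≤ OddS bar := by
      rw [Submodule.span_singleton_le_iff_mem]
      exact hf.odd
    -- the complement in the orthogonal space of `f`
    let T : Submodule ℚ (X → ℚ) := perpS bar S ⊓ perpOf bar f
    have hT : StableS P T := fun σ hσ h hh =>
      ⟨perpS_stable hcomm hS σ hσ h hh.1, perpOf_stable hcomm hf σ hσ h hh.2⟩
    have hTo : T ≤ OddS bar := inf_le_right.trans (perpOf_le f)
    have hST : S ⊓ T = ⊥ := by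
      rw [eq_bot_iff]
      have h1 := inf_perpS (bar := bar) S
      rw [← h1]
      exact inf_le_inf_left _ inf_le_left
    have hSTs : S ⊔ T = perpOf bar f := by
      refine le_antisymm (sup_le hSle inf_le_right) fun h hh => ?_
      have h1 : h ∈ S ⊔ perpS bar S := by
        rw [sup_perpS hSo]
        exact hh.1
      obtain ⟨s, hs, t, ht, rfl⟩ := Submodule.mem_sup.1 h1
      refine Submodule.mem_sup.2 ⟨s, hs, t, ⟨ht, ?_⟩, rfl⟩
      have h2 : t = (s + t) - s := by abel
      rw [h2]
      exact Submodule.sub_mem _ hh (hSle hs)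
    have hdim := Submodule.finrank_sup_add_finrank_inf_eq S T
    rw [hSTs, hST, finrank_bot, add_zero] at hdim
    have hS0' : finrank ℚ S ≠ 0 := fun h => hS0 (Submodule.finrank_eq_zero.1 h)
    have hT0' : finrank ℚ T ≠ 0 := by
      intro h
      rw [Submodule.finrank_eq_zero.1 h, sup_bot_eq] at hSTs
      exact hS1 hSTs
    have c1 := finrank_cases hC hbar hb hcomm htr hS hSo
    have c2 := finrank_cases hC hbar hb hcomm htr hT hTo
    have hR : ∃ R : Submodule ℚ (X → ℚ), StableS P R ∧ R ≤ perpOf bar f ∧ finrank ℚ R = 1 := by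
      by_cases h1 : finrank ℚ S = 1
      · exact ⟨S, hS, hSle, h1⟩
      · exact ⟨T, hT, inf_le_right, by omega⟩
    obtain ⟨R, hR, hRle, hR1⟩ := hR
    obtain ⟨f', hf', hfR, -⟩ := exists_sign htr hR (hRle.trans (perpOf_le f)) hR1
    have hff : ∑ x, f x * f' x = 0 := by
      rw [← (hRle hfR).2]
      exact Finset.sum_congr rfl fun x _ => mul_comm _ _
    have h6 := card_ne_six hbar hb hf hf' hff
    refine ⟨by omega, f', hf', ?_, ?_⟩
    · rintro rfl
      rw [Finset.sum_congr rfl fun x _ => sign_sq hf x] at hff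
      simp at hff
    · rintro rfl
      simp only [Pi.neg_apply, mul_neg, sign_sq hf, Finset.sum_neg_distrib] at hff
      simp at hff
  · left
    push Not at hex
    intro W hW hWo hne
    have h1 := finrank_perpS hWo
    have h2 := hex W hW hWo
    have h3 := hex _ (perpS_stable hcomm hW) (perpS_le W)
    have h4 : finrank ℚ W ≠ finrank ℚ (OddS bar) := fun h =>
      hne (Submodule.eq_of_le_of_finrank_eq hWo h)
    exact hC W hW hWo (by omega)

end Pool.Agent.H21.FF
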