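import Pool.Agent.H21.FF.Fld

/-!
# The core of the space of odd functions
-/

set_option autoImplicit false
set_option linter.unusedSectionVars false

namespace Pool.Agent.H21.FF

open NumberField Module Pool.Agent.H21.TC Pool.Agent.H21.NP

variable {F : Type*} [Field F] [NumberField F]

theorem zeroSum_neg {t : F} {d : ℕ} (hd : 0 < d) (h : t ^ 2 = -(d : F)) :
    zeroSum (-t) = zeroSum t := by
  rw [← perpOf_signOf, ← perpOf_signOf]
  have h1 : signOf (-t) = - signOf t := by
    funext x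
    have h2 := (sq_neg hd (emb_sq h x)).2
    rw [Pi.neg_apply]
    unfold signOf
    rw [map_neg, Complex.neg_im]
    rcases lt_or_gt_of_ne h2 with h3 | h3
    · rw [if_pos (by linarith), if_neg (by linarith)]
      norm_num
    · rw [if_neg (by linarith), if_pos h3]
  rw [h1]
  ext f
  constructor
  · rintro ⟨h2, h3⟩
    refine ⟨h2, ?_⟩
    simp only [Pi.neg_apply, mul_neg, Finset.sum_neg_distrib, neg_eq_zero] at h3
    exact h3
  · rintro ⟨h2, h3⟩
    refine ⟨h2, ?_⟩
    simp only [Pi.neg_apply, mul_neg, Finset.sum_neg_distrib, neg_eq_zero]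
    exact h3

theorem core_eq {t : F} {d : ℕ} (hd : 0 < d) (h : t ^ 2 = -(d : F)) : core d F = zeroSum t := by
  ext f
  constructor
  · rintro ⟨h1, h2⟩
    exact ⟨h1, h2 t h⟩
  · rintro ⟨h1, h2⟩
    refine ⟨h1, fun u hu => ?_⟩
    rcases sq_eq_sq_iff_eq_or_eq_neg.1 (hu.trans h.symm) with rfl | rfl
    · exact h2
    · have h3 : f ∈ zeroSum (-t) := by
        rw [zeroSum_neg hd h]
        exact ⟨h1, h2⟩
      exact h3.2

theorem core_eq_odd {d : ℕ} (h : ¬ ∃ t : F, t ^ 2 = -(d : F)) : core d F = oddFunctions F := by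
  ext f
  constructor
  · rintro ⟨h1, -⟩
    exact h1
  · intro h1
    exact ⟨h1, fun u hu => absurd ⟨u, hu⟩ h⟩

theorem core_le (d : ℕ) : core d F ≤ OddS ComplexEmbedding.conjugate := fun _ h => h.1

variable [IsCMField F]

theorem core_stable {d : ℕ} (hd : 0 < d) : StableS (PC F) (core d F) := by
  by_cases h : ∃ t : F, t ^ 2 = -(d : F)
  · obtain ⟨t, ht⟩ := h
    rw [core_eq hd ht, ← perpOf_signOf]
    exact perpOf_stable conj_comm (isSign_signOf hd ht)
  · rw [core_eq_odd h]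
    intro σ hσ f hf φ
    change f (σ (ComplexEmbedding.conjugate φ)) = - f (σ φ)
    rw [conj_comm σ hσ]
    exact hf _

/-- The functions orthogonal to the core. -/
theorem perp_core {d : ℕ} (hd : 0 < d) {f : (F →+* ℂ) → ℚ}
    (hf : f ∈ perpS ComplexEmbedding.conjugate (core d F)) :
    (∀ t : F, t ^ 2 = -(d : F) → ∃ a : ℚ, f = a • signOf t) ∧
      ((¬ ∃ t : F, t ^ 2 = -(d : F)) → f = 0) := by
  classical
  refine ⟨fun t ht => ?_, fun h => ?_⟩
  · rw [core_eq hd ht, ← perpOf_signOf] at hf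
    have hs := isSign_signOf hd ht
    have hne : Nonempty (F →+* ℂ) := inferInstance
    have hN : ∑ x, signOf t x * signOf t x = (Fintype.card (F →+* ℂ) : ℚ) := by
      rw [Finset.sum_congr rfl fun x _ => sign_sq hs x]
      simp
    have hN0 : (Fintype.card (F →+* ℂ) : ℚ) ≠ 0 := by
      exact_mod_cast Fintype.card_ne_zero
    obtain ⟨a, ha⟩ : ∃ a : ℚ, a = (∑ x, f x * signOf t x) / Fintype.card (F →+* ℂ) := ⟨_, rfl⟩
    refine ⟨a, ?_⟩
    have h1 : f - a • signOf t ∈ perpOf ComplexEmbedding.conjugate (signOf t) := by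
      refine ⟨fun x => ?_, ?_⟩
      · simp only [Pi.sub_apply, Pi.smul_apply, smul_eq_mul, hf.1 x, hs.odd x]
        ring
      · have h2 : ∀ x, (f - a • signOf t) x * signOf t x =
            f x * signOf t x - a * (signOf t x * signOf t x) := by
          intro x
          simp only [Pi.sub_apply, Pi.smul_apply, smul_eq_mul]
          ring
        rw [Finset.sum_congr rfl fun x _ => h2 x, Finset.sum_sub_distrib, ← Finset.mul_sum, hN, ha,
          div_mul_cancel₀ _ hN0, sub_self]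
    have h3 : ∑ x, (f - a • signOf t) x * (f - a • signOf t) x = 0 := by
      have h4 := hf.2 _ h1
      have h5 := h1.2
      have h6 : ∀ x, (f - a • signOf t) x * (f - a • signOf t) x =
          f x * (f - a • signOf t) x - a * ((f - a • signOf t) x * signOf t x) := by
        intro x
        simp only [Pi.sub_apply, Pi.smul_apply, smul_eq_mul]
        ring
      rw [Finset.sum_congr rfl fun x _ => h6 x, Finset.sum_sub_distrib, ← Finset.mul_sum, h4, h5,
        mul_zero, sub_zero]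
    exact sub_eq_zero.1 (sum_sq_pos h3)
  · rw [core_eq_odd h] at hf
    exact sum_sq_pos (hf.2 f hf.1)

/-- Coincidences in the space orthogonal to the core. -/
theorem coinc_perp_core {d : ℕ} (hd : 0 < d) (h : core d F ≠ ⊥) :
    ∃ x y : F →+* ℂ, x ≠ y ∧ ∀ f ∈ perpS ComplexEmbedding.conjugate (core d F), f x = f y := by
  classical
  have hne : Nonempty (F →+* ℂ) := inferInstance
  by_cases hex : ∃ t : F, t ^ 2 = -(d : F)
  · obtain ⟨t, ht⟩ := hex
    have hs := isSign_signOf hd ht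
    have h1 := finrank_perpOf hs
    have h2 := finrank_odd (X := F →+* ℂ) conj_conj conj_ne
    have h3 : finrank ℚ (perpOf ComplexEmbedding.conjugate (signOf t)) ≠ 0 := by
      intro h0
      apply h
      rw [core_eq hd ht, ← perpOf_signOf]
      exact Submodule.finrank_eq_zero.1 h0
    obtain ⟨x, y, hxy, he⟩ := Fintype.exists_ne_map_eq_of_card_lt
      (fun x : F →+* ℂ => decide (signOf t x = 1)) (by
        rw [Fintype.card_bool]
        omega)
    refine ⟨x, y, hxy, fun f hf => ?_⟩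
    obtain ⟨a, rfl⟩ := (perp_core hd hf).1 t ht
    rw [decide_eq_decide] at he
    have h4 : signOf t x = signOf t y := by
      rcases signOf_val t x with h4 | h4
      · rw [h4, he.1 h4]
      · rcases signOf_val t y with h5 | h5
        · rw [h5, he.2 h5]
        · rw [h4, h5]
    rw [Pi.smul_apply, Pi.smul_apply, h4]
  · obtain ⟨x⟩ := hne
    refine ⟨x, ComplexEmbedding.conjugate x, (conj_ne x).symm, fun f hf => ?_⟩
    rw [(perp_core hd hf).2 hex]
    rfl

/-- An equivariant map to the line of a sign. -/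
theorem exists_sqrt_of_map {F' : Type*} [Field F'] [NumberField F'] [IsCMField F']
    {L : Type*} [Field L] [NumberField L] [IsGalois ℚ L]
    (j : L →+* ℂ) (h : ∀ ψ : F →+* ℂ, ∃ φ : F →+* L, j.comp φ = ψ)
    (h' : ∀ ψ : F' →+* ℂ, ∃ φ : F' →+* L, j.comp φ = ψ) {d : ℕ} (hd : 0 < d) {t : F'}
    (ht : t ^ 2 = -(d : F')) {U : Submodule ℚ ((F →+* ℂ) → ℚ)} (hU : IsIrred U)
    (hUs : IsStable U) (hUo : U ≤ oddFunctions F)
    (T : ((F →+* ℂ) → ℚ) →ₗ[ℚ] ((F' →+* ℂ) → ℚ)) (hT : ∀ f ∈ U, ∃ a : ℚ, T f = a • signOf t)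
    (hTe : ∀ τ : ℂ ≃+* ℂ, ∀ f ∈ U, T (fun φ => f ((τ : ℂ →+* ℂ).comp φ)) =
      fun φ => T f ((τ : ℂ →+* ℂ).comp φ)) (hT0 : ∃ f ∈ U, T f ≠ 0) :
    ∃ x : F, x ^ 2 = -(d : F) ∧ signOf x ∈ U := by
  classical
  -- the kernel
  have hker : U ⊓ LinearMap.ker T = ⊥ := by
    rcases hU.2 (U ⊓ LinearMap.ker T) (fun τ f hf => ⟨hUs τ f hf.1, by
      have h1 : T f = 0 := hf.2
      change T (fun φ => f ((τ : ℂ →+* ℂ).comp φ)) = 0
      rw [hTe τ f hf.1, h1]
      rfl⟩) inf_le_left with h1 | h1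
    · exact h1
    · exfalso
      obtain ⟨f, hf, hf0⟩ := hT0
      rw [← h1] at hf
      exact hf0 hf.2
  have hinj : ∀ f ∈ U, T f = 0 → f = 0 := by
    intro f hf h1
    have h2 : f ∈ U ⊓ LinearMap.ker T := ⟨hf, h1⟩
    rw [hker, Submodule.mem_bot] at h2
    exact h2
  have hfin : finrank ℚ U = 1 := by
    obtain ⟨f, hf, hf0⟩ := hT0
    have hfne : f ≠ 0 := by
      rintro rfl
      exact hf0 (map_zero T)
    rw [finrank_eq_one_iff']
    refine ⟨⟨f, hf⟩, fun h1 => hfne (congrArg Subtype.val h1), ?_⟩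
    rintro ⟨g, hg⟩
    obtain ⟨a, ha⟩ := hT f hf
    obtain ⟨b, hb⟩ := hT g hg
    have ha0 : a ≠ 0 := by
      rintro rfl
      apply hf0
      rw [ha, zero_smul]
    refine ⟨b / a, Subtype.ext ?_⟩
    change (b / a) • f = g
    have h1 : T ((b / a) • f - g) = 0 := by
      rw [map_sub, map_smul, ha, hb, smul_smul, div_mul_cancel₀ _ ha0, sub_self]
    exact sub_eq_zero.1 (hinj _ (Submodule.sub_mem _ (Submodule.smul_mem _ _ hf) hg) h1)
  obtain ⟨f, hf, hfU, -⟩ := exists_sign pc_trans' ((stable_iff U).1 hUs) hUo hfin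
  obtain ⟨x₀, e, he, hx₀, rfl⟩ := exists_root_of_sign hf
  obtain ⟨a, ha⟩ := hT _ hfU
  have ha0 : a ≠ 0 := by
    rintro rfl
    rw [zero_smul] at ha
    have h1 := hinj _ hfU ha
    obtain ⟨y⟩ : Nonempty (F →+* ℂ) := inferInstance
    have h2 := sign_sq hf y
    rw [h1, Pi.zero_apply, mul_zero] at h2
    exact zero_ne_one h2
  obtain ⟨y⟩ : Nonempty (F →+* ℂ) := inferInstance
  obtain ⟨z⟩ : Nonempty (F' →+* ℂ) := inferInstance
  obtain ⟨y, rfl⟩ := h y
  obtain ⟨z, rfl⟩ := h' z
  -- the product is rational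
  have hfix : ∀ g : L ≃ₐ[ℚ] L, g (y x₀ * z t) = y x₀ * z t := by
    intro g
    obtain ⟨τ, hτ⟩ := Pool.Agent.H977R3.CM.exists_aut j (g : L ≃+* L)
    have hτ' : ∀ b : L, τ (j b) = j (g b) := hτ
    apply j.injective
    rw [map_mul, map_mul, map_mul, ← hτ', ← hτ']
    have key : ∀ ε : ℚ, (∀ φ : F →+* ℂ, signOf x₀ (permOf F τ φ) = ε * signOf x₀ φ) →
        ∀ φ : F' →+* ℂ, signOf t (permOf F' τ φ) = ε * signOf t φ := by
      intro ε hε φ
      have h1 : (fun φ : F →+* ℂ => signOf x₀ ((τ : ℂ →+* ℂ).comp φ)) = ε • signOf x₀ := by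
        funext φ
        exact hε φ
      have h2 := hTe τ _ hfU
      rw [h1, map_smul, ha] at h2
      have h3 := congrFun h2 φ
      simp only [Pi.smul_apply, smul_eq_mul] at h3
      have h4 : a * signOf t (permOf F' τ φ) = a * (ε * signOf t φ) := by
        change a * signOf t ((τ : ℂ →+* ℂ).comp φ) = _
        rw [← h3]
        ring
      exact mul_left_cancel₀ ha0 h4
    have hp1 : ∀ (φ : F →+* ℂ), (permOf F τ φ) x₀ = τ (φ x₀) := fun φ => rfl
    have hp2 : ∀ (φ : F' →+* ℂ), (permOf F' τ φ) t = τ (φ t) := fun φ => rfl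
    have hne : ∀ s : ℚ, (s = 1 ∨ s = -1) → s ≠ -s := by
      rintro s (rfl | rfl) <;> norm_num
    rcases hf.char _ (permOf_mem τ) with h1 | h1
    · have h2 := key 1 (fun φ => by rw [h1, one_mul])
      rcases emb_cases he hx₀ (permOf F τ (j.comp y)) (j.comp y) with h3 | h3
      · rcases emb_cases hd ht (permOf F' τ (j.comp z)) (j.comp z) with h4 | h4
        · have e1 : τ (j (y x₀)) = j (y x₀) := h3.2
          have e2 : τ (j (z t)) = j (z t) := h4.2
          rw [e1, e2]
        · exfalso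
          have h5 := h2 (j.comp z)
          rw [h4.1, one_mul] at h5
          exact hne _ (signOf_val t _) h5.symm
      · exfalso
        have h5 := h1 (j.comp y)
        rw [h3.1] at h5
        exact hne _ (signOf_val x₀ _) h5.symm
    · have h2 := key (-1) (fun φ => by rw [h1]; ring)
      rcases emb_cases he hx₀ (permOf F τ (j.comp y)) (j.comp y) with h3 | h3
      · exfalso
        have h5 := h1 (j.comp y)
        rw [h3.1] at h5
        exact hne _ (signOf_val x₀ _) h5
      · rcases emb_cases hd ht (permOf F' τ (j.comp z)) (j.comp z) with h4 | h4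
        · exfalso
          have h5 := h2 (j.comp z)
          rw [h4.1] at h5
          exact hne _ (signOf_val t (j.comp z)) (by linarith)
        · have e1 : τ (j (y x₀)) = - j (y x₀) := h3.2
          have e2 : τ (j (z t)) = - j (z t) := h4.2
          rw [e1, e2]
          ring
  obtain ⟨r, hr⟩ : ∃ r : ℚ, algebraMap ℚ L r = y x₀ * z t := by
    have h1 : y x₀ * z t ∈ (⊥ : IntermediateField ℚ L) := by
      rw [IsGalois.mem_bot_iff_fixed]
      exact hfix
    exact IntermediateField.mem_bot.1 h1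
  have hx0 : x₀ ≠ 0 := by
    rintro rfl
    have h1 : (e : F) = 0 := by
      rw [zero_pow two_ne_zero] at hx₀
      exact neg_eq_zero.1 hx₀.symm
    exact he.ne' (by exact_mod_cast h1)
  have hyx : y x₀ ≠ 0 := (map_ne_zero y).2 hx0
  have hyr : y ((r : F) / x₀) = z t := by
    rw [map_div₀, map_ratCast, div_eq_iff hyx]
    have h1 : ((r : ℚ) : L) = algebraMap ℚ L r := by
      rw [eq_ratCast]
    rw [h1, hr]
    ring
  have hx : ((r : F) / x₀) ^ 2 = -(d : F) := by
    apply y.injective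
    rw [map_pow, hyr, ← map_pow, ht, map_neg, map_neg, map_natCast, map_natCast]
  refine ⟨(r : F) / x₀, hx, ?_⟩
  have h1 : (r : F) / x₀ = ((-(r / e) : ℚ) : F) * x₀ := by
    have he' : (e : F) ≠ 0 := by exact_mod_cast he.ne'
    have h2 : x₀ * x₀ = -(e : F) := by rw [← hx₀, pow_two]
    rw [div_eq_iff hx0, mul_assoc, h2]
    push_cast
    field_simp
  rcases sign_of_prop hd he hx hx₀ _ h1 with h2 | h2
  · rw [← h2]
    exact hfU
  · have h3 : signOf ((r : F) / x₀) = - signOf x₀ := by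
      rw [h2, neg_neg]
    rw [h3]
    exact Submodule.neg_mem _ hfU

/-- The core has no map to the line of a sign. -/
theorem no_map_to_sign {F' : Type*} [Field F'] [NumberField F'] [IsCMField F']
    {L : Type*} [Field L] [NumberField L] [IsGalois ℚ L]
    (j : L →+* ℂ) (h : ∀ ψ : F →+* ℂ, ∃ φ : F →+* L, j.comp φ = ψ)
    (h' : ∀ ψ : F' →+* ℂ, ∃ φ : F' →+* L, j.comp φ = ψ) {d : ℕ} (hd : 0 < d) {t : F'}
    (ht : t ^ 2 = -(d : F')) (hU : IsIrred (core d F))
    (T : ((F →+* ℂ) → ℚ) →ₗ[ℚ] ((F' →+* ℂ) → ℚ)) (hT : ∀ f ∈ core d F, ∃ a : ℚ, T f = a • signOf t)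
    (hTe : ∀ τ : ℂ ≃+* ℂ, ∀ f ∈ core d F, T (fun φ => f ((τ : ℂ →+* ℂ).comp φ)) =
      fun φ => T f ((τ : ℂ →+* ℂ).comp φ)) : ∀ f ∈ core d F, T f = 0 := by
  by_contra hno
  push Not at hno
  obtain ⟨x, hx, hxU⟩ := exists_sqrt_of_map j h h' hd ht hU ((stable_iff _).2 (core_stable hd))
    (core_le d) T hT hTe hno
  rw [core_eq hd hx, ← perpOf_signOf] at hxU
  have h1 := hxU.2
  rw [Finset.sum_congr rfl fun y _ => sign_sq (isSign_signOf hd hx) y] at h1
  have hne : Nonempty (F →+* ℂ) := inferInstance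
  simp at h1

end Pool.Agent.H21.FF
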