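import Pool.Agent.H21.FF.Core
import Pool.Agent.H21.NP.Cyc
import Pool.Agent.H21.NP.Prime

/-!
# Criteria for the irreducibility of the core
-/

set_option autoImplicit false
set_option linter.unusedSectionVars false

namespace Pool.Agent.H21.FF

open NumberField Module Pool.Agent.H21.TC Pool.Agent.H21.NP

section set

variable {X : Type*} [Fintype X] {P : Subgroup (Equiv.Perm X)} {bar : X → X}

/-- A permutation of prime order with two orbits. -/
theorem exists_cycle (hbar : ∀ x, bar (bar x) = x) (hb : ∀ x, bar x ≠ x)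
    (hcomm : ∀ σ ∈ P, ∀ x, σ (bar x) = bar (σ x)) (htr : ∀ x y : X, ∃ σ ∈ P, σ x = y)
    {g : ℕ} (hg : g.Prime) (hg2 : g ≠ 2) (hcard : Fintype.card X = 2 * g) :
    ∃ (τ : Equiv.Perm X) (y : X), τ ∈ P ∧ τ ^ g = 1 ∧
      Function.Injective (fun i : ZMod g => (τ ^ i.val) y) ∧
      (∀ i j : ZMod g, (τ ^ i.val) ((τ ^ j.val) y) = (τ ^ (i + j).val) y) ∧
      ∀ i j : ZMod g, bar ((τ ^ i.val) y) ≠ (τ ^ j.val) y := by
  classical
  have hgF : Fact g.Prime := ⟨hg⟩
  have hgne : NeZero g := ⟨hg.ne_zero⟩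
  have hg1 : 1 < g := hg.one_lt
  have hgodd : ¬ g ∣ 2 := by
    intro h
    exact hg2 ((Nat.prime_dvd_prime_iff_eq hg Nat.prime_two).1 h)
  have hXne : Nonempty X := Fintype.card_pos_iff.1 (by rw [hcard]; omega)
  obtain ⟨x₀⟩ := hXne
  have hdvd : g ∣ Nat.card P := by
    have h1 : MulAction.orbit P x₀ = Set.univ := by
      ext y
      refine ⟨fun _ => trivial, fun _ => ?_⟩
      obtain ⟨σ, hσ, rfl⟩ := htr x₀ y
      exact ⟨⟨σ, hσ⟩, rfl⟩
    have h2 := MulAction.card_orbit_mul_card_stabilizer_eq_card_group P x₀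
    have h3 : Fintype.card (MulAction.orbit P x₀) = 2 * g := by
      rw [← hcard]
      exact Fintype.card_congr ((Equiv.setCongr h1).trans (Equiv.Set.univ X))
    rw [Nat.card_eq_fintype_card, ← h2, h3]
    exact Dvd.intro_left 2 rfl |>.mul_right _
  obtain ⟨⟨τ, hτP⟩, hτ⟩ := exists_prime_orderOf_dvd_card' (G := P) g hdvd
  have hτ1 : orderOf τ = g := by
    rw [← hτ]
    exact (Subgroup.orderOf_mk (a := τ) hτP).symm
  have hτg : τ ^ g = 1 := by rw [← hτ1]; exact pow_orderOf_eq_one τ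
  have hτne : τ ≠ 1 := by
    rintro rfl
    rw [orderOf_one] at hτ1
    omega
  obtain ⟨y, hy⟩ : ∃ y, τ y ≠ y := by
    by_contra hno
    push Not at hno
    exact hτne (Equiv.ext hno)
  have hτb := hcomm τ hτP
  have hfix : ∀ n : ℕ, (τ ^ n) y = y → g ∣ n := by
    intro n hn
    by_contra hnd
    have hcop : n.Coprime g := Nat.Coprime.symm ((Nat.Prime.coprime_iff_not_dvd hg).2 hnd)
    apply hy
    have h1 : ∀ k : ℕ, ((τ ^ n) ^ k) y = y := by
      intro k
      induction k with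
      | zero => rfl
      | succ k ih => rw [pow_succ, Equiv.Perm.mul_apply, hn, ih]
    obtain ⟨m, hm⟩ := Nat.exists_mul_mod_eq_one_of_coprime hcop hg1
    have h2 := h1 m
    rw [← pow_mul, ← Nat.div_add_mod (n * m) g, hm.2, pow_add, pow_mul, hτg, one_pow, one_mul,
      pow_one] at h2
    exact h2
  have hmod : ∀ n : ℕ, τ ^ (n % g) = τ ^ n := by
    intro n
    conv_rhs => rw [← Nat.div_add_mod n g, pow_add, pow_mul, hτg, one_pow, one_mul]
  have hfadd : ∀ i j : ZMod g, (τ ^ i.val) ((τ ^ j.val) y) = (τ ^ (i + j).val) y := by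
    intro i j
    rw [ZMod.val_add, hmod, pow_add, Equiv.Perm.mul_apply]
  have hzero : (τ ^ (0 : ZMod g).val) y = y := by
    rw [ZMod.val_zero, pow_zero]
    rfl
  refine ⟨τ, y, hτP, hτg, ?_, hfadd, ?_⟩
  · intro i j hij
    have hij' : (τ ^ i.val) y = (τ ^ j.val) y := hij
    have h1 : (τ ^ (-i).val) ((τ ^ i.val) y) = (τ ^ (-i).val) ((τ ^ j.val) y) := by rw [hij']
    rw [hfadd, hfadd, neg_add_cancel, hzero] at h1
    have h3 := hfix (-i + j).val h1.symm
    have h4 := Nat.eq_zero_of_dvd_of_lt h3 (ZMod.val_lt _)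
    rw [ZMod.val_eq_zero] at h4
    have h5 : j = i := by
      have := neg_add_eq_zero.1 h4
      exact this.symm
    exact h5.symm
  · intro i j hij
    have h1 : (τ ^ (-i).val) (bar ((τ ^ i.val) y)) = (τ ^ (-i).val) ((τ ^ j.val) y) := by rw [hij]
    rw [perm_pow_comm hτb, hfadd, hfadd, neg_add_cancel, hzero] at h1
    have h3 : (τ ^ (2 * (-i + j).val)) y = y := by
      rw [two_mul, pow_add, Equiv.Perm.mul_apply]
      have h4 : (τ ^ (-i + j).val) y = bar y := h1.symm
      rw [h4, perm_pow_comm hτb, h4, hbar]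
    have h5 := hfix _ h3
    have h6 : g ∣ (-i + j).val := by
      rcases (Nat.Prime.dvd_mul hg).1 h5 with h | h
      · exact absurd h hgodd
      · exact h
    have h7 := Nat.eq_zero_of_dvd_of_lt h6 (ZMod.val_lt _)
    rw [ZMod.val_eq_zero] at h7
    rw [h7, hzero] at h1
    exact hb y h1

/-- Prime degree. -/
theorem irred_of_prime (hbar : ∀ x, bar (bar x) = x) (hb : ∀ x, bar x ≠ x)
    (hcomm : ∀ σ ∈ P, ∀ x, σ (bar x) = bar (σ x)) (htr : ∀ x y : X, ∃ σ ∈ P, σ x = y)
    {g : ℕ} (hg : g.Prime) (hcard : Fintype.card X = 2 * g) {f : X → ℚ} (hf : IsSign P bar f)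
    (S : Submodule ℚ (X → ℚ)) (hS : StableS P S) (hle : S ≤ perpOf bar f) :
    S = ⊥ ∨ S = perpOf bar f := by
  classical
  have hne : Nonempty X := Fintype.card_pos_iff.1 (by rw [hcard]; exact Nat.mul_pos two_pos hg.pos)
  have hfr := finrank_perpOf hf
  have hodd := finrank_odd hbar hb
  by_cases h2 : g = 2
  · by_cases h0 : S = ⊥
    · exact Or.inl h0
    · right
      apply Submodule.eq_of_le_of_finrank_le hle
      have h3 : finrank ℚ S ≠ 0 := fun h => h0 (Submodule.finrank_eq_zero.1 h)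
      omega
  have hgne : NeZero g := ⟨hg.ne_zero⟩
  obtain ⟨τ, y, hτP, hτg, hinj, hadd, hbarne⟩ := exists_cycle hbar hb hcomm htr hg h2 hcard
  let O : Finset X := Finset.univ.image fun i : ZMod g => (τ ^ i.val) y
  have hOc : O.card = g := by
    rw [Finset.card_image_of_injective _ hinj, Finset.card_univ, ZMod.card]
  have hO : IsTr bar O := by
    have h1 : ∀ x ∈ O, bar x ∉ O := by
      intro x hx hx'
      obtain ⟨i, -, rfl⟩ := Finset.mem_image.1 hx
      obtain ⟨j, -, hj⟩ := Finset.mem_image.1 hx'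
      exact hbarne i j hj.symm
    have hbinj : Function.Injective bar := fun a b h => by rw [← hbar a, h, hbar]
    have h2 : Disjoint O (O.image bar) := by
      rw [Finset.disjoint_left]
      intro x hx hx'
      obtain ⟨z, hz, rfl⟩ := Finset.mem_image.1 hx'
      exact h1 z hz hx
    have h3 : O ∪ O.image bar = Finset.univ := by
      rw [← Finset.card_eq_iff_eq_univ, Finset.card_union_of_disjoint h2,
        Finset.card_image_of_injective _ hbinj, hOc, hcard]
      ring
    intro x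
    refine ⟨h1 x, fun hx => ?_⟩
    have h4 : x ∈ O ∪ O.image bar := by rw [h3]; exact Finset.mem_univ _
    rcases Finset.mem_union.1 h4 with h5 | h5
    · exact h5
    · obtain ⟨z, hz, rfl⟩ := Finset.mem_image.1 h5
      rw [hbar] at hx
      exact absurd hz hx
  have hsumO : ∀ F : X → ℚ, ∑ x ∈ O, F x = ∑ i : ZMod g, F ((τ ^ i.val) y) := fun F =>
    Finset.sum_image fun a _ b _ h => hinj h
  -- the sign is constant on the orbit
  have hfτ : ∀ x, f (τ x) = f x := by
    rcases hf.char τ hτP with h | h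
    · exact h
    · exfalso
      have h3 : ∀ (n : ℕ) (x : X), f ((τ ^ n) x) = (-1) ^ n * f x := by
        intro n
        induction n with
        | zero => intro x; simp
        | succ n ih =>
          intro x
          rw [pow_succ', Equiv.Perm.mul_apply, h, ih, pow_succ]
          ring
      have h4 := h3 g y
      rw [hτg, (hg.odd_of_ne_two h2).neg_one_pow, Equiv.Perm.one_apply] at h4
      rcases hf.val y with h5 | h5
      · rw [h5] at h4; norm_num at h4
      · rw [h5] at h4; norm_num at h4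
  have hfn : ∀ n : ℕ, f ((τ ^ n) y) = f y := by
    intro n
    induction n with
    | zero => rfl
    | succ n ih => rw [pow_succ', Equiv.Perm.mul_apply, hfτ, ih]
  have hsum0 : ∀ h ∈ perpOf bar f, ∑ i : ZMod g, h ((τ ^ i.val) y) = 0 := by
    intro h hh
    have h3 := hh.2
    rw [sum_tr hbar hO (fun x => h x * f x) (fun x => by rw [hh.1, hf.odd]; ring), hsumO] at h3
    simp only [hfn] at h3
    rw [← Finset.sum_mul] at h3
    have h4 : f y ≠ 0 := by
      rcases hf.val y with h5 | h5 <;> rw [h5] <;> norm_num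
    have h5 : (∑ i : ZMod g, h ((τ ^ i.val) y)) * f y = 0 := by linarith
    exact (mul_eq_zero.1 h5).resolve_right h4
  -- functions that are constant on the orbit
  have hconst : ∀ h ∈ perpOf bar f, (∀ i : ZMod g, h ((τ ^ i.val) y) = h ((τ ^ (0 : ZMod g).val) y)) →
      h = 0 := by
    intro h hh hc
    have h3 := hsum0 h hh
    rw [Finset.sum_congr rfl fun i _ => hc i, Finset.sum_const, Finset.card_univ, ZMod.card,
      nsmul_eq_mul] at h3
    have h4 : (g : ℚ) ≠ 0 := by exact_mod_cast hg.ne_zero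
    have h5 := (mul_eq_zero.1 h3).resolve_left h4
    have h6 : ∀ x ∈ O, h x = 0 := by
      intro x hx
      obtain ⟨i, -, rfl⟩ := Finset.mem_image.1 hx
      rw [hc i, h5]
    funext x
    by_cases hx : x ∈ O
    · exact h6 x hx
    · have h7 : bar x ∈ O := by
        rw [hO, hbar]
        exact hx
      have h8 := h6 _ h7
      rw [hh.1] at h8
      exact neg_eq_zero.1 h8
  by_cases h0 : S = ⊥
  · exact Or.inl h0
  right
  by_contra hne1
  obtain ⟨c, hc, hc0⟩ : ∃ c ∈ S, c ≠ 0 := by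
    by_contra hno
    push Not at hno
    exact h0 ((Submodule.eq_bot_iff _).2 hno)
  obtain ⟨k, hk, hkS⟩ : ∃ k ∈ perpOf bar f, k ∉ S := by
    by_contra hno
    push Not at hno
    exact hne1 (le_antisymm hle hno)
  obtain ⟨k₀, hk₀, ho⟩ := exists_decomp S k
  have hc' : k - k₀ ∈ perpOf bar f := Submodule.sub_mem _ hk (hle hk₀)
  have hc'0 : k - k₀ ≠ 0 := by
    intro h
    apply hkS
    rw [sub_eq_zero.1 h]
    exact hk₀
  rcases corr hg (fun i => (k - k₀) ((τ ^ i.val) y)) (fun i => c ((τ ^ i.val) y)) (by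
    intro i
    have h3 := ho _ (hS _ (pow_mem hτP i.val) c hc)
    rw [sum_tr hbar hO (fun x => (k x - k₀ x) * c ((τ ^ i.val) x)) (fun x => by
      have e1 : k (bar x) = - k x := hk.1 x
      have e2 : k₀ (bar x) = - k₀ x := (hle hk₀).1 x
      rw [e1, e2, perm_pow_comm (hcomm τ hτP), (hle hc).1]
      ring), hsumO] at h3
    have h4 : ∑ j : ZMod g, (k ((τ ^ j.val) y) - k₀ ((τ ^ j.val) y)) *
        c ((τ ^ i.val) ((τ ^ j.val) y)) = 0 := by linarith
    rw [← h4]
    refine Finset.sum_congr rfl fun j _ => ?_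
    rw [hadd]
    rfl) with h3 | h3
  · exact hc'0 (hconst _ hc' h3)
  · exact hc0 (hconst _ (hle hc) h3)

/-- Doubly transitive groups. -/
theorem irred_of_two_trans (hbar : ∀ x, bar (bar x) = x) (hb : ∀ x, bar x ≠ x)
    (htr : ∀ x y : X, ∃ σ ∈ P, σ x = y) {f : X → ℚ} (hf : IsSign P bar f)
    (h2 : ∀ x y x' y' : X, x ≠ y → x' ≠ y' → f x = 1 → f y = 1 → f x' = 1 → f y' = 1 →
      ∃ σ ∈ P, σ x = x' ∧ σ y = y')
    (S : Submodule ℚ (X → ℚ)) (hS : StableS P S) (hle : S ≤ perpOf bar f) :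
    S = ⊥ ∨ S = perpOf bar f := by
  classical
  by_cases hXne : Nonempty X
  swap
  · have hem : IsEmpty X := not_nonempty_iff.1 hXne
    exact Or.inl (Subsingleton.elim _ _)
  obtain ⟨x₁⟩ := id hXne
  have hfr := finrank_perpOf hf
  have hodd := finrank_odd hbar hb
  let O : Finset X := Finset.univ.filter fun x => f x = 1
  have hO : IsTr bar O := by
    intro x
    simp only [O, Finset.mem_filter, Finset.mem_univ, true_and, hf.odd]
    rcases hf.val x with h | h
    · rw [h]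
      norm_num
    · rw [h]
      norm_num
  have hOc := card_tr hbar hO
  obtain ⟨x₀, hx₀⟩ : ∃ x₀, f x₀ = 1 := by
    rcases hf.val x₁ with h | h
    · exact ⟨x₁, h⟩
    · exact ⟨bar x₁, by rw [hf.odd, h, neg_neg]⟩
  have hx₀O : x₀ ∈ O := Finset.mem_filter.2 ⟨Finset.mem_univ _, hx₀⟩
  by_cases h1 : O.card = 1
  · left
    have h3 : finrank ℚ (perpOf bar f) = 0 := by omega
    rw [Submodule.finrank_eq_zero] at h3
    rw [h3] at hle
    exact le_bot_iff.1 hle
  have hpos : 0 < O.card := Finset.card_pos.2 ⟨x₀, hx₀O⟩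
  obtain ⟨y₀, hy₀O, hy₀⟩ : ∃ y₀ ∈ O, y₀ ≠ x₀ := by
    by_contra hno
    push Not at hno
    apply h1
    rw [Finset.card_eq_one]
    refine ⟨x₀, Finset.eq_singleton_iff_unique_mem.2 ⟨hx₀O, hno⟩⟩
  have hy₀1 : f y₀ = 1 := (Finset.mem_filter.1 hy₀O).2
  obtain ⟨k, hk, hk1, hks, hk2⟩ := exists_kernel S
  have hko : ∀ x y, k x (bar y) = - k x y := fun x => (hle (hk x)).1
  have hdiag : ∀ x, k x x = k x₀ x₀ := by
    intro x
    obtain ⟨σ, hσ, rfl⟩ := htr x₀ x
    exact kernel_perm hS hk hk1 hσ x₀ x₀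
  have hoff : ∀ y ∈ O.erase x₀, k x₀ y = k x₀ y₀ := by
    intro y hy
    rw [Finset.mem_erase, Finset.mem_filter] at hy
    obtain ⟨σ, hσ, e1, e2⟩ := h2 x₀ y₀ x₀ y hy₀.symm hy.1.symm hx₀ hy₀1 hx₀ hy.2.2
    have h3 := kernel_perm hS hk hk1 hσ x₀ y₀
    rw [e1, e2] at h3
    exact h3
  obtain ⟨α, hα⟩ : ∃ α, α = k x₀ x₀ := ⟨_, rfl⟩
  obtain ⟨β, hβ⟩ : ∃ β, β = k x₀ y₀ := ⟨_, rfl⟩
  have hsplit : ∀ F : X → ℚ, ∑ y ∈ O, F y = F x₀ + ∑ y ∈ O.erase x₀, F y := fun F =>
    (Finset.add_sum_erase O F hx₀O).symm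
  have hcer : ((O.erase x₀).card : ℚ) = O.card - 1 := by
    rw [Finset.card_erase_of_mem hx₀O]
    push_cast [Nat.cast_sub hpos]
    ring
  -- the sum is zero
  have e1 : α + (O.card - 1) * β = 0 := by
    have h3 := (hle (hk x₀)).2
    rw [sum_tr hbar hO (fun x => k x₀ x * f x) (fun x => by rw [hko, hf.odd]; ring)] at h3
    have h4 : ∑ x ∈ O, k x₀ x * f x = ∑ x ∈ O, k x₀ x := by
      refine Finset.sum_congr rfl fun x hx => ?_
      rw [(Finset.mem_filter.1 hx).2, mul_one]
    rw [h4, hsplit, Finset.sum_congr rfl hoff, Finset.sum_const, nsmul_eq_mul, hcer, ← hα,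
      ← hβ] at h3
    linarith
  -- idempotence
  have e2 : α = 2 * (α ^ 2 + (O.card - 1) * β ^ 2) := by
    have h3 := hk1 (k x₀) (hk x₀) x₀
    rw [sum_tr hbar hO (fun x => k x₀ x * k x₀ x) (fun x => by rw [hko]; ring), hsplit,
      Finset.sum_congr rfl (fun y hy => by rw [hoff y hy] :
        ∀ y ∈ O.erase x₀, k x₀ y * k x₀ y = k x₀ y₀ * k x₀ y₀), Finset.sum_const, nsmul_eq_mul,
      hcer, ← hα, ← hβ] at h3
    linarith
  have hfin : (finrank ℚ S : ℚ) = 2 * O.card * α := by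
    rw [hk2, Finset.sum_congr rfl fun x _ => hdiag x, Finset.sum_const, Finset.card_univ,
      nsmul_eq_mul, hOc, ← hα]
    push_cast
    ring
  have hg1 : (0 : ℚ) < O.card - 1 := by
    have h3 : 1 < O.card := by omega
    have h4 : (1 : ℚ) < O.card := by exact_mod_cast h3
    linarith
  have e3 : α = -((O.card - 1) * β) := by linarith
  by_cases hβ0 : β = 0
  · left
    rw [e3, hβ0, mul_zero, neg_zero, mul_zero] at hfin
    exact Submodule.finrank_eq_zero.1 (by exact_mod_cast hfin)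
  · right
    apply Submodule.eq_of_le_of_finrank_eq hle
    have h3 : (O.card - 1 : ℚ) * β * (1 + 2 * O.card * β) = 0 := by
      rw [e3] at e2
      linear_combination (-1 : ℚ) * e2
    have h4 : (1 : ℚ) + 2 * O.card * β = 0 :=
      (mul_eq_zero.1 h3).resolve_left (mul_ne_zero hg1.ne' hβ0)
    have h5 : (finrank ℚ S : ℚ) = O.card - 1 := by
      rw [hfin, e3]
      linear_combination (-(O.card - 1) : ℚ) * h4
    have h6 : ((finrank ℚ S + 1 : ℕ) : ℚ) = O.card := by
      push_cast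
      linarith
    have h7 : finrank ℚ S + 1 = O.card := by exact_mod_cast h6
    omega

end set

variable {F : Type*} [Field F] [NumberField F] [IsCMField F]

theorem finrank_core {d : ℕ} (hd : 0 < d) {t : F} (ht : t ^ 2 = -(d : F)) :
    2 * (finrank ℚ (core d F) + 1) = finrank ℚ F := by
  have hne : Nonempty (F →+* ℂ) := inferInstance
  have h1 := finrank_perpOf (isSign_signOf hd ht)
  have h2 := finrank_odd (X := F →+* ℂ) conj_conj conj_ne
  rw [core_eq hd ht, ← perpOf_signOf, h1, h2]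
  exact Embeddings.card F ℂ

theorem core_ne_bot {d : ℕ} (hd : 0 < d) {t : F} (ht : t ^ 2 = -(d : F)) (h : finrank ℚ F ≠ 2) :
    core d F ≠ ⊥ := by
  intro h0
  have h1 := finrank_core hd ht
  rw [h0, finrank_bot] at h1
  omega

theorem core_eq_bot {d : ℕ} (hd : 0 < d) {t : F} (ht : t ^ 2 = -(d : F)) (h : finrank ℚ F = 2) :
    core d F = ⊥ := by
  have h1 := finrank_core hd ht
  exact Submodule.finrank_eq_zero.1 (by omega)

/-- Prime degree over the imaginary quadratic field. -/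
theorem core_irred_of_prime {d : ℕ} (hd : 0 < d) {t : F} (ht : t ^ 2 = -(d : F)) {g : ℕ}
    (hg : g.Prime) (h : finrank ℚ F = 2 * g) : IsIrred (core d F) := by
  refine ⟨core_ne_bot hd ht (by have := hg.two_le; omega), fun S hS hle => ?_⟩
  rw [core_eq hd ht, ← perpOf_signOf] at hle ⊢
  exact irred_of_prime conj_conj conj_ne conj_comm pc_trans' hg
    (by rw [card_emb]; exact h) (isSign_signOf hd ht) S ((stable_iff S).1 hS) hle

/-- Doubly transitive Galois groups over the imaginary quadratic field. -/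
theorem core_irred_of_two_trans {d : ℕ} (hd : 0 < d) {t : F} (ht : t ^ 2 = -(d : F))
    (hF : finrank ℚ F ≠ 2)
    (h : ∀ x y x' y' : F →+* ℂ, x ≠ y → x' ≠ y' → 0 < (x t).im → 0 < (y t).im → 0 < (x' t).im →
      0 < (y' t).im → ∃ τ : ℂ ≃+* ℂ, (τ : ℂ →+* ℂ).comp x = x' ∧ (τ : ℂ →+* ℂ).comp y = y') :
    IsIrred (core d F) := by
  refine ⟨core_ne_bot hd ht hF, fun S hS hle => ?_⟩
  rw [core_eq hd ht, ← perpOf_signOf] at hle ⊢
  refine irred_of_two_trans conj_conj conj_ne pc_trans' (isSign_signOf hd ht) ?_ S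
    ((stable_iff S).1 hS) hle
  intro x y x' y' hxy hxy' e1 e2 e3 e4
  rw [signOf_one] at e1 e2 e3 e4
  obtain ⟨τ, h5, h6⟩ := h x y x' y' hxy hxy' e1 e2 e3 e4
  exact ⟨permOf F τ, permOf_mem τ, h5, h6⟩

/-- Irreducible spaces of different dimensions. -/
theorem noMapsTo_of_finrank {F' : Type*} [Field F'] [NumberField F'] [IsCMField F']
    {A : Submodule ℚ ((F →+* ℂ) → ℚ)} {B : Submodule ℚ ((F' →+* ℂ) → ℚ)} (hA : IsIrred A)
    (hAs : IsStable A) (hB : IsIrred B) (h : finrank ℚ A ≠ finrank ℚ B) : NoMapsTo A B := by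
  classical
  intro T hT hTe f hf
  by_contra hne
  apply h
  have hker : A ⊓ LinearMap.ker T = ⊥ := by
    rcases hA.2 (A ⊓ LinearMap.ker T) (fun τ f hf => ⟨hAs τ f hf.1, by
      have h1 : T f = 0 := hf.2
      change T (fun φ => f ((τ : ℂ →+* ℂ).comp φ)) = 0
      rw [hTe τ f hf.1, h1]
      rfl⟩) inf_le_left with h1 | h1
    · exact h1
    · exfalso
      have h2 : f ∈ A ⊓ LinearMap.ker T := by
        rw [h1]
        exact hf
      exact hne h2.2
  have himg : A.map T = B := by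
    rcases hB.2 (A.map T) (by
      rintro τ _ ⟨k, hk, rfl⟩
      exact ⟨_, hAs τ k hk, hTe τ k hk⟩) (by
      rintro _ ⟨k, hk, rfl⟩
      exact hT k hk) with h1 | h1
    · exfalso
      have h2 : T f ∈ A.map T := ⟨f, hf, rfl⟩
      rw [h1, Submodule.mem_bot] at h2
      exact hne h2
    · exact h1
  rw [← himg]
  have hinj : Function.Injective (T.domRestrict A) := by
    rw [← LinearMap.ker_eq_bot, eq_bot_iff]
    rintro ⟨k, hk⟩ hk0
    have h1 : T k = 0 := hk0
    have h2 : k ∈ A ⊓ LinearMap.ker T := ⟨hk, h1⟩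
    rw [hker, Submodule.mem_bot] at h2
    rw [Submodule.mem_bot]
    exact Subtype.ext h2
  have h3 := LinearMap.finrank_range_of_inj hinj
  rw [LinearMap.range_domRestrict] at h3
  exact h3.symm

end Pool.Agent.H21.FF
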