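import Pool.Graph.R_pool_sql_team_seeded_3997aac3.Q43.HN.Defs
import Pool.Agent.H21.TC.Defs

/-!
# Functions on the embeddings of a CM field, relations between Frobenius eigenvalues and positivity:
the definitions used in the statement
-/

set_option autoImplicit false

namespace Pool.Agent.H21.FF

open NumberField Module Pool.Agent.W547.KB Pool.Agent.W495.TA Pool.Agent.W495.TC
  Pool.Agent.TH117.PO Pool.Agent.TH117.BL Pool.Agent.Q43.HN

/-- The function on the complex embeddings is odd for the complex conjugation. -/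
def OddFn {K : Type*} [Field K] (f : (K →+* ℂ) → ℚ) : Prop :=
  ∀ φ, f (ComplexEmbedding.conjugate φ) = - f φ

/-- The conjugate of a function under an automorphism of `ℂ`. -/
def transl {K : Type*} [Field K] (τ : ℂ ≃+* ℂ) (f : (K →+* ℂ) → ℚ) (φ : K →+* ℂ) : ℚ :=
  f ((τ : ℂ →+* ℂ).comp φ)

/-- The space is stable under the automorphisms of the field of complex numbers. -/
def StableSpace {K : Type*} [Field K] (W : Submodule ℚ ((K →+* ℂ) → ℚ)) : Prop :=
  ∀ τ : ℂ ≃+* ℂ, ∀ f ∈ W, transl τ f ∈ W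

/-- The space of the functions with the property `A` is irreducible: it is not zero, and each stable
space of functions with this property is zero or contains all of them. -/
def Irred {K : Type*} [Field K] (A : ((K →+* ℂ) → ℚ) → Prop) : Prop :=
  (∃ f, A f ∧ f ≠ 0) ∧ ∀ W : Submodule ℚ ((K →+* ℂ) → ℚ), StableSpace W → (∀ f ∈ W, A f) →
    (∀ f ∈ W, f = 0) ∨ ∀ f, A f → f ∈ W

/-- Every equivariant linear map from the space of the functions with the property `A` to the space of
the functions with the property `B` is zero. -/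
def NoEquivMaps {K K' : Type*} [Field K] [Field K'] (A : ((K →+* ℂ) → ℚ) → Prop)
    (B : ((K' →+* ℂ) → ℚ) → Prop) : Prop :=
  ∀ T : ((K →+* ℂ) → ℚ) →ₗ[ℚ] ((K' →+* ℂ) → ℚ), (∀ f, A f → B (T f)) →
    (∀ (τ : ℂ ≃+* ℂ) (f : (K →+* ℂ) → ℚ), A f → T (transl τ f) = transl τ (T f)) →
    ∀ f, A f → T f = 0

/-- The odd functions `f` on the complex embeddings of `K` such that, for each square root `t` of `-d`
in `K`, the sum of the numbers `f φ` over the embeddings `φ` for which the imaginary part of `φ t` is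
positive is zero. If `K` contains no square root of `-d` these are all odd functions. -/
def CoreFn (d : ℕ) {K : Type*} [Field K] [NumberField K] (f : (K →+* ℂ) → ℚ) : Prop :=
  OddFn f ∧ ∀ t : K, t ^ 2 = -(d : K) → ∑ φ : K →+* ℂ, (if 0 < (φ t).im then f φ else 0) = 0

/-- The odd functions with `f (φ ∘ σ) = f φ`. -/
def InvFn {K : Type*} [Field K] (σ : K ≃+* K) (f : (K →+* ℂ) → ℚ) : Prop :=
  OddFn f ∧ ∀ φ : K →+* ℂ, f (φ.comp (σ : K →+* K)) = f φ

/-- The odd functions with `f (φ ∘ σ) = - f φ`. -/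
def AntiFn {K : Type*} [Field K] (σ : K ≃+* K) (f : (K →+* ℂ) → ℚ) : Prop :=
  OddFn f ∧ ∀ φ : K →+* ℂ, f (φ.comp (σ : K →+* K)) = - f φ

/-- The automorphisms of `ℂ` act doubly transitively on the complex embeddings `x` of `K` for which the
imaginary part of `x t` is positive. -/
def IsTwoTransitive {K : Type*} [Field K] (t : K) : Prop :=
  ∀ x y x' y' : K →+* ℂ, x ≠ y → x' ≠ y' → 0 < (x t).im → 0 < (y t).im → 0 < (x' t).im →
    0 < (y' t).im → ∃ τ : ℂ ≃+* ℂ, (τ : ℂ →+* ℂ).comp x = x' ∧ (τ : ℂ →+* ℂ).comp y = y'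

/-- All powers of `π` generate the number field. -/
def Generates {K : Type*} [Field K] [NumberField K] (π : K) : Prop :=
  ∀ n : ℕ, 0 < n → IntermediateField.adjoin ℚ {π ^ n} = ⊤

/-- The family `e` of exponents gives a multiplicative relation between the conjugates of `π`. -/
def IsRelation {F : Type*} [Field F] [NumberField F] (q : ℕ) (π : F) (e : (F →+* ℂ) → ℕ) : Prop :=
  ∃ s : ℕ, 0 < s ∧ (∏ φ, φ π ^ e φ) ^ (2 * s) = (q : ℂ) ^ (s * ∑ φ, e φ)

/-- Any two relations are dependent modulo the relations `φ π * conj (φ π) = q`. -/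
def AtMostOneRelation {F : Type*} [Field F] [NumberField F] (q : ℕ) (π : F) : Prop :=
  ∀ e e' : (F →+* ℂ) → ℕ, IsRelation q π e → IsRelation q π e' →
    ∃ a b : ℤ, (a ≠ 0 ∨ b ≠ 0) ∧ ∀ φ, a * ((e φ : ℤ) - e (ComplexEmbedding.conjugate φ)) +
      b * ((e' φ : ℤ) - e' (ComplexEmbedding.conjugate φ)) = 0

/-- Every stable space of odd functions of codimension at least two consists of functions that
depend only on the restriction of the embedding to a proper subfield. -/
def SubfieldCondition (F : Type*) [Field F] [NumberField F] : Prop :=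
  ∀ W : Submodule ℚ ((F →+* ℂ) → ℚ), StableSpace W → (∀ f ∈ W, OddFn f) →
    2 * (finrank ℚ W + 2) ≤ finrank ℚ F →
    ∃ E : Subfield F, E ≠ ⊤ ∧ ∀ f ∈ W, ∀ φ ψ : F →+* ℂ, (∀ a ∈ E, φ a = ψ a) → f φ = f ψ

/-- The list of the decompositions of the space of odd functions of `F`. -/
def CMList (F : Type*) [Field F] [NumberField F] : Prop :=
  finrank ℚ F ≤ 4 ∨ Irred (OddFn (K := F)) ∨
    (∃ σ : F ≃+* F, (∀ x, σ (σ x) = x) ∧ Irred (InvFn σ) ∧ Irred (AntiFn σ) ∧
      NoEquivMaps (InvFn σ) (AntiFn σ)) ∨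
    (∃ d : ℕ, 0 < d ∧ (∃ t : F, t ^ 2 = -(d : F)) ∧ Irred (CoreFn d (K := F))) ∨
    (finrank ℚ F = 8 ∧ ∃ (t u : F) (d e : ℕ), 0 < d ∧ 0 < e ∧ t ^ 2 = -(d : F) ∧
      u ^ 2 = -(e : F) ∧ ∀ r : ℚ, t ≠ r * u)

/-- The prime `p` splits completely in the number field `F`: there are `[F : ℚ]` embeddings of `F` in
the field of `p`-adic numbers. -/
def SplitsCompletely (p : ℕ) [Fact p.Prime] (F : Type*) [Field F] [NumberField F] : Prop :=
  Nat.card (F →+* ℚ_[p]) = finrank ℚ F

/-- The numerical Hodge standard conjecture holds, for all polarizations and in all codimensions, for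
every abelian variety `Y` that is isogenous (over an algebraic closure) to a product of powers of the
factors of `Z` and of a supersingular abelian variety: if `z` is the class of a cycle of codimension
`r` on `Y`, `dim Y = 2 r + m`, that is not numerically equivalent to zero, and `z · L ^ (m + 1) = 0` for
the class `L` of the polarization, then `(-1) ^ r z · z · L ^ m > 0`. -/
def HodgeOnPowers {p : ℕ} [Fact p.Prime] {ν : PadicAlgCl p ≃+* ℂ} (Z : RedAV p ν) : Prop :=
  ∀ (Ω : Type) [Field Ω] [CharZero Ω] [IsAlgClosed Ω]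
    (C : (Y : RedAV p ν) → (κ : Type) → ((TM Ω Y) [⋀^κ]→ₗ[Ω] Ω) → Prop),
    IsCycleSystem Ω C → IsRosatiPositive Ω C → IsWeilPositive Ω C → AreTate Ω C →
    ∀ Y : RedAV p ν, IsPowersTimesSupersingular Z Y → ∀ α : Y.X.H1, IsPolar Y.X α →
    ∀ r m : ℕ, 2 * (2 * r + m) = finrank ℚ Y.X.H1 →
    ∀ z : (TM Ω Y) [⋀^Fin r × Fin 2]→ₗ[Ω] Ω, C Y _ z → ¬ IsNumTrivial Ω C z →
      IsPrim α m z → IsPosClass α m z

end Pool.Agent.H21.FF
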