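import Pool.Agent.H21.TC.GMain
import Pool.Agent.H21.FF.State

/-!
# Frobenius fields with at most one relation: definitions
-/

set_option autoImplicit false

namespace Pool.Agent.H21.FF

open NumberField Module Pool.Agent.H21.TC

/-- The odd functions `f` on the complex embeddings of `K` for which the sum of the numbers `f φ`, over
the embeddings `φ` such that the imaginary part of `φ t` is positive, is zero. -/
noncomputable def zeroSum {K : Type*} [Field K] [NumberField K] (t : K) :
    Submodule ℚ ((K →+* ℂ) → ℚ) where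
  carrier := {f | (∀ φ, f (ComplexEmbedding.conjugate φ) = - f φ) ∧
    ∑ φ : K →+* ℂ, (if 0 < (φ t).im then f φ else 0) = 0}
  zero_mem' := ⟨fun x => by simp, by simp⟩
  add_mem' := fun {f g} hf hg => ⟨fun x => by
      simp only [Pi.add_apply, hf.1 x, hg.1 x]
      ring, by
      have h1 : ∀ φ : K →+* ℂ, (if 0 < (φ t).im then (f + g) φ else 0) =
          (if 0 < (φ t).im then f φ else 0) + (if 0 < (φ t).im then g φ else 0) := by
        intro φ
        split_ifs
        · rfl
        · rw [add_zero]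
      rw [Finset.sum_congr rfl fun φ _ => h1 φ, Finset.sum_add_distrib, hf.2, hg.2, add_zero]⟩
  smul_mem' := fun c f hf => ⟨fun x => by
      simp only [Pi.smul_apply, hf.1 x, smul_eq_mul]
      ring, by
      have h1 : ∀ φ : K →+* ℂ, (if 0 < (φ t).im then (c • f) φ else 0) =
          c * (if 0 < (φ t).im then f φ else 0) := by
        intro φ
        split_ifs
        · rfl
        · rw [mul_zero]
      rw [Finset.sum_congr rfl fun φ _ => h1 φ, ← Finset.mul_sum, hf.2, mul_zero]⟩

/-- The odd functions `f` on the complex embeddings of `K` such that, for each square root `t` of `-d`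
in `K`, the sum of the numbers `f φ` over the embeddings `φ` for which the imaginary part of `φ t` is
positive is zero. If `K` contains no square root of `-d` these are all odd functions. -/
noncomputable def core (d : ℕ) (K : Type*) [Field K] [NumberField K] :
    Submodule ℚ ((K →+* ℂ) → ℚ) where
  carrier := {f | (∀ φ, f (ComplexEmbedding.conjugate φ) = - f φ) ∧
    ∀ t : K, t ^ 2 = -(d : K) → ∑ φ : K →+* ℂ, (if 0 < (φ t).im then f φ else 0) = 0}
  zero_mem' := ⟨(zeroSum (0 : K)).zero_mem.1, fun t _ => (zeroSum t).zero_mem.2⟩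
  add_mem' := fun {f g} hf hg =>
    ⟨((oddFunctions K).add_mem hf.1 hg.1 : f + g ∈ oddFunctions K), fun t ht =>
      ((zeroSum t).add_mem ⟨hf.1, hf.2 t ht⟩ ⟨hg.1, hg.2 t ht⟩).2⟩
  smul_mem' := fun c f hf =>
    ⟨((oddFunctions K).smul_mem c hf.1 : c • f ∈ oddFunctions K), fun t ht =>
      ((zeroSum t).smul_mem c ⟨hf.1, hf.2 t ht⟩).2⟩

/-- Every equivariant linear map from `A` to `B` is zero. -/
def NoMapsTo {K K' : Type*} [Field K] [Field K'] (A : Submodule ℚ ((K →+* ℂ) → ℚ))
    (B : Submodule ℚ ((K' →+* ℂ) → ℚ)) : Prop :=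
  ∀ T : ((K →+* ℂ) → ℚ) →ₗ[ℚ] ((K' →+* ℂ) → ℚ), (∀ f ∈ A, T f ∈ B) →
    (∀ τ : ℂ ≃+* ℂ, ∀ f ∈ A, T (fun φ => f ((τ : ℂ →+* ℂ).comp φ)) =
      fun φ => T f ((τ : ℂ →+* ℂ).comp φ)) → ∀ f ∈ A, T f = 0

/-- Every stable space of odd functions of codimension at least two consists of functions that
depend only on the restriction of the embedding to a proper subfield. -/
def CondThree (F : Type*) [Field F] : Prop :=
  ∀ W : Submodule ℚ ((F →+* ℂ) → ℚ), IsStable W → W ≤ oddFunctions F →
    finrank ℚ W + 2 ≤ finrank ℚ (oddFunctions F) → ∃ E : Subfield F, E ≠ ⊤ ∧ W ≤ oddOfSubfield E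

/-- The list of the decompositions. -/
def CondFour (F : Type*) [Field F] [NumberField F] [IsCMField F] : Prop :=
  finrank ℚ F ≤ 4 ∨ CondDec F ∨
    (∃ (t : F) (d : ℕ), 0 < d ∧ t ^ 2 = -(d : F) ∧ IsIrred (zeroSum t)) ∨
    (finrank ℚ F = 8 ∧ ∃ (t u : F) (d e : ℕ), 0 < d ∧ 0 < e ∧ t ^ 2 = -(d : F) ∧
      u ^ 2 = -(e : F) ∧ ∀ r : ℚ, t ≠ r * u)

end Pool.Agent.H21.FF
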