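import Pool.Agent.H21.FF.Emb

/-!
# Products of abelian varieties: all relations are norm relations
-/

set_option autoImplicit false
set_option linter.unusedSectionVars false

namespace Pool.Agent.H21.FF

open NumberField Pool.Agent.H204R3.CM Pool.Agent.W547.KB Pool.Agent.W547.LD Pool.Agent.W547.HR
  Pool.Agent.W495.TA Pool.Agent.W495.TB Pool.Agent.W495.TC Pool.Agent.TH117.F5
  Pool.Agent.TH117.PO Pool.Agent.TH117.BL Module Pool.Agent.Q43.HN
  Pool.Agent.H21.HS Pool.Agent.H21.TC Pool.Agent.H21.NP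

/-- The orthogonal projection to a stable space. -/
theorem exists_proj {X : Type*} [Fintype X] {P : Subgroup (Equiv.Perm X)}
    {W : Submodule ℚ (X → ℚ)} (hW : StableS P W) :
    ∃ Q : (X → ℚ) →ₗ[ℚ] (X → ℚ), (∀ h, Q h ∈ W) ∧ (∀ h ∈ W, Q h = h) ∧
      (∀ σ ∈ P, ∀ h, Q (fun x => h (σ x)) = fun x => Q h (σ x)) ∧
      ∀ h, ∀ f ∈ W, ∑ x, (h x - Q h x) * f x = 0 := by
  classical
  obtain ⟨k, hk, hk1, hks, -⟩ := exists_kernel W
  let Q : (X → ℚ) →ₗ[ℚ] (X → ℚ) := Matrix.toLin' (Matrix.of k)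
  have hQ : ∀ h x, Q h x = ∑ y, k x y * h y := by
    intro f x
    simp only [Q, Matrix.toLin'_apply]
    rfl
  refine ⟨Q, fun h => ?_, fun h hh => ?_, fun σ hσ h => ?_, fun h f hf => ?_⟩
  · have h2 : Q h = ∑ y, h y • k y := by
      funext x
      rw [hQ, Finset.sum_apply]
      refine Finset.sum_congr rfl fun y _ => ?_
      rw [Pi.smul_apply, smul_eq_mul, hks x y, mul_comm]
    rw [h2]
    exact Submodule.sum_mem _ fun y _ => Submodule.smul_mem _ _ (hk y)
  · funext x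
    rw [hQ]
    exact (hk1 h hh x).symm
  · funext x
    rw [hQ, hQ, ← Equiv.sum_comp σ (fun y => k (σ x) y * h y)]
    refine Finset.sum_congr rfl fun y _ => ?_
    rw [kernel_perm hW hk hk1 hσ]
  · simp only [sub_mul, Finset.sum_sub_distrib]
    rw [sub_eq_zero]
    have h1 : ∀ x, Q h x * f x = ∑ y, k x y * h y * f x := by
      intro x
      rw [hQ, Finset.sum_mul]
    rw [Finset.sum_congr rfl fun x _ => h1 x, Finset.sum_comm]
    refine Finset.sum_congr rfl fun y _ => ?_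
    rw [hk1 f hf y, Finset.mul_sum]
    refine Finset.sum_congr rfl fun x _ => ?_
    rw [hks x y]
    ring

variable {p : ℕ} [Fact p.Prime] {ν : PadicAlgCl p ≃+* ℂ}

/-- The restriction to one factor. -/
def resF (Z : RedAV p ν) (i : Z.X.I) :
    (Emb Z → ℚ) →ₗ[ℚ] (((Z.X.factor i).E →+* ℂ) → ℚ) :=
  LinearMap.funLeft ℚ ℚ (fun φ => (⟨i, φ⟩ : Emb Z))

theorem resF_apply (Z : RedAV p ν) (i : Z.X.I) (c : Emb Z → ℚ) (φ : (Z.X.factor i).E →+* ℂ) :
    resF Z i c φ = c ⟨i, φ⟩ := rfl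

theorem resF_odd (Z : RedAV p ν) (i : Z.X.I) {c : Emb Z → ℚ} (hc : ∀ u, c (ebar Z u) = - c u)
    (φ : (Z.X.factor i).E →+* ℂ) :
    resF Z i c (ComplexEmbedding.conjugate φ) = - resF Z i c φ := by
  have h1 := hc ⟨i, φ⟩
  rw [ebar_eq] at h1
  exact h1

section

variable {Z : RedAV p ν} {d : ℕ} (hd : 0 < d) (i : Z.X.I)

include hd

/-- The relations are orthogonal to the core of each factor. -/
theorem proj_zero (hirr : IsIrred (core d (Z.X.factor i).E)) (hcom : IsCommutative Z i)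
    (hno : ∀ k, k ≠ i → NoMapsTo (core d (Z.X.factor i).E) (core d (Z.X.factor k).E))
    {w : Emb Z → ℚ} (hwo : ∀ u, w (ebar Z u) = - w u)
    (hwc : ∀ u v, (∀ τ : ℂ ≃+* ℂ, w (ePerm Z τ u) = w (ePerm Z τ v)) →
      ∃ s, 0 < s ∧ eig Z u ^ s = eig Z v ^ s)
    {c₀ : Emb Z → ℚ} (hc₀ : c₀ ∈ RelS (PE Z) (ebar Z) w) {f₀ : ((Z.X.factor i).E →+* ℂ) → ℚ}
    (hf₀ : f₀ ∈ core d (Z.X.factor i).E) : ∑ φ, resF Z i c₀ φ * f₀ φ = 0 := by
  classical
  by_contra hne
  have hne' : Nonempty Z.X.I := ⟨i⟩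
  obtain ⟨L, _, _, _, _, j, hj⟩ := exists_cm Z.X
  have hcomm : ∀ σ ∈ PE Z, ∀ u, σ (ebar Z u) = ebar Z (σ u) := by
    rintro _ ⟨τ, rfl⟩ u
    rfl
  have hCs : StableS (PE Z) (RelS (PE Z) (ebar Z) w) := relS_stable hcomm
  choose Q hQ1 hQ2 hQ3 hQ4 using fun k : Z.X.I =>
    exists_proj (core_stable (F := (Z.X.factor k).E) hd)
  -- the projection to the core
  let T : (Emb Z → ℚ) →ₗ[ℚ] (((Z.X.factor i).E →+* ℂ) → ℚ) := (Q i).comp (resF Z i)
  have hTe : ∀ (τ : ℂ ≃+* ℂ) (c : Emb Z → ℚ), T (fun u => c (ePerm Z τ u)) =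
      fun φ => T c ((τ : ℂ →+* ℂ).comp φ) := by
    intro τ c
    exact hQ3 i _ (permOf_mem τ) (resF Z i c)
  have hT0 : T c₀ ≠ 0 := by
    intro h0
    apply hne
    have h1 := hQ4 i (resF Z i c₀) f₀ hf₀
    have h2 : Q i (resF Z i c₀) = 0 := h0
    rw [h2] at h1
    simpa using h1
  -- a complement of the kernel
  let K : Submodule ℚ (Emb Z → ℚ) := RelS (PE Z) (ebar Z) w ⊓ LinearMap.ker T
  have hK : ∀ c, c ∈ K ↔ c ∈ RelS (PE Z) (ebar Z) w ∧ T c = 0 := fun c => Iff.rfl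
  have hKs : StableS (PE Z) K := by
    rintro _ ⟨τ, rfl⟩ c hc
    rw [hK] at hc ⊢
    refine ⟨hCs _ (ePerm_mem Z τ) c hc.1, ?_⟩
    rw [hTe, hc.2]
    rfl
  let S : Submodule ℚ (Emb Z → ℚ) :=
    { carrier := {c | c ∈ RelS (PE Z) (ebar Z) w ∧ ∀ k ∈ K, ∑ x, c x * k x = 0}
      zero_mem' := ⟨Submodule.zero_mem _, fun k _ => by simp⟩
      add_mem' := fun {f g} hf hg => ⟨Submodule.add_mem _ hf.1 hg.1, fun k hk => by
        simp only [Pi.add_apply, add_mul, Finset.sum_add_distrib, hf.2 k hk, hg.2 k hk, add_zero]⟩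
      smul_mem' := fun a f hf => ⟨Submodule.smul_mem _ a hf.1, fun k hk => by
        simp only [Pi.smul_apply, smul_eq_mul, mul_assoc, ← Finset.mul_sum, hf.2 k hk, mul_zero]⟩ }
  have hS : ∀ c, c ∈ S ↔ c ∈ RelS (PE Z) (ebar Z) w ∧ ∀ k ∈ K, ∑ x, c x * k x = 0 :=
    fun c => Iff.rfl
  have hSs : StableS (PE Z) S := by
    intro σ hσ c hc
    rw [hS] at hc ⊢
    refine ⟨hCs σ hσ c hc.1, fun k hk => ?_⟩
    rw [sum_perm σ c k]
    exact hc.2 _ (hKs σ⁻¹ (inv_mem hσ) k hk)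
  have hinj : ∀ c ∈ S, T c = 0 → c = 0 := by
    intro c hc h0
    rw [hS] at hc
    exact sum_sq_pos (hc.2 c ((hK c).2 ⟨hc.1, h0⟩))
  obtain ⟨s₀, hs₀, hTs₀⟩ : ∃ s₀ ∈ S, T s₀ ≠ 0 := by
    obtain ⟨k, hk, ho⟩ := exists_decomp K c₀
    refine ⟨c₀ - k, (hS _).2 ⟨Submodule.sub_mem _ hc₀ ((hK k).1 hk).1, fun k' hk' => ho k' hk'⟩, ?_⟩
    rw [map_sub, ((hK k).1 hk).2, sub_zero]
    exact hT0
  -- the image is the core
  have himg : S.map T = core d (Z.X.factor i).E := by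
    rcases hirr.2 (S.map T) (by
      rintro τ _ ⟨c, hc, rfl⟩
      refine ⟨fun u => c (ePerm Z τ u), hSs _ (ePerm_mem Z τ) c hc, ?_⟩
      exact hTe τ c) (by
      rintro _ ⟨c, hc, rfl⟩
      exact hQ1 i _) with h1 | h1
    · exfalso
      apply hTs₀
      have h2 : T s₀ ∈ S.map T := ⟨s₀, hs₀, rfl⟩
      rw [h1, Submodule.mem_bot] at h2
      exact h2
    · exact h1
  have hsurj : ∀ f ∈ core d (Z.X.factor i).E, ∃ s ∈ S, T s = f := by
    intro f hf
    rw [← himg] at hf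
    exact hf
  choose! l hl1 hl2 using hsurj
  have huniq : ∀ s ∈ S, ∀ s' ∈ S, T s = T s' → s = s' := by
    intro s hs s' hs' h
    have h1 := hinj (s - s') (Submodule.sub_mem _ hs hs') (by rw [map_sub, h, sub_self])
    exact sub_eq_zero.1 h1
  -- maps from the core
  have hext : ∀ (k : Z.X.I) (R : (Emb Z → ℚ) →ₗ[ℚ] (((Z.X.factor k).E →+* ℂ) → ℚ)),
      (∀ (τ : ℂ ≃+* ℂ) (c : Emb Z → ℚ), R (fun u => c (ePerm Z τ u)) =
        fun φ => R c ((τ : ℂ →+* ℂ).comp φ)) →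
      ∃ T' : (((Z.X.factor i).E →+* ℂ) → ℚ) →ₗ[ℚ] (((Z.X.factor k).E →+* ℂ) → ℚ),
        (∀ s ∈ S, T' (T s) = R s) ∧ ∀ τ : ℂ ≃+* ℂ, ∀ f ∈ core d (Z.X.factor i).E,
          T' (fun φ => f ((τ : ℂ →+* ℂ).comp φ)) = fun φ => T' f ((τ : ℂ →+* ℂ).comp φ) := by
    intro k R hR
    let T₀ : core d (Z.X.factor i).E →ₗ[ℚ] (((Z.X.factor k).E →+* ℂ) → ℚ) :=
      { toFun := fun f => R (l f)
        map_add' := by
          rintro ⟨f, hf⟩ ⟨g, hg⟩
          rw [← map_add]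
          congr 1
          refine huniq _ (hl1 _ (Submodule.add_mem _ hf hg)) _
            (Submodule.add_mem _ (hl1 f hf) (hl1 g hg)) ?_
          rw [map_add, hl2 f hf, hl2 g hg]
          exact hl2 _ (Submodule.add_mem _ hf hg)
        map_smul' := by
          rintro a ⟨f, hf⟩
          rw [RingHom.id_apply, ← map_smul]
          congr 1
          refine huniq _ (hl1 _ (Submodule.smul_mem _ a hf)) _
            (Submodule.smul_mem _ a (hl1 f hf)) ?_
          rw [map_smul, hl2 f hf]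
          exact hl2 _ (Submodule.smul_mem _ a hf) }
    obtain ⟨T', hT'⟩ := LinearMap.exists_extend T₀
    have h1 : ∀ f (_ : f ∈ core d (Z.X.factor i).E), T' f = R (l f) := fun f hf =>
      LinearMap.congr_fun hT' ⟨f, hf⟩
    have h2 : ∀ s ∈ S, T' (T s) = R s := by
      intro s hs
      have h3 : T s ∈ core d (Z.X.factor i).E := hQ1 i _
      rw [h1 _ h3]
      congr 1
      exact huniq _ (hl1 _ h3) _ hs (hl2 _ h3)
    refine ⟨T', h2, fun τ f hf => ?_⟩
    have h4 := hl2 f hf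
    have h5 := h2 _ (hSs _ (ePerm_mem Z τ) _ (hl1 f hf))
    rw [hTe, hR, h4] at h5
    rw [h5, h1 f hf]
  -- the components of the elements of `S`
  have hnormal : ∀ (k : Z.X.I), ∀ s ∈ S, resF Z k s = Q k (resF Z k s) := by
    intro k s hs
    obtain ⟨T', hT', hTe'⟩ := hext k (resF Z k - (Q k).comp (resF Z k)) (by
      intro τ c
      funext φ
      have h1 := congrFun (hQ3 k _ (permOf_mem τ) (resF Z k c)) φ
      change resF Z k c ((τ : ℂ →+* ℂ).comp φ) - Q k (fun φ => resF Z k c (permOf _ τ φ)) φ = _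
      rw [h1]
      rfl)
    have hperp : ∀ s ∈ S, resF Z k s - Q k (resF Z k s) ∈
        perpS ComplexEmbedding.conjugate (core d (Z.X.factor k).E) := by
      intro s hs
      refine ⟨fun φ => ?_, fun f hf => hQ4 k (resF Z k s) f hf⟩
      have h1 := resF_odd Z k (((hS s).1 hs).1).1 φ
      have h2 : Q k (resF Z k s) (ComplexEmbedding.conjugate φ) = - Q k (resF Z k s) φ :=
        core_le d (hQ1 k _) φ
      rw [Pi.sub_apply, Pi.sub_apply, h1, h2]
      ring
    have hTf : ∀ f ∈ core d (Z.X.factor i).E, T' f ∈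
        perpS ComplexEmbedding.conjugate (core d (Z.X.factor k).E) := by
      intro f hf
      have h1 := hT' _ (hl1 f hf)
      rw [hl2 f hf] at h1
      rw [h1]
      exact hperp _ (hl1 f hf)
    have hzero : ∀ f ∈ core d (Z.X.factor i).E, T' f = 0 := by
      by_cases hex : ∃ t : (Z.X.factor k).E, t ^ 2 = -(d : (Z.X.factor k).E)
      · obtain ⟨t, ht⟩ := hex
        exact no_map_to_sign j (hj i) (hj k) hd ht hirr T'
          (fun f hf => (perp_core hd (hTf f hf)).1 t ht) hTe'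
      · intro f hf
        exact (perp_core hd (hTf f hf)).2 hex
    have h1 := hT' s hs
    have h0 := hzero (T s) (hQ1 i _)
    rw [h0] at h1
    exact (sub_eq_zero.1 h1.symm)
  have hother : ∀ (k : Z.X.I), k ≠ i → ∀ s ∈ S, resF Z k s = 0 := by
    intro k hk s hs
    obtain ⟨T', hT', hTe'⟩ := hext k ((Q k).comp (resF Z k)) (by
      intro τ c
      exact hQ3 k _ (permOf_mem τ) (resF Z k c))
    have h1 := hno k hk T' (fun f hf => by
      have h1 := hT' _ (hl1 f hf)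
      rw [hl2 f hf] at h1
      rw [h1]
      exact hQ1 k _) hTe' (T s) (hQ1 i _)
    rw [hT' s hs] at h1
    rw [hnormal k s hs]
    exact h1
  -- the slopes of the factor
  have hslope : ∀ τ : ℂ ≃+* ℂ, (fun φ : (Z.X.factor i).E →+* ℂ => w ⟨i, (τ : ℂ →+* ℂ).comp φ⟩) ∈
      perpS ComplexEmbedding.conjugate (core d (Z.X.factor i).E) := by
    intro τ
    refine ⟨fun φ => ?_, fun f hf => ?_⟩
    · have h1 := hwo (ePerm Z τ ⟨i, φ⟩)
      rw [← ePerm_ebar, ebar_eq] at h1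
      exact h1
    · have h1 := (((hS _).1 (hl1 f hf)).1).2 _ (ePerm_mem Z τ)
      rw [Fintype.sum_sigma, Finset.sum_eq_single i] at h1
      · rw [← h1]
        refine Finset.sum_congr rfl fun φ _ => ?_
        have h2 : l f ⟨i, φ⟩ = f φ := by
          have h3 := hnormal i _ (hl1 f hf)
          have h4 : T (l f) = f := hl2 f hf
          have h5 : Q i (resF Z i (l f)) = f := h4
          rw [h5] at h3
          exact congrFun h3 φ
        rw [h2, mul_comm]
        rfl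
      · intro k _ hk
        refine Finset.sum_eq_zero fun φ _ => ?_
        have h2 : l f ⟨k, φ⟩ = 0 := congrFun (hother k hk _ (hl1 f hf)) φ
        rw [h2, zero_mul]
      · intro h2
        exact absurd (Finset.mem_univ i) h2
  obtain ⟨x, y, hxy, hco⟩ := coinc_perp_core (F := (Z.X.factor i).E) hd hirr.1
  obtain ⟨s, hs, h1⟩ := hwc ⟨i, x⟩ ⟨i, y⟩ fun τ => hco _ (hslope τ)
  exact hxy (hcom x y s hs h1)

end

/-- The relations of a product are norm relations. -/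
theorem controlled {Z : RedAV p ν} {d : ℕ} (hd : 0 < d)
    (h1 : ∀ i, core d (Z.X.factor i).E = ⊥ ∨
      (IsIrred (core d (Z.X.factor i).E) ∧ IsCommutative Z i))
    (h2 : ∀ i k, i ≠ k → NoMapsTo (core d (Z.X.factor i).E) (core d (Z.X.factor k).E)) (r : ℕ) :
    IsControlled Z r := by
  classical
  intro e he _
  right
  by_cases hI : Nonempty Z.X.I
  swap
  · have hem : IsEmpty Z.X.I := not_nonempty_iff.1 hI
    have hem' : IsEmpty (Emb Z) := ⟨fun u => hem.false u.1⟩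
    refine ⟨fun _ => 0, ⟨1, fun _ => 0, 0, one_pos, fun i h => absurd rfl h, fun w => ⟨fun _ => rfl,
      fun _ => rfl⟩⟩, ?_⟩
    have h3 : (fun w : Emb Z => (e w : ℤ) - ((0 : ℕ) : ℤ)) = 0 := Subsingleton.elim _ _
    rw [h3]
    exact AddSubgroup.zero_mem _
  obtain ⟨w, hwo, hwr, hwc⟩ := exists_slopes Z
  -- the odd part
  let c : Emb Z → ℚ := fun u => (e u : ℚ) - e (ebar Z u)
  have hco : ∀ u, c (ebar Z u) = - c u := by
    intro u
    simp only [c, ebar_ebar]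
    ring
  have hc : c ∈ RelS (PE Z) (ebar Z) w := by
    refine ⟨hco, ?_⟩
    rintro _ ⟨τ, rfl⟩
    have h3 := hwr e he τ
    have h4 : ∑ u, (e (ebar Z u) : ℚ) * w (ePerm Z τ u) = - ∑ u, (e u : ℚ) * w (ePerm Z τ u) := by
      rw [← Finset.sum_neg_distrib]
      refine Finset.sum_nbij' (ebar Z) (ebar Z) (fun _ _ => Finset.mem_univ _)
        (fun _ _ => Finset.mem_univ _) (fun y _ => ebar_ebar Z y) (fun y _ => ebar_ebar Z y) ?_
      intro u _
      rw [ePerm_ebar, hwo]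
      ring
    simp only [c, sub_mul]
    rw [Finset.sum_sub_distrib, h4, h3, neg_zero, sub_zero]
  have hperp : ∀ i, resF Z i c ∈ perpS ComplexEmbedding.conjugate (core d (Z.X.factor i).E) := by
    intro i
    refine ⟨resF_odd Z i hco, fun f hf => ?_⟩
    rcases h1 i with h3 | ⟨h3, h4⟩
    · rw [h3, Submodule.mem_bot] at hf
      rw [hf]
      simp
    · exact proj_zero hd i h3 h4 (fun k hk => h2 i k hk.symm) hwo hwc hc hf
  -- the exponents
  have hex : ∀ i, ∃ (m : ℕ) (θ : (Z.X.factor i).E), (m ≠ 0 → θ ^ 2 = -((d : ℕ) : (Z.X.factor i).E)) ∧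
      ∀ φ : (Z.X.factor i).E →+* ℂ, (e ⟨i, φ⟩ : ℤ) - e (ebar Z ⟨i, φ⟩) =
        if 0 < (φ θ).im then (m : ℤ) else -(m : ℤ) := by
    intro i
    by_cases hex : ∃ t : (Z.X.factor i).E, t ^ 2 = -(d : (Z.X.factor i).E)
    · obtain ⟨t, ht⟩ := hex
      obtain ⟨a, ha⟩ := (perp_core hd (hperp i)).1 t ht
      have hval : ∀ φ : (Z.X.factor i).E →+* ℂ, (((e ⟨i, φ⟩ : ℤ) - e (ebar Z ⟨i, φ⟩) : ℤ) : ℚ) =
          a * signOf t φ := by
        intro φ
        have h3 := congrFun ha φ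
        push_cast
        exact h3
      obtain ⟨φ₀⟩ : Nonempty ((Z.X.factor i).E →+* ℂ) := inferInstance
      obtain ⟨k, hk⟩ : ∃ k : ℤ, a = k := by
        rcases signOf_val t φ₀ with h3 | h3
        · refine ⟨(e ⟨i, φ₀⟩ : ℤ) - e (ebar Z ⟨i, φ₀⟩), ?_⟩
          rw [hval, h3, mul_one]
        · refine ⟨-((e ⟨i, φ₀⟩ : ℤ) - e (ebar Z ⟨i, φ₀⟩)), ?_⟩
          rw [Int.cast_neg, hval, h3]
          ring
      have him : ∀ φ : (Z.X.factor i).E →+* ℂ, (φ t).im ≠ 0 := fun φ => (sq_neg hd (emb_sq ht φ)).2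
      rcases le_or_gt 0 k with h0 | h0
      · refine ⟨k.natAbs, t, fun _ => ht, fun φ => ?_⟩
        have h3 : ((k.natAbs : ℕ) : ℤ) = k := Int.natAbs_of_nonneg h0
        rw [h3]
        have h4 := hval φ
        rw [hk] at h4
        unfold signOf at h4
        split_ifs at h4 ⊢ with h5
        · rw [mul_one] at h4
          exact_mod_cast h4
        · rw [mul_neg, mul_one] at h4
          exact_mod_cast h4
      · refine ⟨k.natAbs, -t, fun _ => by rw [neg_sq]; exact ht, fun φ => ?_⟩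
        have h3 : ((k.natAbs : ℕ) : ℤ) = -k := by omega
        rw [h3, neg_neg, map_neg, Complex.neg_im]
        have h4 := hval φ
        rw [hk] at h4
        unfold signOf at h4
        rcases lt_or_gt_of_ne (him φ) with h5 | h5
        · rw [if_neg (by linarith), mul_neg, mul_one] at h4
          rw [if_pos (by linarith)]
          exact_mod_cast h4
        · rw [if_pos h5, mul_one] at h4
          rw [if_neg (by linarith)]
          exact_mod_cast h4
    · refine ⟨0, 0, fun h => absurd rfl h, fun φ => ?_⟩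
      have h3 := congrFun ((perp_core hd (hperp i)).2 hex) φ
      have h4 : (((e ⟨i, φ⟩ : ℤ) - e (ebar Z ⟨i, φ⟩) : ℤ) : ℚ) = 0 := by
        push_cast
        exact h3
      have h5 : (e ⟨i, φ⟩ : ℤ) - e (ebar Z ⟨i, φ⟩) = 0 := by exact_mod_cast h4
      rw [h5]
      simp
  choose m θ hθ hval using hex
  let n : Emb Z → ℕ := fun u => if 0 < (u.2 (θ u.1)).im then m u.1 else 0
  refine ⟨n, ⟨d, m, θ, hd, hθ, fun u => ⟨fun h => if_pos h, fun h => if_neg h⟩⟩,
    twoGroup_le Z (even_mem_two Z _ fun u => ?_)⟩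
  obtain ⟨i, φ⟩ := u
  have h3 := hval i φ
  have hb : ebar Z ⟨i, φ⟩ = ⟨i, ComplexEmbedding.conjugate φ⟩ := ebar_eq Z ⟨i, φ⟩
  have hcj : ((ComplexEmbedding.conjugate φ) (θ i)).im = - (φ (θ i)).im := rfl
  have hn1 : n ⟨i, φ⟩ = if 0 < (φ (θ i)).im then m i else 0 := rfl
  have hn2 : n (ebar Z ⟨i, φ⟩) = if 0 < - (φ (θ i)).im then m i else 0 := by
    rw [hb, ← hcj]
  rw [hn1, hn2]
  by_cases hm : m i = 0
  · rw [hm] at h3 ⊢
    simp only [Nat.cast_zero, neg_zero, ite_self] at h3 ⊢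
    linarith
  · have him : (φ (θ i)).im ≠ 0 := (sq_neg hd (emb_sq (hθ i hm) φ)).2
    rcases lt_or_gt_of_ne him with h5 | h5
    · rw [if_neg (by linarith)] at h3
      rw [if_pos (by linarith : 0 < - (φ (θ i)).im), if_neg (by linarith : ¬ 0 < (φ (θ i)).im)]
      push_cast
      linarith
    · rw [if_pos h5] at h3
      rw [if_neg (by linarith : ¬ 0 < - (φ (θ i)).im), if_pos h5]
      push_cast
      linarith

end Pool.Agent.H21.FF
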