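import Pool.Agent.H21.FF.Weil
import Pool.Agent.H21.FF.Prod

/-!
# One factor with at most one relation
-/

set_option autoImplicit false
set_option linter.unusedSectionVars false

namespace Pool.Agent.H21.FF

open NumberField Pool.Agent.H204R3.CM Pool.Agent.W547.KB Pool.Agent.W495.TA Pool.Agent.TH117.BL
  Module Pool.Agent.Q43.HN Pool.Agent.H21.HS Pool.Agent.H21.TC Pool.Agent.H21.NP

variable {p : ℕ} [Fact p.Prime] {ν : PadicAlgCl p ≃+* ℂ}

theorem dependent_of_atMostOne {Z : RedAV p ν} (i : Z.X.I) (hi : ∀ k, k = i)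
    (h : AtMostOneRelation (p ^ Z.a) (Z.π i)) (r : ℕ) : IsDependent Z r := by
  classical
  rintro n n' hn hn' _ _
  let E : ((Z.X.factor i).E →+* ℂ) ≃ Emb Z :=
    { toFun := fun φ => ⟨i, φ⟩
      invFun := fun u => (hi u.1) ▸ u.2
      left_inv := fun φ => rfl
      right_inv := by
        rintro ⟨k, φ⟩
        obtain rfl := hi k
        rfl }
  have hE : ∀ φ, E φ = ⟨i, φ⟩ := fun φ => rfl
  have hrel : ∀ n : Emb Z → ℕ, IsRel Z n → IsRelation (p ^ Z.a) (Z.π i) (fun φ => n (E φ)) := by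
    rintro n ⟨s, hs, h1⟩
    refine ⟨s, hs, ?_⟩
    rw [← Equiv.prod_comp E, ← Equiv.sum_comp E] at h1
    push_cast
    exact h1
  obtain ⟨a, b, hab, hz⟩ := h _ _ (hrel n hn) (hrel n' hn')
  refine ⟨a, b, hab, even_mem_two Z _ fun u => ?_⟩
  obtain ⟨φ, rfl⟩ := E.surjective u
  have h1 := hz φ
  have h2 : ebar Z (E φ) = E (ComplexEmbedding.conjugate φ) := by
    rw [ebar_eq]
    rfl
  rw [h2]
  linarith

theorem isWeil (Z : RedAV p ν) (i : Z.X.I) : IsWeilNumber (p ^ Z.a) (Z.π i) := by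
  refine ⟨(Z.frob i).integral, fun φ => ?_⟩
  have h1 := (Z.frob i).weil φ
  push_cast
  exact h1

theorem dependent_of_condFour {Z : RedAV p ν} (i : Z.X.I) (hi : ∀ k, k = i)
    (hcom : IsCommutative Z i) (h : CondFour (Z.X.factor i).E) (r : ℕ) : IsDependent Z r :=
  dependent_of_atMostOne i hi (atMostOne_of_propC (propC_of_condFour h) p Z.a (Z.π i) (isWeil Z i)
    fun x y s hs hxy => hcom x y s hs hxy) r

end Pool.Agent.H21.FF
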