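import Pool.Agent.H21.FF.Core
import Pool.Agent.H21.HS.Dep
import Pool.Graph.R_pool_sql_team_seeded_3997aac3.Q43.HN.Corank

/-!
# The automorphisms of the complex numbers and the slopes of several factors
-/

set_option autoImplicit false
set_option linter.unusedSectionVars false

namespace Pool.Agent.H21.FF

open NumberField Pool.Agent.H204R3.CM Pool.Agent.W547.KB Pool.Agent.W547.LD Pool.Agent.W547.HR
  Pool.Agent.W495.TA Pool.Agent.W495.TB Pool.Agent.W495.TC Pool.Agent.TH117.F5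
  Pool.Agent.TH117.PO Pool.Agent.TH117.BL Module Pool.Agent.Q43.HN
  Pool.Agent.H21.HS Pool.Agent.H21.TC Pool.Agent.H21.NP

variable {p : ℕ} [Fact p.Prime] {ν : PadicAlgCl p ≃+* ℂ}

/-- The permutation of the pairs of a factor and an embedding given by an automorphism. -/
def ePerm (Z : RedAV p ν) (τ : ℂ ≃+* ℂ) : Equiv.Perm (Emb Z) where
  toFun u := ⟨u.1, (τ : ℂ →+* ℂ).comp u.2⟩
  invFun u := ⟨u.1, (τ.symm : ℂ →+* ℂ).comp u.2⟩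
  left_inv := by
    rintro ⟨i, φ⟩
    have h1 : (τ.symm : ℂ →+* ℂ).comp ((τ : ℂ →+* ℂ).comp φ) = φ :=
      RingHom.ext fun x => τ.symm_apply_apply _
    change (⟨i, (τ.symm : ℂ →+* ℂ).comp ((τ : ℂ →+* ℂ).comp φ)⟩ : Emb Z) = ⟨i, φ⟩
    rw [h1]
  right_inv := by
    rintro ⟨i, φ⟩
    have h1 : (τ : ℂ →+* ℂ).comp ((τ.symm : ℂ →+* ℂ).comp φ) = φ :=
      RingHom.ext fun x => τ.apply_symm_apply _
    change (⟨i, (τ : ℂ →+* ℂ).comp ((τ.symm : ℂ →+* ℂ).comp φ)⟩ : Emb Z) = ⟨i, φ⟩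
    rw [h1]

/-- The group of these permutations. -/
def PE (Z : RedAV p ν) : Subgroup (Equiv.Perm (Emb Z)) where
  carrier := {σ | ∃ τ : ℂ ≃+* ℂ, σ = ePerm Z τ}
  mul_mem' := by
    rintro _ _ ⟨σ, rfl⟩ ⟨τ, rfl⟩
    exact ⟨τ.trans σ, rfl⟩
  one_mem' := ⟨RingEquiv.refl ℂ, rfl⟩
  inv_mem' := by
    rintro _ ⟨σ, rfl⟩
    exact ⟨σ.symm, rfl⟩

theorem ePerm_mem (Z : RedAV p ν) (τ : ℂ ≃+* ℂ) : ePerm Z τ ∈ PE Z := ⟨τ, rfl⟩

theorem ebar_eq (Z : RedAV p ν) (u : Emb Z) : ebar Z u = ⟨u.1, ComplexEmbedding.conjugate u.2⟩ := by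
  obtain ⟨i, φ⟩ := u
  change (⟨i, cbar φ⟩ : Emb Z) = ⟨i, ComplexEmbedding.conjugate φ⟩
  have h1 : cbar φ = ComplexEmbedding.conjugate φ :=
    RingHom.ext fun a => IsCMField.complexEmbedding_complexConj (K := (Z.X.factor i).E) φ a
  rw [h1]

theorem ePerm_ebar (Z : RedAV p ν) (τ : ℂ ≃+* ℂ) (u : Emb Z) :
    ePerm Z τ (ebar Z u) = ebar Z (ePerm Z τ u) := rfl

/-- The slopes. -/
theorem exists_slopes (Z : RedAV p ν) [Nonempty Z.X.I] : ∃ w : Emb Z → ℚ,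
    (∀ u, w (ebar Z u) = - w u) ∧
    (∀ e : Emb Z → ℕ, IsRel Z e → ∀ τ : ℂ ≃+* ℂ, ∑ u, (e u : ℚ) * w (ePerm Z τ u) = 0) ∧
    (∀ u v, (∀ τ : ℂ ≃+* ℂ, w (ePerm Z τ u) = w (ePerm Z τ v)) →
      ∃ s, 0 < s ∧ eig Z u ^ s = eig Z v ^ s) := by
  classical
  obtain ⟨L, _, _, _, _, j, hj⟩ := exists_cm Z.X
  have hZj : Big Z.X j := hj
  have hfin : Finite (Wt Z.X L) := Pool.Agent.W67.TA.finite_wt j hZj
  let _ : Fintype (Wt Z.X L) := Fintype.ofFinite _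
  have hbij := toEmb_bijective (j := j) hZj
  let E : Wt Z.X L ≃ Emb Z := Equiv.ofBijective _ hbij
  have hE : ∀ l, E l = toEmb j Z l := fun l => rfl
  have hEcw : ∀ l, E (cw Z l) = ebar Z (E l) := by
    rintro ⟨i, φ⟩
    rw [ebar_eq]
    change (⟨i, j.comp (cc L • φ)⟩ : Emb Z) = ⟨i, ComplexEmbedding.conjugate (j.comp φ)⟩
    have h1 : j.comp (cc L • φ) = ComplexEmbedding.conjugate (j.comp φ) :=
      RingHom.ext fun a => emb_cc j (φ a)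
    rw [h1]
  have hEs : ∀ (τ : ℂ ≃+* ℂ) (g : L ≃ₐ[ℚ] L), (∀ x, τ (j x) = j (g x)) → ∀ l : Wt Z.X L,
      ePerm Z τ (E l) = E (g • l) := by
    rintro τ g hg ⟨i, φ⟩
    change (⟨i, (τ : ℂ →+* ℂ).comp (j.comp φ)⟩ : Emb Z) = ⟨i, j.comp (g • φ)⟩
    have h1 : (τ : ℂ →+* ℂ).comp (j.comp φ) = j.comp (g • φ) :=
      RingHom.ext fun a => hg (φ a)
    rw [h1]
  obtain ⟨w, hw⟩ : ∃ w : Emb Z → ℚ, ∀ l, w (E l) = ((tw p ν j Z.X l 1 : ℤ) : ℚ) :=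
    ⟨fun u => ((tw p ν j Z.X (E.symm u) 1 : ℤ) : ℚ), fun l =>
      congrArg (fun l' => ((tw p ν j Z.X l' 1 : ℤ) : ℚ)) (E.symm_apply_apply l)⟩
  have hwg : ∀ (g : L ≃ₐ[ℚ] L) (l : Wt Z.X L), w (E (g • l)) = ((tw p ν j Z.X l g : ℤ) : ℚ) := by
    intro g l
    rw [hw, tw_smul]
    have h1 : Rt g (tw p ν j Z.X l) 1 = tw p ν j Z.X l g := by
      unfold Rt
      rw [one_mul]
    rw [h1]
  refine ⟨w, fun u => ?_, fun e he τ => ?_, fun u v huv => ?_⟩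
  · obtain ⟨l, rfl⟩ := E.surjective u
    rw [← hEcw, hw, hw, tw_cw, Pi.neg_apply, Int.cast_neg]
  · obtain ⟨g, hg⟩ := Pool.Agent.H977R3.CM.exists_gal j τ
    have h1 := (isRel_iff hZj e).1 he g
    have h2 : ∑ u, (e u : ℚ) * w (ePerm Z τ u) =
        ((∑ l : Wt Z.X L, (e (toEmb j Z l) : ℤ) * tw p ν j Z.X l g : ℤ) : ℚ) := by
      push_cast
      rw [← Equiv.sum_comp E]
      refine Finset.sum_congr rfl fun l _ => ?_
      rw [hEs τ g hg, hwg, hE]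
    rw [h2, h1, Int.cast_zero]
  · obtain ⟨l, rfl⟩ := E.surjective u
    obtain ⟨l', rfl⟩ := E.surjective v
    refine pow_eq_of_tw hZj (l := l) (l' := l') ?_
    funext g
    obtain ⟨τ, hτ⟩ := Pool.Agent.H977R3.CM.exists_aut j (g : L ≃+* L)
    have h1 := huv τ
    rw [hEs τ g hτ, hEs τ g hτ, hwg, hwg] at h1
    exact_mod_cast h1

end Pool.Agent.H21.FF
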