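import Pool.Agent.H21.FF.Dep
import Pool.Agent.H21.FF.Crit
import Pool.Graph.R_pool_sql_team_seeded_3997aac3.Q43.HN.Main

/-!
# Frobenius fields and positivity
-/

set_option autoImplicit false
set_option linter.unusedSectionVars false

namespace Pool.Agent.H21.FF

open NumberField Module Pool.Agent.W547.KB Pool.Agent.W495.TA Pool.Agent.W495.TC
  Pool.Agent.TH117.PO Pool.Agent.TH117.BL Pool.Agent.Q43.HN Pool.Agent.H21.NP Pool.Agent.H21.HS
  Pool.Agent.H21.TC

/-- The list of the decompositions of the space of odd functions of `F`. -/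
def CondList (F : Type*) [Field F] [NumberField F] [IsCMField F] : Prop :=
  finrank ℚ F ≤ 4 ∨ IsIrred (oddFunctions F) ∨
    (∃ σ : F ≃+* F, (∀ x, σ (σ x) = x) ∧ IsIrred (oddInvariants σ) ∧
      IsIrred (oddInvariants (σ.trans (conjRing F))) ∧
      NoMaps (oddInvariants σ) (oddInvariants (σ.trans (conjRing F)))) ∨
    (∃ d : ℕ, 0 < d ∧ (∃ t : F, t ^ 2 = -(d : F)) ∧ IsIrred (core d F)) ∨
    (finrank ℚ F = 8 ∧ ∃ (t u : F) (d e : ℕ), 0 < d ∧ 0 < e ∧ t ^ 2 = -(d : F) ∧
      u ^ 2 = -(e : F) ∧ ∀ r : ℚ, t ≠ r * u)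

section

variable {F : Type*} [Field F] [NumberField F] [IsCMField F]

theorem condList_iff : CondList F ↔ CondFour F := by
  unfold CondList CondFour CondDec
  rw [or_assoc]
  have h1 : (∃ d : ℕ, 0 < d ∧ (∃ t : F, t ^ 2 = -(d : F)) ∧ IsIrred (core d F)) ↔
      ∃ (t : F) (d : ℕ), 0 < d ∧ t ^ 2 = -(d : F) ∧ IsIrred (zeroSum t) := by
    constructor
    · rintro ⟨d, hd, ⟨t, ht⟩, h⟩
      rw [core_eq hd ht] at h
      exact ⟨t, d, hd, ht, h⟩
    · rintro ⟨t, d, hd, ht, h⟩
      rw [← core_eq hd ht] at h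
      exact ⟨d, hd, ⟨t, ht⟩, h⟩
  rw [h1]

end

section

variable {p : ℕ} [Fact p.Prime] {ν : PadicAlgCl p ≃+* ℂ}

theorem hodge_of_controlled {Z : RedAV p ν} (h : ∀ r, IsControlled Z r) : HodgeOnPowers Z :=
  fun _ _ _ _ _ hC hR hW hT _ hY _ hα r _ hrm _ hz hnum hprim =>
    main hC hR hW hT (h r) hY hα hrm hz hnum hprim

theorem hodge_of_condList {Z : RedAV p ν} (i : Z.X.I) (hi : ∀ k, k = i)
    (hcom : IsCommutative Z i) (h : CondList (Z.X.factor i).E) : HodgeOnPowers Z := by
  refine hodge_of_controlled fun r => controlled_of_dependent Z (fun k => ?_)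
    (dependent_of_condFour i hi hcom (condList_iff.1 h) r)
  obtain rfl := hi k
  exact Or.inr hcom

/-- The product theorem, in explicit form. -/
theorem controlled_explicit {Z : RedAV p ν} {d : ℕ} (hd : 0 < d) (t : Z.X.H1)
    (ht : ∀ i, (t i) ^ 2 = -((d : ℕ) : (Z.X.factor i).E))
    (h1 : ∀ i, finrank ℚ (Z.X.factor i).E ≠ 2 → IsCommutative Z i ∧
      ((∃ g : ℕ, g.Prime ∧ finrank ℚ (Z.X.factor i).E = 2 * g) ∨ IsTwoTransitive (t i)))
    (h2 : ∀ i k, i ≠ k → finrank ℚ (Z.X.factor i).E = finrank ℚ (Z.X.factor k).E →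
      finrank ℚ (Z.X.factor i).E = 2) (r : ℕ) : IsControlled Z r := by
  have hirr : ∀ i, finrank ℚ (Z.X.factor i).E ≠ 2 → IsIrred (core d (Z.X.factor i).E) := by
    intro i hi
    rcases (h1 i hi).2 with ⟨g, hg, hfr⟩ | h3
    · exact core_irred_of_prime hd (ht i) hg hfr
    · exact core_irred_of_two_trans hd (ht i) hi h3
  refine controlled hd (fun i => ?_) (fun i k hik => ?_) r
  · by_cases hi : finrank ℚ (Z.X.factor i).E = 2
    · exact Or.inl (core_eq_bot hd (ht i) hi)
    · exact Or.inr ⟨hirr i hi, (h1 i hi).1⟩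
  · by_cases hi : finrank ℚ (Z.X.factor i).E = 2
    · intro T _ _ f hf
      rw [core_eq_bot hd (ht i) hi, Submodule.mem_bot] at hf
      rw [hf, map_zero]
    · by_cases hk : finrank ℚ (Z.X.factor k).E = 2
      · intro T hT _ f hf
        have h3 := hT f hf
        rw [core_eq_bot hd (ht k) hk, Submodule.mem_bot] at h3
        exact h3
      · refine noMapsTo_of_finrank (hirr i hi) ((stable_iff _).2 (core_stable hd)) (hirr k hk) ?_
        intro h3
        have e1 := finrank_core hd (ht i)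
        have e2 := finrank_core hd (ht k)
        exact hi (h2 i k hik (by omega))

end

section

variable {F : Type} [Field F] [NumberField F] [IsCMField F]

theorem three_iff_propC : CondThree F ↔ PropC (PC F) ComplexEmbedding.conjugate :=
  ⟨propC_of_condThree, condThree_of_propC⟩

theorem four_iff_propC : CondFour F ↔ PropC (PC F) ComplexEmbedding.conjugate :=
  ⟨propC_of_condFour, condFour_of_propC⟩

theorem one_of_propC (h : PropC (PC F) ComplexEmbedding.conjugate) (p : ℕ) [Fact p.Prime] (a : ℕ)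
    (π : F) (hπ : IsWeilNumber (p ^ a) π)
    (hgen : ∀ n : ℕ, 0 < n → IntermediateField.adjoin ℚ {π ^ n} = ⊤) :
    AtMostOneRelation (p ^ a) π :=
  atMostOne_of_propC h p a π hπ fun x y s hs hxy => inj_of_adjoin (hgen s hs) x y hxy

end

end Pool.Agent.H21.FF
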