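import Pool.Agent.H21.FF.Cls
import Pool.Agent.H21.FF.Defs

/-!
# Signs and imaginary quadratic subfields
-/

set_option autoImplicit false
set_option linter.unusedSectionVars false

namespace Pool.Agent.H21.FF

open NumberField Module Pool.Agent.H21.TC Pool.Agent.H21.NP

variable {F : Type*} [Field F] [NumberField F]

/-- Elements with only one conjugate are rational. -/
theorem rat_of_const (b : F) (h : ∀ x y : F →+* ℂ, x b = y b) : ∃ q : ℚ, b = (q : F) := by
  classical
  obtain ⟨x₀⟩ : Nonempty (F →+* ℂ) := inferInstance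
  have h1 := trace_eq_sum_embeddings (K := ℚ) (L := F) ℂ (x := b)
  have h2 : ∀ σ : F →ₐ[ℚ] ℂ, σ b = x₀ b := fun σ => h (σ : F →+* ℂ) x₀
  rw [Finset.sum_congr rfl fun σ _ => h2 σ, Finset.sum_const, Finset.card_univ,
    AlgHom.card ℚ F ℂ, nsmul_eq_mul] at h1
  have hn : (finrank ℚ F : ℂ) ≠ 0 := by
    have : 0 < finrank ℚ F := finrank_pos
    exact_mod_cast this.ne'
  refine ⟨Algebra.trace ℚ F b / finrank ℚ F, x₀.injective ?_⟩
  rw [map_ratCast]
  push_cast
  rw [eq_div_iff hn, mul_comm, ← h1]
  rfl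

/-- Square roots of negative numbers. -/
theorem sq_neg {z : ℂ} {d : ℕ} (hd : 0 < d) (h : z ^ 2 = -(d : ℂ)) : z.re = 0 ∧ z.im ≠ 0 := by
  have h1 := congrArg Complex.re h
  have h2 := congrArg Complex.im h
  simp only [pow_two, Complex.mul_re, Complex.mul_im, Complex.neg_re, Complex.neg_im,
    Complex.natCast_re, Complex.natCast_im, neg_zero] at h1 h2
  have hd' : (0 : ℝ) < d := by exact_mod_cast hd
  have h3 : z.re * z.im = 0 := by linarith
  have him : z.im ≠ 0 := by
    intro h0
    rw [h0] at h1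
    nlinarith [mul_self_nonneg z.re]
  exact ⟨(mul_eq_zero.1 h3).resolve_right him, him⟩

/-- The sign of the imaginary part. -/
noncomputable def signOf (t : F) (φ : F →+* ℂ) : ℚ := if 0 < (φ t).im then 1 else -1

theorem signOf_val (t : F) (φ : F →+* ℂ) : signOf t φ = 1 ∨ signOf t φ = -1 := by
  unfold signOf
  split_ifs
  · exact Or.inl rfl
  · exact Or.inr rfl

theorem signOf_one (t : F) (φ : F →+* ℂ) : signOf t φ = 1 ↔ 0 < (φ t).im := by
  unfold signOf
  split_ifs with h
  · simp [h]
  · constructor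
    · intro h1
      norm_num at h1
    · intro h1
      exact absurd h1 h

theorem emb_sq {t : F} {d : ℕ} (h : t ^ 2 = -(d : F)) (x : F →+* ℂ) : (x t) ^ 2 = -(d : ℂ) := by
  rw [← map_pow, h, map_neg, map_natCast]

theorem emb_cases {t : F} {d : ℕ} (hd : 0 < d) (h : t ^ 2 = -(d : F)) (x y : F →+* ℂ) :
    (signOf t x = signOf t y ∧ x t = y t) ∨ (signOf t x = - signOf t y ∧ x t = - y t) := by
  have h1 := emb_sq h x
  have h2 := emb_sq h y
  have h3 := (sq_neg hd h1).2
  have h4 := (sq_neg hd h2).2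
  rcases sq_eq_sq_iff_eq_or_eq_neg.1 (h1.trans h2.symm) with h5 | h5
  · left
    refine ⟨?_, h5⟩
    unfold signOf
    rw [h5]
  · right
    refine ⟨?_, h5⟩
    unfold signOf
    rw [h5, Complex.neg_im]
    rcases lt_or_gt_of_ne h4 with h6 | h6
    · rw [if_pos (by linarith), if_neg (by linarith)]
      norm_num
    · rw [if_neg (by linarith), if_pos h6]

theorem signOf_conj {t : F} {d : ℕ} (hd : 0 < d) (h : t ^ 2 = -(d : F)) (x : F →+* ℂ) :
    signOf t (ComplexEmbedding.conjugate x) = - signOf t x := by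
  rcases emb_cases hd h (ComplexEmbedding.conjugate x) x with h1 | h1
  · exfalso
    have h2 := congrArg Complex.im h1.2
    have h3 : ((ComplexEmbedding.conjugate x) t).im = - (x t).im := rfl
    rw [h3] at h2
    exact (sq_neg hd (emb_sq h x)).2 (by linarith)
  · exact h1.1

theorem isSign_signOf [IsCMField F] {t : F} {d : ℕ} (hd : 0 < d) (h : t ^ 2 = -(d : F)) :
    IsSign (PC F) ComplexEmbedding.conjugate (signOf t) := by
  refine ⟨signOf_val t, signOf_conj hd h, ?_⟩
  rintro _ ⟨τ, rfl⟩
  obtain ⟨x₀⟩ : Nonempty (F →+* ℂ) := inferInstance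
  have key : ∀ x : F →+* ℂ, signOf t (permOf F τ x) * signOf t x =
      signOf t (permOf F τ x₀) * signOf t x₀ := by
    intro x
    have hτ : ∀ y : F →+* ℂ, (permOf F τ y) t = τ (y t) := fun y => rfl
    rcases emb_cases hd h x x₀ with h1 | h1
    · have h2 : (permOf F τ x) t = (permOf F τ x₀) t := by rw [hτ, hτ, h1.2]
      rcases emb_cases hd h (permOf F τ x) (permOf F τ x₀) with h3 | h3
      · rw [h1.1, h3.1]
      · exfalso
        rw [h2] at h3
        have h4 := (sq_neg hd (emb_sq h (permOf F τ x₀))).2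
        have h5 := congrArg Complex.im h3.2
        rw [Complex.neg_im] at h5
        exact h4 (by linarith)
    · have h2 : (permOf F τ x) t = - (permOf F τ x₀) t := by rw [hτ, hτ, h1.2, map_neg]
      rcases emb_cases hd h (permOf F τ x) (permOf F τ x₀) with h3 | h3
      · exfalso
        rw [h2] at h3
        have h4 := (sq_neg hd (emb_sq h (permOf F τ x₀))).2
        have h5 := congrArg Complex.im h3.2
        rw [Complex.neg_im] at h5
        exact h4 (by linarith)
      · rw [h1.1, h3.1]
        ring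
  rcases signOf_val t (permOf F τ x₀) with h1 | h1
  · rcases signOf_val t x₀ with h2 | h2
    · left
      intro x
      have h3 := key x
      rw [h1, h2] at h3
      rcases signOf_val t x with h4 | h4
      · rw [h4] at h3 ⊢; linarith
      · rw [h4] at h3 ⊢; linarith
    · right
      intro x
      have h3 := key x
      rw [h1, h2] at h3
      rcases signOf_val t x with h4 | h4
      · rw [h4] at h3 ⊢; linarith
      · rw [h4] at h3 ⊢; linarith
  · rcases signOf_val t x₀ with h2 | h2
    · right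
      intro x
      have h3 := key x
      rw [h1, h2] at h3
      rcases signOf_val t x with h4 | h4
      · rw [h4] at h3 ⊢; linarith
      · rw [h4] at h3 ⊢; linarith
    · left
      intro x
      have h3 := key x
      rw [h1, h2] at h3
      rcases signOf_val t x with h4 | h4
      · rw [h4] at h3 ⊢; linarith
      · rw [h4] at h3 ⊢; linarith

theorem sum_odd (h : (F →+* ℂ) → ℚ) (hh : ∀ x, h (ComplexEmbedding.conjugate x) = - h x) :
    ∑ x, h x = 0 := by
  have hcc : ∀ x : F →+* ℂ, ComplexEmbedding.conjugate (ComplexEmbedding.conjugate x) = x :=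
    fun x => RingHom.ext fun a => Complex.conj_conj (x a)
  have e1 : ∑ x : F →+* ℂ, h (ComplexEmbedding.conjugate x) = ∑ x, h x :=
    Finset.sum_nbij' ComplexEmbedding.conjugate ComplexEmbedding.conjugate
      (fun _ _ => Finset.mem_univ _) (fun _ _ => Finset.mem_univ _)
      (fun y _ => hcc y) (fun y _ => hcc y) (fun y _ => rfl)
  rw [Finset.sum_congr rfl fun x _ => hh x, Finset.sum_neg_distrib] at e1
  linarith

theorem perpOf_signOf (t : F) :
    perpOf ComplexEmbedding.conjugate (signOf t) = zeroSum t := by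
  ext h
  have key : (∀ x, h (ComplexEmbedding.conjugate x) = - h x) →
      ∑ x, h x * signOf t x = 2 * ∑ φ : F →+* ℂ, (if 0 < (φ t).im then h φ else 0) := by
    intro hh
    have h1 : ∀ x, h x * signOf t x = 2 * (if 0 < (x t).im then h x else 0) - h x := by
      intro x
      unfold signOf
      split_ifs <;> ring
    rw [Finset.sum_congr rfl fun x _ => h1 x, Finset.sum_sub_distrib, sum_odd h hh,
      ← Finset.mul_sum, sub_zero]
  constructor
  · rintro ⟨h1, h2⟩
    refine ⟨h1, ?_⟩
    rw [key h1] at h2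
    linarith
  · rintro ⟨h1, h2⟩
    refine ⟨h1, ?_⟩
    rw [key h1, h2, mul_zero]

/-- The imaginary quadratic field of a sign. -/
theorem exists_root_of_sign [IsCMField F] {f : (F →+* ℂ) → ℚ}
    (hf : IsSign (PC F) ComplexEmbedding.conjugate f) :
    ∃ (t : F) (d : ℕ), 0 < d ∧ t ^ 2 = -(d : F) ∧ f = signOf t := by
  classical
  have hstab : StableS (PC F) (Submodule.span ℚ {f}) := by
    intro σ hσ h hh
    obtain ⟨a, rfl⟩ := Submodule.mem_span_singleton.1 hh
    rcases hf.char σ hσ with h1 | h1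
    · refine Submodule.mem_span_singleton.2 ⟨a, ?_⟩
      funext x
      simp only [Pi.smul_apply, h1]
    · refine Submodule.mem_span_singleton.2 ⟨-a, ?_⟩
      funext x
      simp only [Pi.smul_apply, h1, smul_neg, neg_smul]
  obtain ⟨E, hE⟩ := exists_subfield' (F := F) _ hstab
  have hrel : ∀ x y, RelOf (Submodule.span ℚ {f}) x y ↔ f x = f y := by
    intro x y
    constructor
    · exact fun h => h f (Submodule.mem_span_singleton_self f)
    · intro h k hk
      obtain ⟨a, rfl⟩ := Submodule.mem_span_singleton.1 hk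
      simp only [Pi.smul_apply, h]
  obtain ⟨x₀, hx₀⟩ : ∃ x₀, f x₀ = 1 := by
    obtain ⟨x⟩ : Nonempty (F →+* ℂ) := inferInstance
    rcases hf.val x with h | h
    · exact ⟨x, h⟩
    · exact ⟨ComplexEmbedding.conjugate x, by rw [hf.odd, h, neg_neg]⟩
  obtain ⟨a, ha, hne⟩ : ∃ a ∈ E, x₀ a ≠ (ComplexEmbedding.conjugate x₀) a := by
    by_contra hno
    push Not at hno
    have h1 := (hrel _ _).1 ((hE x₀ (ComplexEmbedding.conjugate x₀)).1 hno)
    rw [hf.odd, hx₀] at h1
    norm_num at h1
  have hval : ∀ x y : F →+* ℂ, f x = f y → x a = y a := fun x y h =>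
    (hE x y).2 ((hrel x y).2 h) a ha
  let t : F := a - conjRing F a
  have ht : ∀ x : F →+* ℂ, x t = x a - starRingEnd ℂ (x a) := by
    intro x
    simp only [t]
    rw [map_sub]
    congr 1
    exact RingHom.congr_fun (comp_conjRing x) a
  have htim : ∀ x : F →+* ℂ, x t = 2 * (x a).im * Complex.I := by
    intro x
    rw [ht, Complex.sub_conj]
    push_cast
    ring
  have hbar : ∀ x : F →+* ℂ, (ComplexEmbedding.conjugate x) a = starRingEnd ℂ (x a) := fun x => rfl
  have him0 : (x₀ a).im ≠ 0 := by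
    intro h0
    apply hne
    rw [hbar]
    apply Complex.ext
    · rw [Complex.conj_re]
    · rw [Complex.conj_im, h0, neg_zero]
  have hpos : ∀ x : F →+* ℂ, (f x = 1 → (x a).im = (x₀ a).im) ∧
      (f x = -1 → (x a).im = - (x₀ a).im) := by
    intro x
    refine ⟨fun h => ?_, fun h => ?_⟩
    · rw [hval x x₀ (h.trans hx₀.symm)]
    · have h1 := hval (ComplexEmbedding.conjugate x) x₀ (by rw [hf.odd, h, hx₀, neg_neg])
      rw [hbar] at h1
      have h2 := congrArg Complex.im h1
      rw [Complex.conj_im] at h2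
      linarith
  have hsq : ∀ x : F →+* ℂ, x (t ^ 2) = -((2 * (x₀ a).im) ^ 2 : ℝ) := by
    intro x
    rw [map_pow, htim, mul_pow, Complex.I_sq]
    rcases hf.val x with h | h
    · rw [(hpos x).1 h]
      push_cast
      ring
    · rw [(hpos x).2 h]
      push_cast
      ring
  obtain ⟨q, hq⟩ := rat_of_const (t ^ 2) fun x y => by rw [hsq, hsq]
  have hq0 : q < 0 := by
    have h1 := hsq x₀
    rw [hq, map_ratCast] at h1
    have h2 : (q : ℝ) = -((2 * (x₀ a).im) ^ 2) := by exact_mod_cast h1
    have h3 : (0 : ℝ) < (2 * (x₀ a).im) ^ 2 := by positivity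
    have h4 : (q : ℝ) < 0 := by linarith
    exact_mod_cast h4
  -- clear the denominator
  obtain ⟨N, d, hN, hd, hNd⟩ : ∃ (N d : ℕ), 0 < N ∧ 0 < d ∧ (N : ℚ) ^ 2 * q = -(d : ℚ) := by
    refine ⟨q.den, q.den * q.num.natAbs, q.den_pos, Nat.mul_pos q.den_pos
      (Int.natAbs_pos.2 (Rat.num_ne_zero.2 hq0.ne)), ?_⟩
    have h1 : (q.den : ℚ) * q = q.num := by
      have := Rat.den_mul_eq_num q
      exact this
    have h2 : ((q.num.natAbs : ℕ) : ℚ) = -(q.num : ℚ) := by
      have h3 : q.num < 0 := Rat.num_neg.2 hq0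
      have h4 : ((q.num.natAbs : ℕ) : ℤ) = - q.num := by omega
      have h5 : ((q.num.natAbs : ℕ) : ℚ) = ((- q.num : ℤ) : ℚ) := by
        rw [← h4, Int.cast_natCast]
      rw [h5, Int.cast_neg]
    push_cast
    rw [h2, pow_two, mul_assoc, h1]
    ring
  -- the sign
  obtain ⟨ε, hε, hεpos⟩ : ∃ ε : ℤ, (ε = 1 ∨ ε = -1) ∧ 0 < ε * (x₀ a).im := by
    rcases lt_or_gt_of_ne him0 with h | h
    · exact ⟨-1, Or.inr rfl, by push_cast; linarith⟩
    · exact ⟨1, Or.inl rfl, by push_cast; linarith⟩
  have hε2 : (ε : F) ^ 2 = 1 := by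
    rcases hε with h | h
    · rw [h]; norm_num
    · rw [h]; norm_num
  refine ⟨(ε : F) * (N : F) * t, d, hd, ?_, ?_⟩
  · rw [mul_pow, mul_pow, hε2, one_mul, hq]
    exact_mod_cast congrArg (fun r : ℚ => (r : F)) hNd
  · funext x
    have h1 : (x ((ε : F) * (N : F) * t)).im = (2 * N) * (ε * (x a).im) := by
      rw [map_mul, map_mul, map_intCast, map_natCast, htim]
      have h2 : ((ε : ℂ) * (N : ℂ) * (2 * ((x a).im : ℂ) * Complex.I)) =
          (((2 * N) * (ε * (x a).im) : ℝ) : ℂ) * Complex.I := by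
        push_cast
        ring
      rw [h2, Complex.mul_im, Complex.I_re, Complex.I_im, Complex.ofReal_re, Complex.ofReal_im]
      ring
    have hN' : (0 : ℝ) < 2 * N := by
      have : (0 : ℝ) < N := by exact_mod_cast hN
      linarith
    unfold signOf
    rw [h1]
    rcases hf.val x with h | h
    · rw [h, (hpos x).1 h, if_pos (mul_pos hN' hεpos)]
    · rw [h, (hpos x).2 h, if_neg]
      rw [not_lt]
      have h3 : (2 * N : ℝ) * (ε * -(x₀ a).im) = - ((2 * N) * (ε * (x₀ a).im)) := by ring
      rw [h3]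
      have h4 := mul_pos hN' hεpos
      linarith

/-- Equal signs belong to proportional elements. -/
theorem prop_of_sign {t u : F} {d e : ℕ} (hd : 0 < d) (he : 0 < e) (ht : t ^ 2 = -(d : F))
    (hu : u ^ 2 = -(e : F)) (h : signOf u = signOf t ∨ signOf u = - signOf t) :
    ∃ r : ℚ, t = r * u := by
  have hu0 : u ≠ 0 := by
    rintro rfl
    have h1 : (e : F) = 0 := by
      rw [zero_pow two_ne_zero] at hu
      exact neg_eq_zero.1 hu.symm
    exact he.ne' (by exact_mod_cast h1)
  obtain ⟨r, hr⟩ := rat_of_const (t / u) fun x y => by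
    rw [map_div₀, map_div₀]
    have key : signOf t x = signOf t y ↔ signOf u x = signOf u y := by
      rcases h with h | h
      · rw [h]
      · rw [h, Pi.neg_apply, Pi.neg_apply, neg_inj]
    have hne : ∀ s : ℚ, (s = 1 ∨ s = -1) → s ≠ -s := by
      rintro s (rfl | rfl) <;> norm_num
    rcases emb_cases hd ht x y with h1 | h1
    · rcases emb_cases he hu x y with h2 | h2
      · rw [h1.2, h2.2]
      · exfalso
        have h3 := key.1 h1.1
        rw [h2.1] at h3
        exact hne _ (signOf_val u y) h3.symm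
    · rcases emb_cases he hu x y with h2 | h2
      · exfalso
        have h3 := key.2 h2.1
        rw [h1.1] at h3
        exact hne _ (signOf_val t y) h3.symm
      · rw [h1.2, h2.2, neg_div_neg_eq]
  exact ⟨r, by rw [← hr, div_mul_cancel₀ _ hu0]⟩

theorem sign_of_prop {t u : F} {d e : ℕ} (hd : 0 < d) (he : 0 < e) (ht : t ^ 2 = -(d : F))
    (hu : u ^ 2 = -(e : F)) (r : ℚ) (h : t = r * u) :
    signOf u = signOf t ∨ signOf u = - signOf t := by
  have him : ∀ x : F →+* ℂ, (x t).im = r * (x u).im := by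
    intro x
    rw [h, map_mul, map_ratCast, Complex.mul_im, Complex.ratCast_re, Complex.ratCast_im]
    ring
  have hr0 : r ≠ 0 := by
    rintro rfl
    obtain ⟨x⟩ : Nonempty (F →+* ℂ) := inferInstance
    have h1 := him x
    rw [Rat.cast_zero, zero_mul] at h1
    exact (sq_neg hd (emb_sq ht x)).2 h1
  rcases lt_or_gt_of_ne hr0 with h1 | h1
  · right
    funext x
    have h2 : (r : ℝ) < 0 := by exact_mod_cast h1
    rw [Pi.neg_apply]
    unfold signOf
    rw [him x]
    rcases lt_or_gt_of_ne (sq_neg he (emb_sq hu x)).2 with h3 | h3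
    · rw [if_neg (by linarith), if_pos (mul_pos_of_neg_of_neg h2 h3)]
    · rw [if_pos h3, if_neg (by nlinarith)]
      norm_num
  · left
    funext x
    have h2 : (0 : ℝ) < r := by exact_mod_cast h1
    unfold signOf
    rw [him x]
    rcases lt_or_gt_of_ne (sq_neg he (emb_sq hu x)).2 with h3 | h3
    · rw [if_neg (by linarith), if_neg (by nlinarith)]
    · rw [if_pos h3, if_pos (mul_pos h2 h3)]

/-- Proper subfields do not separate the embeddings. -/
theorem exists_pair_of_ne_top (E : Subfield F) (hE : E ≠ ⊤) :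
    ∃ x y : F →+* ℂ, x ≠ y ∧ ∀ a ∈ E, x a = y a := by
  classical
  obtain ⟨x⟩ : Nonempty (F →+* ℂ) := inferInstance
  let _ : Algebra E ℂ := (x.comp E.subtype).toAlgebra
  have hE0 : CharZero E := inferInstance
  have hfd : FiniteDimensional E F := by
    have : FiniteDimensional ℚ F := inferInstance
    exact FiniteDimensional.right ℚ E F
  let x' : F →ₐ[E] ℂ := { x with commutes' := fun r => rfl }
  by_contra hno
  push Not at hno
  have h1 : Fintype.card (F →ₐ[E] ℂ) = 1 := by
    rw [Fintype.card_eq_one_iff]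
    refine ⟨x', fun y => ?_⟩
    by_contra hne
    have h2 : x ≠ (y : F →+* ℂ) := by
      intro h
      apply hne
      ext a
      exact (RingHom.congr_fun h a).symm
    obtain ⟨a, ha, hxa⟩ := hno x (y : F →+* ℂ) h2
    exact hxa (y.commutes ⟨a, ha⟩).symm
  rw [AlgHom.card E F ℂ] at h1
  apply hE
  rw [eq_top_iff]
  intro a _
  obtain ⟨c, hc⟩ := (finrank_eq_one_iff_of_nonzero' (1 : F) one_ne_zero).1 h1 a
  rw [← hc, Subfield.smul_def, smul_eq_mul, mul_one]
  exact c.2

variable [IsCMField F]

theorem propC_of_condThree (h : CondThree F) : PropC (PC F) ComplexEmbedding.conjugate := by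
  intro W hW hWo hr
  obtain ⟨E, hE, hWE⟩ := h W ((stable_iff W).2 hW) hWo hr
  obtain ⟨x, y, hxy, hag⟩ := exists_pair_of_ne_top E hE
  exact ⟨x, y, hxy, fun f hf => (hWE hf).2 x y hag⟩

theorem condThree_of_propC (h : PropC (PC F) ComplexEmbedding.conjugate) : CondThree F := by
  intro W hW hWo hr
  have hW' := (stable_iff W).1 hW
  obtain ⟨x, y, hxy, hrel⟩ := h W hW' hWo hr
  obtain ⟨E, hE⟩ := exists_subfield' W hW'
  refine ⟨E, ?_, fun f hf => ⟨hWo hf, fun φ ψ hh => (hE φ ψ).1 hh f hf⟩⟩
  rintro rfl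
  exact hxy (RingHom.ext fun a => (hE x y).2 hrel a trivial)

theorem card_emb : Fintype.card (F →+* ℂ) = finrank ℚ F := Embeddings.card F ℂ

theorem condFour_of_propC (h : PropC (PC F) ComplexEmbedding.conjugate) : CondFour F := by
  classical
  by_cases hcard : finrank ℚ F ≤ 4
  · exact Or.inl hcard
  right
  have hc : 4 < Fintype.card (F →+* ℂ) := by
    rw [card_emb]
    omega
  have hne : Nonempty (F →+* ℂ) := inferInstance
  rcases cases_of_propC h conj_conj conj_ne conj_comm pc_trans' hc with h1 | ⟨f, hf, h1⟩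
  · exact Or.inl (condDec_of_propB h1)
  right
  obtain ⟨t, d, hd, ht, rfl⟩ := exists_root_of_sign hf
  rcases h1 with h1 | ⟨h8, f', hf', hn1, hn2⟩
  · left
    refine ⟨t, d, hd, ht, ?_, fun S hS hle => ?_⟩
    · intro h0
      have h2 := finrank_perpOf hf
      have h3 := finrank_odd (X := F →+* ℂ) conj_conj conj_ne
      rw [perpOf_signOf, h0, finrank_bot] at h2
      omega
    · rw [← perpOf_signOf] at hle ⊢
      exact h1 S ((stable_iff S).1 hS) hle
  · right
    obtain ⟨u, e, he, hu, rfl⟩ := exists_root_of_sign hf'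
    refine ⟨by rw [← card_emb, h8], t, u, d, e, hd, he, ht, hu, fun r hr => ?_⟩
    rcases sign_of_prop hd he ht hu r hr with h2 | h2
    · exact hn1 h2
    · exact hn2 h2

theorem propC_of_condFour (h : CondFour F) : PropC (PC F) ComplexEmbedding.conjugate := by
  have hne : Nonempty (F →+* ℂ) := inferInstance
  rcases h with h | h | ⟨t, d, hd, ht, h⟩ | ⟨h8, t, u, d, e, hd, he, ht, hu, h⟩
  · exact propC_of_card conj_conj conj_ne (by rw [card_emb]; exact h)
  · exact propC_of_propB (propB_of_condSub (condSub_of_condDec h))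
  · refine propC_of_irred conj_conj conj_ne conj_comm pc_trans' (isSign_signOf hd ht) ?_
    intro S hS hle
    rw [perpOf_signOf] at hle ⊢
    exact h.2 S ((stable_iff S).2 hS) hle
  · refine propC_of_two_signs conj_conj conj_ne conj_comm pc_trans' (isSign_signOf hd ht)
      (isSign_signOf he hu) ?_ ?_ (by rw [card_emb, h8])
    · intro h1
      obtain ⟨r, hr⟩ := prop_of_sign hd he ht hu (Or.inl h1)
      exact h r hr
    · intro h1
      obtain ⟨r, hr⟩ := prop_of_sign hd he ht hu (Or.inr h1)
      exact h r hr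

end Pool.Agent.H21.FF
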