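import Pool.Agent.H21.TC.Rep2
import Pool.Agent.H21.NP.Low

/-!
# Stable spaces of codimension at least two: signs and complements
-/

set_option autoImplicit false
set_option linter.unusedSectionVars false

namespace Pool.Agent.H21.FF

open Module Pool.Agent.H21.TC Pool.Agent.H21.NP

variable {X : Type*} [Fintype X]

/-- Every stable space of odd functions of codimension at least two has a coincidence. -/
def PropC (P : Subgroup (Equiv.Perm X)) (bar : X → X) : Prop :=
  ∀ W : Submodule ℚ (X → ℚ), StableS P W → W ≤ OddS bar →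
    finrank ℚ W + 2 ≤ finrank ℚ (OddS bar) → ∃ x y, x ≠ y ∧ RelOf W x y

/-- Odd functions with the values `1` and `-1` that are invariant up to signs. -/
structure IsSign (P : Subgroup (Equiv.Perm X)) (bar : X → X) (f : X → ℚ) : Prop where
  val : ∀ x, f x = 1 ∨ f x = -1
  odd : ∀ x, f (bar x) = - f x
  char : ∀ σ ∈ P, (∀ x, f (σ x) = f x) ∨ (∀ x, f (σ x) = - f x)

/-- The odd functions orthogonal to a space. -/
def perpS (bar : X → X) (W : Submodule ℚ (X → ℚ)) : Submodule ℚ (X → ℚ) where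
  carrier := {f | (∀ x, f (bar x) = - f x) ∧ ∀ h ∈ W, ∑ x, f x * h x = 0}
  zero_mem' := ⟨fun x => by simp, fun h _ => by simp⟩
  add_mem' := fun {f g} hf hg => ⟨fun x => by
      simp only [Pi.add_apply, hf.1 x, hg.1 x]
      ring, fun h hh => by
      simp only [Pi.add_apply, add_mul, Finset.sum_add_distrib, hf.2 h hh, hg.2 h hh, add_zero]⟩
  smul_mem' := fun c f hf => ⟨fun x => by
      simp only [Pi.smul_apply, hf.1 x, smul_eq_mul]
      ring, fun h hh => by
      simp only [Pi.smul_apply, smul_eq_mul, mul_assoc, ← Finset.mul_sum, hf.2 h hh, mul_zero]⟩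

/-- The odd functions orthogonal to a function. -/
def perpOf (bar : X → X) (f : X → ℚ) : Submodule ℚ (X → ℚ) where
  carrier := {h | (∀ x, h (bar x) = - h x) ∧ ∑ x, h x * f x = 0}
  zero_mem' := ⟨fun x => by simp, by simp⟩
  add_mem' := fun {h k} hh hk => ⟨fun x => by
      simp only [Pi.add_apply, hh.1 x, hk.1 x]
      ring, by
      simp only [Pi.add_apply, add_mul, Finset.sum_add_distrib, hh.2, hk.2, add_zero]⟩
  smul_mem' := fun c h hh => ⟨fun x => by
      simp only [Pi.smul_apply, hh.1 x, smul_eq_mul]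
      ring, by
      simp only [Pi.smul_apply, smul_eq_mul, mul_assoc, ← Finset.mul_sum, hh.2, mul_zero]⟩

variable {P : Subgroup (Equiv.Perm X)} {bar : X → X}

theorem perpS_le (W : Submodule ℚ (X → ℚ)) : perpS bar W ≤ OddS bar := fun _ h => h.1

theorem perpOf_le (f : X → ℚ) : perpOf bar f ≤ OddS bar := fun _ h => h.1

theorem perpS_stable (hcomm : ∀ σ ∈ P, ∀ x, σ (bar x) = bar (σ x)) {W : Submodule ℚ (X → ℚ)}
    (hW : StableS P W) : StableS P (perpS bar W) := by
  intro σ hσ f hf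
  refine ⟨fun z => ?_, fun h hh => ?_⟩
  · change f (σ (bar z)) = - f (σ z)
    rw [hcomm σ hσ, hf.1]
  · rw [sum_perm σ f h]
    exact hf.2 _ (hW σ⁻¹ (inv_mem hσ) h hh)

theorem perpOf_stable (hcomm : ∀ σ ∈ P, ∀ x, σ (bar x) = bar (σ x)) {f : X → ℚ}
    (hf : IsSign P bar f) : StableS P (perpOf bar f) := by
  intro σ hσ h hh
  refine ⟨fun z => ?_, ?_⟩
  · change h (σ (bar z)) = - h (σ z)
    rw [hcomm σ hσ, hh.1]
  · rw [sum_perm σ h f]
    rcases hf.char σ⁻¹ (inv_mem hσ) with h1 | h1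
    · rw [Finset.sum_congr rfl fun x _ => by rw [h1 x]]
      exact hh.2
    · rw [Finset.sum_congr rfl fun x _ => by rw [h1 x, mul_neg], Finset.sum_neg_distrib, hh.2,
        neg_zero]

theorem sum_sq_pos {f : X → ℚ} (h : ∑ x, f x * f x = 0) : f = 0 := by
  have h2 := (Finset.sum_eq_zero_iff_of_nonneg fun x _ => mul_self_nonneg (f x)).1 h
  funext x
  exact mul_self_eq_zero.1 (h2 x (Finset.mem_univ x))

theorem inf_perpS (W : Submodule ℚ (X → ℚ)) : W ⊓ perpS bar W = ⊥ := by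
  rw [Submodule.eq_bot_iff]
  rintro f ⟨h1, h2⟩
  exact sum_sq_pos (h2.2 f h1)

theorem sup_perpS {W : Submodule ℚ (X → ℚ)} (hW : W ≤ OddS bar) : W ⊔ perpS bar W = OddS bar := by
  refine le_antisymm (sup_le hW (perpS_le W)) fun f hf => ?_
  obtain ⟨f₀, hf₀, ho⟩ := exists_decomp W f
  refine Submodule.mem_sup.2 ⟨f₀, hf₀, fun x => f x - f₀ x, ⟨fun x => ?_, ho⟩, ?_⟩
  · have h1 : f₀ (bar x) = - f₀ x := hW hf₀ x
    change f (bar x) - f₀ (bar x) = - (f x - f₀ x)
    rw [hf x, h1]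
    ring
  · funext x
    change f₀ x + (f x - f₀ x) = f x
    ring

theorem finrank_perpS {W : Submodule ℚ (X → ℚ)} (hW : W ≤ OddS bar) :
    finrank ℚ W + finrank ℚ (perpS bar W) = finrank ℚ (OddS bar) := by
  have h1 := Submodule.finrank_sup_add_finrank_inf_eq W (perpS bar W)
  rw [inf_perpS, finrank_bot, add_zero, sup_perpS hW] at h1
  exact h1.symm

theorem finrank_odd (hbar : ∀ x, bar (bar x) = x) (hb : ∀ x, bar x ≠ x) :
    2 * finrank ℚ (OddS bar) = Fintype.card X := by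
  classical
  have e1 : SpanS (⊥ : Subgroup (Equiv.Perm X)) (0 : X → ℚ) = ⊥ := by
    rw [SpanS, Submodule.span_eq_bot]
    rintro _ ⟨σ, -, rfl⟩
    rfl
  have e2 : RelS (⊥ : Subgroup (Equiv.Perm X)) bar (0 : X → ℚ) = OddS bar := by
    ext f
    constructor
    · exact fun h => h.1
    · exact fun h => ⟨h, fun σ _ => by simp⟩
  obtain ⟨k, hk, hk1, -, hk2⟩ := exists_kernel (SpanS (⊥ : Subgroup (Equiv.Perm X)) (0 : X → ℚ))
  obtain ⟨l, hl, hl1, -, hl2⟩ :=
    exists_kernel (RelS (⊥ : Subgroup (Equiv.Perm X)) bar (0 : X → ℚ))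
  have h1 : (finrank ℚ (SpanS (⊥ : Subgroup (Equiv.Perm X)) (0 : X → ℚ)) : ℚ) +
      finrank ℚ (RelS (⊥ : Subgroup (Equiv.Perm X)) bar (0 : X → ℚ)) = Fintype.card X / 2 := by
    rw [hk2, hl2, ← Finset.sum_add_distrib, Finset.sum_congr rfl fun x _ =>
      kernel_sum hbar hb (fun σ hσ x => by
        rw [Subgroup.mem_bot] at hσ
        subst hσ
        rfl) (fun x => by simp) hk hk1 hl hl1 x]
    simp only [Finset.sum_const, Finset.card_univ, nsmul_eq_mul]
    ring
  rw [e1, e2, finrank_bot] at h1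
  have h2 : (2 * finrank ℚ (OddS bar) : ℚ) = Fintype.card X := by
    push_cast at h1
    linarith
  exact_mod_cast h2

theorem rel_bot (x y : X) : RelOf (⊥ : Submodule ℚ (X → ℚ)) x y := by
  intro f hf
  rw [Submodule.mem_bot] at hf
  rw [hf]
  rfl

/-- The bound for the dimension of a space with coincidences. -/
theorem four_finrank (hbar : ∀ x, bar (bar x) = x) (hb : ∀ x, bar x ≠ x)
    (htr : ∀ x y : X, ∃ σ ∈ P, σ x = y) {W : Submodule ℚ (X → ℚ)} (hW : StableS P W)
    (hWo : W ≤ OddS bar) (hrel : ∃ x y, x ≠ y ∧ RelOf W x y) :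
    4 * finrank ℚ W ≤ Fintype.card X := by
  classical
  obtain ⟨k, hk, hk1, hks, hk2⟩ := exists_kernel W
  have h1 : ∀ x, k x x ≤ 1 / 4 := by
    intro x
    have h2 := (half_bound P bar hbar hb htr W hW hWo hrel x (fun z => 2 * k x z)
      (Submodule.smul_mem _ (2 : ℚ) (hk x)) (by
        have h3 := hk1 (k x) (hk x) x
        rw [Finset.sum_congr rfl (fun z _ => by ring :
          ∀ z ∈ Finset.univ, 2 * k x z * (2 * k x z) = 4 * (k x z * k x z)), ← Finset.mul_sum,
          ← h3]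
        ring)).1
    linarith
  have h2 : (finrank ℚ W : ℚ) ≤ Fintype.card X / 4 := by
    rw [hk2]
    refine (Finset.sum_le_sum fun x _ => h1 x).trans (le_of_eq ?_)
    simp only [Finset.sum_const, Finset.card_univ, nsmul_eq_mul]
    ring
  have h3 : ((4 * finrank ℚ W : ℕ) : ℚ) ≤ (Fintype.card X : ℕ) := by
    push_cast
    linarith
  exact_mod_cast h3

/-- A stable line is generated by a sign function. -/
theorem exists_sign (htr : ∀ x y : X, ∃ σ ∈ P, σ x = y) {W : Submodule ℚ (X → ℚ)}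
    (hW : StableS P W) (hWo : W ≤ OddS bar) (h1 : finrank ℚ W = 1) :
    ∃ f, IsSign P bar f ∧ f ∈ W ∧ ∀ h ∈ W, ∃ t : ℚ, h = t • f := by
  have h2 := line_of_finrank h1
  obtain ⟨⟨c, hc⟩, hc0, -⟩ := finrank_eq_one_iff'.1 h1
  have hc0' : c ≠ 0 := fun h0 => hc0 (Subtype.ext h0)
  obtain ⟨x₀, hx₀⟩ : ∃ x, c x ≠ 0 := by
    by_contra hno
    push Not at hno
    exact hc0' (funext hno)
  have hch : ∀ σ ∈ P, (∀ x, c (σ x) = c x) ∨ (∀ x, c (σ x) = - c x) := fun σ hσ =>
    abs_const hW h2 hc hc0' hσ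
  refine ⟨(c x₀)⁻¹ • c, ⟨fun x => ?_, fun x => ?_, fun σ hσ => ?_⟩,
    Submodule.smul_mem _ _ hc, fun h hh => ?_⟩
  · obtain ⟨σ, hσ, rfl⟩ := htr x₀ x
    rcases hch σ hσ with h3 | h3
    · left
      rw [Pi.smul_apply, smul_eq_mul, h3, inv_mul_cancel₀ hx₀]
    · right
      rw [Pi.smul_apply, smul_eq_mul, h3, mul_neg, inv_mul_cancel₀ hx₀]
  · have h3 : c (bar x) = - c x := hWo hc x
    rw [Pi.smul_apply, Pi.smul_apply, smul_eq_mul, smul_eq_mul, h3, mul_neg]
  · rcases hch σ hσ with h3 | h3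
    · left
      intro x
      rw [Pi.smul_apply, Pi.smul_apply, h3]
    · right
      intro x
      rw [Pi.smul_apply, Pi.smul_apply, h3, smul_neg]
  · obtain ⟨t, ht⟩ := h2 c hc hc0' h hh
    refine ⟨t * c x₀, ?_⟩
    rw [ht, smul_smul, mul_assoc, mul_inv_cancel₀ hx₀, mul_one]

theorem sign_sq {f : X → ℚ} (hf : IsSign P bar f) (x : X) : f x * f x = 1 := by
  rcases hf.val x with h | h
  · rw [h, one_mul]
  · rw [h]
    norm_num

theorem finrank_perpOf {f : X → ℚ} (hf : IsSign P bar f) [Nonempty X] :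
    finrank ℚ (perpOf bar f) + 1 = finrank ℚ (OddS bar) := by
  have h1 : perpS bar (Submodule.span ℚ {f}) = perpOf bar f := by
    ext h
    constructor
    · exact fun hh => ⟨hh.1, hh.2 f (Submodule.mem_span_singleton_self f)⟩
    · intro hh
      refine ⟨hh.1, fun k hk => ?_⟩
      obtain ⟨a, rfl⟩ := Submodule.mem_span_singleton.1 hk
      simp only [Pi.smul_apply, smul_eq_mul, mul_left_comm _ a, ← Finset.mul_sum, hh.2, mul_zero]
  have h2 : Submodule.span ℚ {f} ≤ OddS bar := by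
    rw [Submodule.span_singleton_le_iff_mem]
    exact hf.odd
  have h3 := finrank_perpS h2
  have hf0 : f ≠ 0 := by
    obtain ⟨x⟩ : Nonempty X := inferInstance
    intro h0
    have h4 := sign_sq hf x
    rw [h0, Pi.zero_apply, mul_zero] at h4
    exact zero_ne_one h4
  rw [h1, finrank_span_singleton hf0] at h3
  omega

/-- The dimensions of stable spaces. -/
theorem finrank_cases (hC : PropC P bar) (hbar : ∀ x, bar (bar x) = x) (hb : ∀ x, bar x ≠ x)
    (hcomm : ∀ σ ∈ P, ∀ x, σ (bar x) = bar (σ x))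
    (htr : ∀ x y : X, ∃ σ ∈ P, σ x = y) {W : Submodule ℚ (X → ℚ)} (hW : StableS P W)
    (hWo : W ≤ OddS bar) : finrank ℚ W ≤ 1 ∨ 2 * finrank ℚ W = finrank ℚ (OddS bar) ∨
      finrank ℚ (OddS bar) ≤ finrank ℚ W + 1 := by
  have h0 := finrank_odd hbar hb
  have h1 := finrank_perpS hWo
  by_cases h2 : finrank ℚ W + 2 ≤ finrank ℚ (OddS bar)
  · have h3 := four_finrank hbar hb htr hW hWo (hC W hW hWo h2)
    by_cases h4 : finrank ℚ (perpS bar W) + 2 ≤ finrank ℚ (OddS bar)
    · have h5 := four_finrank hbar hb htr (perpS_stable hcomm hW) (perpS_le W)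
        (hC _ (perpS_stable hcomm hW) (perpS_le W) h4)
      omega
    · omega
  · omega

end Pool.Agent.H21.FF
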