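import Pool.Agent.H21.FF.Fld
import Pool.Agent.H21.HS.Dep

/-!
# Weil numbers with at most one relation
-/

set_option autoImplicit false
set_option linter.unusedSectionVars false

namespace Pool.Agent.H21.FF

open NumberField Module Pool.Agent.H925R2 Pool.Agent.H485R3 Pool.Agent.H204R3.CM
  Pool.Agent.H868R3.TwoOdd Pool.Agent.H194R3.CM Pool.Agent.H194R3.Tate Pool.Agent.Helper33Dom
  Pool.Agent.H21.TC Pool.Agent.H21.NP Pool.Agent.H21.HS

section gen

variable {F : Type*} [Field F] [NumberField F]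

theorem inj_of_adjoin {π : F} {n : ℕ} (h : IntermediateField.adjoin ℚ {π ^ n} = ⊤)
    (x y : F →+* ℂ) (hxy : (x π) ^ n = (y π) ^ n) : x = y := by
  have hsp : ∀ x : F, ((minpoly ℚ x).map (algebraMap ℚ ℂ)).Splits := fun x =>
    IsAlgClosed.splits _
  rw [Field.primitive_element_iff_algHom_eq_of_eval' ℚ ℂ hsp] at h
  have h1 := @h (RingHom.equivRatAlgHom F ℂ x) (RingHom.equivRatAlgHom F ℂ y) (by
    change x (π ^ n) = y (π ^ n)
    rw [map_pow, map_pow, hxy])
  exact RingHom.ext fun a => congrArg (fun f : F →ₐ[ℚ] ℂ => f a) h1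

theorem adjoin_of_inj {π : F} {n : ℕ} (h : ∀ x y : F →+* ℂ, (x π) ^ n = (y π) ^ n → x = y) :
    IntermediateField.adjoin ℚ {π ^ n} = ⊤ := by
  have hsp : ∀ x : F, ((minpoly ℚ x).map (algebraMap ℚ ℂ)).Splits := fun x =>
    IsAlgClosed.splits _
  rw [Field.primitive_element_iff_algHom_eq_of_eval' ℚ ℂ hsp]
  intro φ ψ hφψ
  have h1 := h (φ : F →+* ℂ) (ψ : F →+* ℂ) (by
    change (φ π) ^ n = (ψ π) ^ n
    rw [← map_pow, ← map_pow]
    exact hφψ)
  ext a
  exact RingHom.congr_fun h1 a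

end gen

section rel

variable {X : Type*} [Fintype X] {P : Subgroup (Equiv.Perm X)} {bar : X → X} {w : X → ℚ}

theorem relS_le_one (hC : PropC P bar) (hbar : ∀ x, bar (bar x) = x) (hb : ∀ x, bar x ≠ x)
    (hcomm : ∀ σ ∈ P, ∀ x, σ (bar x) = bar (σ x)) (htr : ∀ x y : X, ∃ σ ∈ P, σ x = y)
    (hw : ∀ x, w (bar x) = - w x) (hnc : ¬ ∃ x y, x ≠ y ∧ RelOf (SpanS P w) x y) :
    finrank ℚ (RelS P bar w) ≤ 1 := by
  have hspan : ¬ finrank ℚ (SpanS P w) + 2 ≤ finrank ℚ (OddS bar) := fun h1 =>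
    hnc (hC _ spanS_stable (spanS_odd hcomm hw) h1)
  have hfr := finrank_add (P := P) (w := w) hbar hb hcomm htr hw
  have hodd := finrank_odd hbar hb
  have hfr2 : finrank ℚ (SpanS P w) + finrank ℚ (RelS P bar w) = finrank ℚ (OddS bar) := by
    rw [← hodd] at hfr
    push_cast at hfr
    have h1 : ((finrank ℚ (SpanS P w) + finrank ℚ (RelS P bar w) : ℕ) : ℚ) =
        (finrank ℚ (OddS bar) : ℕ) := by
      push_cast
      linarith
    exact_mod_cast h1
  omega

end rel

variable {F : Type} [Field F] [NumberField F] [IsCMField F]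

/-- The relations in the Galois closure. -/
theorem relation_down {L : Type} [Field L] [NumberField L] [IsGalois ℚ L] (p a : ℕ) (π : F)
    (j : L →+* ℂ) (h : ∀ ψ : F →+* ℂ, ∃ φ : F →+* L, j.comp φ = ψ) (e : (F →+* ℂ) → ℕ) (s : ℕ) :
    (∏ φ, φ π ^ e φ) ^ (2 * s) = ((p ^ a : ℕ) : ℂ) ^ (s * ∑ φ, e φ) ↔
      (∏ x : F →+* L, x π ^ e (embE j h x)) ^ (2 * s) =
        ((p : L) ^ a) ^ ((∑ x, e (embE j h x)) * s) := by
  have h2 : ∏ x : F →+* L, j (x π ^ e (embE j h x)) = ∏ φ, φ π ^ e φ := by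
    rw [← Equiv.prod_comp (embE j h)]
    refine Finset.prod_congr rfl fun x _ => ?_
    rw [map_pow]
    rfl
  have h3 : ∑ x : F →+* L, e (embE j h x) = ∑ φ, e φ := Equiv.sum_comp (embE j h) e
  rw [← j.injective.eq_iff, map_pow, map_prod, map_pow, map_pow, map_natCast, h2, h3,
    Nat.cast_pow, mul_comm s]

/-- At most one relation. -/
theorem atMostOne_of_propC (hC : PropC (PC F) ComplexEmbedding.conjugate) (p : ℕ) [Fact p.Prime]
    (a : ℕ) (π : F) (hπ : IsWeilNumber (p ^ a) π)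
    (hsep : ∀ (x y : F →+* ℂ) (s : ℕ), 0 < s → (x π) ^ s = (y π) ^ s → x = y) :
    AtMostOneRelation (p ^ a) π := by
  classical
  obtain ⟨L, _, _, j, h⟩ := exists_galois (fun _ : Unit => F)
  replace h := h ()
  let e₀ : L →ₐ[ℚ] PadicAlgCl p := IsAlgClosed.lift
  have hweil : ∀ φ : F →+* ℂ, ‖φ π‖ ^ 2 = (((p : ℚ) ^ a : ℚ) : ℝ) := by
    intro φ
    rw [hπ.2 φ]
    push_cast
    rfl
  obtain ⟨E, hEdef⟩ : ∃ E, E = embE j h := ⟨_, rfl⟩
  obtain ⟨u, hudef⟩ : ∃ u, u = uvec p e₀ a π := ⟨_, rfl⟩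
  have huodd : ∀ x, u (cbar x) = - u x := by
    rw [hudef]
    exact uvec_cbar p e₀ a π hweil
  obtain ⟨ψ, hψ⟩ := exists_psi (X := F →+* L) u
  obtain ⟨w, hwdef⟩ : ∃ w : (F →+* ℂ) → ℚ, ∀ z, w z = ψ (u (E.symm z)) := ⟨_, fun _ => rfl⟩
  have hE : ∀ z, E.symm (ComplexEmbedding.conjugate z) = cbar (E.symm z) := by
    intro z
    obtain ⟨z, rfl⟩ := E.surjective z
    rw [Equiv.symm_apply_apply, Equiv.symm_apply_eq, hEdef]
    exact (embE_cbar j h z).symm
  have hw : ∀ z, w (ComplexEmbedding.conjugate z) = - w z := by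
    intro z
    rw [hwdef, hwdef, hE, huodd, map_neg]
  -- no coincidences
  have hnc : ¬ ∃ x y, x ≠ y ∧ RelOf (SpanS (PC F) w) x y := by
    rintro ⟨x, y, hxy, hrel⟩
    apply hxy
    obtain ⟨x, rfl⟩ := E.surjective x
    obtain ⟨y, rfl⟩ := E.surjective y
    have h1 : SameClass (uvec p e₀ a π) x y := by
      intro g
      obtain ⟨τ, hτ⟩ := Pool.Agent.H977R3.CM.exists_aut j (g : L ≃+* L)
      have h3 : ∀ z, permOf F τ (E z) = E (g • z) := fun z => by
        rw [hEdef]
        exact embE_smul j h hτ z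
      have h2 : w (permOf F τ (E x)) = w (permOf F τ (E y)) :=
        hrel _ (Submodule.subset_span ⟨permOf F τ, permOf_mem τ, rfl⟩)
      rw [hwdef, hwdef, h3, h3, Equiv.symm_apply_apply, Equiv.symm_apply_apply] at h2
      rw [← hudef]
      exact hψ _ _ h2
    obtain ⟨s, hs, h2⟩ := pow_eq_of_sameClass p e₀ a π hπ x y h1
    refine hsep _ _ s hs ?_
    rw [hEdef]
    have h3 := congrArg j h2
    rw [map_pow, map_pow] at h3
    exact h3
  have hle : finrank ℚ (RelS (PC F) ComplexEmbedding.conjugate w) ≤ 1 :=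
    relS_le_one hC conj_conj conj_ne conj_comm pc_trans' hw hnc
  -- the relations
  have hmem : ∀ e : (F →+* ℂ) → ℕ, IsRelation (p ^ a) π e →
      (fun z => (e z : ℚ) - e (ComplexEmbedding.conjugate z)) ∈
        RelS (PC F) ComplexEmbedding.conjugate w := by
    rintro e ⟨s, hs, hrel⟩
    rw [relation_down p a π j h] at hrel
    have h1 := sum_uvec_eq_zero p e₀ a π hweil (fun x => e (embE j h x)) s hs hrel
    have h2 : ∀ σ ∈ PC F, ∑ z, (e z : ℚ) * w (σ z) = 0 := by
      rintro _ ⟨τ, rfl⟩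
      obtain ⟨g, hg⟩ := Pool.Agent.H977R3.CM.exists_gal j τ
      have h3 : ∀ z, permOf F τ (E z) = E (g • z) := fun z => by
        rw [hEdef]
        exact embE_smul j h hg z
      have h4 := congrArg ψ (h1 g)
      rw [map_zero, map_sum] at h4
      rw [← h4]
      symm
      refine Fintype.sum_equiv E _ _ fun z => ?_
      have h5 : ((e (embE j h z) : ℕ) : ℝ) * uvec p e₀ a π (g • z) =
          ((e (embE j h z) : ℕ) : ℚ) • u (g • z) := by
        rw [Rat.smul_def, hudef]
        push_cast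
        rfl
      rw [h5, map_smul, smul_eq_mul, hwdef, h3, Equiv.symm_apply_apply, hEdef]
    refine ⟨fun z => ?_, fun σ hσ => ?_⟩
    · simp only [conj_conj]
      ring
    · have h3 : ∑ z : F →+* ℂ, (e (ComplexEmbedding.conjugate z) : ℚ) * w (σ z) =
          - ∑ z : F →+* ℂ, (e z : ℚ) * w (σ z) := by
        rw [← Finset.sum_neg_distrib]
        refine Finset.sum_nbij' ComplexEmbedding.conjugate ComplexEmbedding.conjugate
          (fun _ _ => Finset.mem_univ _) (fun _ _ => Finset.mem_univ _)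
          (fun y _ => conj_conj y) (fun y _ => conj_conj y) ?_
        intro z _
        rw [conj_comm σ hσ, hw]
        ring
      change ∑ z : F →+* ℂ, ((e z : ℚ) - e (ComplexEmbedding.conjugate z)) * w (σ z) = 0
      simp only [sub_mul]
      rw [Finset.sum_sub_distrib, h3, h2 σ hσ, neg_zero, sub_zero]
  intro e e' he he'
  have hc := hmem e he
  have hc' := hmem e' he'
  by_cases h0 : ∀ z, (e z : ℤ) - e (ComplexEmbedding.conjugate z) = 0
  · exact ⟨1, 0, Or.inl one_ne_zero, fun z => by rw [h0 z]; ring⟩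
  · push Not at h0
    obtain ⟨z₀, hz₀⟩ := h0
    have hne : (fun z => (e z : ℚ) - e (ComplexEmbedding.conjugate z)) ≠ 0 := by
      intro h1
      apply hz₀
      have h2 := congrFun h1 z₀
      simp only [Pi.zero_apply] at h2
      exact_mod_cast h2
    have hone : finrank ℚ (RelS (PC F) ComplexEmbedding.conjugate w) = 1 := by
      refine le_antisymm hle (Nat.one_le_iff_ne_zero.2 fun h1 => hne ?_)
      rw [Submodule.finrank_eq_zero] at h1
      rw [h1, Submodule.mem_bot] at hc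
      exact hc
    obtain ⟨t, ht⟩ := line_of_finrank hone _ hc hne _ hc'
    refine ⟨(e' z₀ : ℤ) - e' (ComplexEmbedding.conjugate z₀),
      -((e z₀ : ℤ) - e (ComplexEmbedding.conjugate z₀)), Or.inr (neg_ne_zero.2 hz₀), fun z => ?_⟩
    have h1 : ∀ z, (e' z : ℚ) - e' (ComplexEmbedding.conjugate z) =
        t * ((e z : ℚ) - e (ComplexEmbedding.conjugate z)) := fun z => congrFun ht z
    have h2 : (((((e' z₀ : ℤ) - e' (ComplexEmbedding.conjugate z₀)) *
        ((e z : ℤ) - e (ComplexEmbedding.conjugate z)) +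
        -((e z₀ : ℤ) - e (ComplexEmbedding.conjugate z₀)) *
        ((e' z : ℤ) - e' (ComplexEmbedding.conjugate z)) : ℤ)) : ℚ) = 0 := by
      push_cast
      rw [h1 z, h1 z₀]
      ring
    exact_mod_cast h2

/-- From one completely split prime. -/
theorem propC_of_atMostOne (p : ℕ) [Fact p.Prime] (hs : Nat.card (F →+* ℚ_[p]) = finrank ℚ F)
    (hall : ∀ (a : ℕ) (π : F), 0 < a → IsWeilNumber (p ^ a) π →
      (∀ n : ℕ, 0 < n → IntermediateField.adjoin ℚ {π ^ n} = ⊤) →
      AtMostOneRelation (p ^ a) π) :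
    PropC (PC F) ComplexEmbedding.conjugate := by
  classical
  intro W hW hWo hr
  by_contra hno
  push Not at hno
  -- an injective member
  let v : (F →+* ℂ) → (F →+* ℂ) → (W →ₗ[ℚ] ℚ) := fun x y =>
    (LinearMap.proj x : ((F →+* ℂ) → ℚ) →ₗ[ℚ] ℚ).comp W.subtype -
      (LinearMap.proj y : ((F →+* ℂ) → ℚ) →ₗ[ℚ] ℚ).comp W.subtype
  have hv : ∀ x y (f : W), v x y f = (f : (F →+* ℂ) → ℚ) x - (f : (F →+* ℂ) → ℚ) y :=
    fun x y f => rfl
  obtain ⟨g, hg⟩ := Module.exists_dual_forall_apply_ne_zero (K := ℚ)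
    (fun i : {i : (F →+* ℂ) × (F →+* ℂ) // i.1 ≠ i.2} => v i.1.1 i.1.2) (by
      rintro ⟨⟨x, y⟩, hxy⟩ h0
      apply hno x y hxy
      intro f hf
      have h1 := LinearMap.congr_fun h0 ⟨f, hf⟩
      rw [hv] at h1
      exact sub_eq_zero.1 h1)
  obtain ⟨w, hw⟩ := (Module.evalEquiv ℚ W).surjective g
  have hinj : ∀ x y, x ≠ y → (w : (F →+* ℂ) → ℚ) x ≠ (w : (F →+* ℂ) → ℚ) y := by
    intro x y hxy h1
    apply hg ⟨(x, y), hxy⟩
    rw [← hw]
    change v x y w = 0
    rw [hv, h1, sub_self]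
  obtain ⟨N, u, hN, hu⟩ := clear_denom (w : (F →+* ℂ) → ℚ)
  have hN' : (N : ℚ) ≠ 0 := by exact_mod_cast hN
  have huinj : ∀ x y, u x = u y → x = y := by
    intro x y h1
    by_contra hxy
    apply hinj x y hxy
    have h2 : (u x : ℚ) = u y := by rw [h1]
    rw [hu, hu] at h2
    exact mul_left_cancel₀ hN' h2
  have huo : ∀ x, u (ComplexEmbedding.conjugate x) = - u x := by
    intro x
    have h1 : (u (ComplexEmbedding.conjugate x) : ℚ) = - u x := by
      rw [hu, hu, hWo w.2]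
      ring
    exact_mod_cast h1
  -- the Weil number
  obtain ⟨L, _, _, j, h, ⟨y₀⟩⟩ := exists_galois_split F p hs
  let e₀ : L →ₐ[ℚ] PadicAlgCl p := IsAlgClosed.lift
  obtain ⟨a, π, ha, hπ, κ, hκ, huv⟩ := exists_weil_slopes p j h e₀ y₀
    (fun x => u (embE j h x)) (fun x => by
      change u (embE j h (cbar x)) = _
      rw [embE_cbar, huo])
  have hweil : ∀ φ : F →+* ℂ, ‖φ π‖ ^ 2 = (((p : ℚ) ^ a : ℚ) : ℝ) := by
    intro φ
    rw [hπ.2 φ]
    push_cast
    rfl
  have hgen : ∀ n : ℕ, 0 < n → IntermediateField.adjoin ℚ {π ^ n} = ⊤ := by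
    intro n hn
    refine adjoin_of_inj fun x y hxy => ?_
    obtain ⟨x, rfl⟩ := (embE j h).surjective x
    obtain ⟨y, rfl⟩ := (embE j h).surjective y
    have h1 : (x π) ^ n = (y π) ^ n := by
      apply j.injective
      rw [map_pow, map_pow]
      exact hxy
    have h4 : ‖e₀ (x π)‖ ^ n = ‖e₀ (y π)‖ ^ n := by
      have h7 := congrArg (fun z => ‖e₀ z‖) h1
      simp only [map_pow, norm_pow] at h7
      exact h7
    have h5 : ‖e₀ (x π)‖ = ‖e₀ (y π)‖ :=
      (pow_left_inj₀ (norm_nonneg _) (norm_nonneg _) hn.ne').1 h4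
    have h6 : uvec p e₀ a π x = uvec p e₀ a π y := by
      rw [uvec_eq, uvec_eq, h5]
    rw [huv, huv] at h6
    exact huinj _ _ (by exact_mod_cast mul_left_cancel₀ hκ h6)
  have hone := hall a π ha hπ hgen
  -- relations
  have hrel : ∀ c : (F →+* ℂ) → ℚ, c ∈ perpS ComplexEmbedding.conjugate W →
      ∃ (N : ℤ) (e : (F →+* ℂ) → ℕ), N ≠ 0 ∧ IsRelation (p ^ a) π e ∧
        ∀ x, ((e x : ℤ) - e (ComplexEmbedding.conjugate x) : ℚ) = N * c x := by
    intro c hc
    obtain ⟨M, k, hM, hk⟩ := clear_denom c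
    have hko : ∀ x, k (ComplexEmbedding.conjugate x) = - k x := by
      intro x
      have h1 : (k (ComplexEmbedding.conjugate x) : ℚ) = - k x := by
        rw [hk, hk, hc.1]
        ring
      exact_mod_cast h1
    let e : (F →+* ℂ) → ℕ := fun x => (k x).toNat
    have hek : ∀ x, (e x : ℤ) - e (ComplexEmbedding.conjugate x) = k x := by
      intro x
      simp only [e, hko]
      exact Int.toNat_sub_toNat_neg _
    have hzero : ∀ σ ∈ PC F, ∑ x, (e x : ℤ) * u (σ x) = 0 := by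
      intro σ hσ
      have h1 : ∑ x, (k x : ℤ) * u (σ x) = 0 := by
        have h2 : ((∑ x, (k x : ℤ) * u (σ x) : ℤ) : ℚ) = 0 := by
          push_cast
          have h3 : ∀ x, (k x : ℚ) * u (σ x) =
              (M * N) * (c x * (fun y => (w : (F →+* ℂ) → ℚ) (σ y)) x) := by
            intro x
            rw [hk, hu]
            ring
          rw [Finset.sum_congr rfl fun x _ => h3 x, ← Finset.mul_sum, hc.2 _ (hW σ hσ w w.2),
            mul_zero]
        exact_mod_cast h2
      have h2 : ∑ x : F →+* ℂ, (e (ComplexEmbedding.conjugate x) : ℤ) * u (σ x) =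
          - ∑ x : F →+* ℂ, (e x : ℤ) * u (σ x) := by
        rw [← Finset.sum_neg_distrib]
        refine Finset.sum_nbij' ComplexEmbedding.conjugate ComplexEmbedding.conjugate
          (fun _ _ => Finset.mem_univ _) (fun _ _ => Finset.mem_univ _)
          (fun y _ => conj_conj y) (fun y _ => conj_conj y) ?_
        intro z _
        rw [conj_comm σ hσ, huo]
        ring
      have h3 : ∀ x, k x * u (σ x) = (e x : ℤ) * u (σ x) -
          (e (ComplexEmbedding.conjugate x) : ℤ) * u (σ x) := by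
        intro x
        rw [← hek x]
        ring
      rw [Finset.sum_congr rfl fun x _ => h3 x, Finset.sum_sub_distrib, h2] at h1
      linarith
    obtain ⟨s, hs', hprod⟩ := prod_pow_eq p e₀ a π hπ.1 hweil (fun x => e (embE j h x)) (by
      intro g
      obtain ⟨τ, hτ⟩ := Pool.Agent.H977R3.CM.exists_aut j (g : L ≃+* L)
      have h3 : ∀ z, permOf F τ (embE j h z) = embE j h (g • z) := fun z => embE_smul j h hτ z
      have h4 := hzero _ (permOf_mem τ)
      have h5 : ∑ z : F →+* L, ((e (embE j h z) : ℕ) : ℝ) * uvec p e₀ a π (g • z) =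
          κ * ((∑ z : F →+* ℂ, (e z : ℤ) * u (permOf F τ z) : ℤ) : ℝ) := by
        push_cast
        rw [Finset.mul_sum]
        refine Fintype.sum_equiv (embE j h) _ _ fun z => ?_
        rw [huv, h3]
        ring
      rw [h5, h4, Int.cast_zero, mul_zero])
    refine ⟨M, e, hM, ⟨s, hs', (relation_down p a π j h e s).2 hprod⟩, fun x => ?_⟩
    rw [← hk, ← hek x]
    push_cast
    rfl
  have hfr := finrank_perpS hWo
  have hp2 : 2 ≤ finrank ℚ (perpS ComplexEmbedding.conjugate W) := by omega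
  obtain ⟨c, hc, hc0⟩ : ∃ c ∈ perpS ComplexEmbedding.conjugate W, c ≠ 0 := by
    by_contra hno'
    push Not at hno'
    have h1 : perpS ComplexEmbedding.conjugate W = ⊥ := by
      rw [Submodule.eq_bot_iff]
      exact hno'
    rw [h1, finrank_bot] at hp2
    omega
  obtain ⟨c', hc', hcc'⟩ : ∃ c' ∈ perpS ComplexEmbedding.conjugate W,
      c' ∉ Submodule.span ℚ {c} := by
    by_contra hno'
    push Not at hno'
    have h1 : perpS ComplexEmbedding.conjugate W ≤ Submodule.span ℚ {c} := hno'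
    have h2 := Submodule.finrank_mono h1
    rw [finrank_span_singleton hc0] at h2
    omega
  obtain ⟨M, e, hM, he, hMe⟩ := hrel c hc
  obtain ⟨M', e', hM', he', hMe'⟩ := hrel c' hc'
  obtain ⟨a', b', hab, hz⟩ := hone e e' he he'
  have hM0 : (M : ℚ) ≠ 0 := by exact_mod_cast hM
  have hM0' : (M' : ℚ) ≠ 0 := by exact_mod_cast hM'
  have hlin : ∀ x, (a' * M : ℚ) * c x + (b' * M' : ℚ) * c' x = 0 := by
    intro x
    have h1 : (((a' * ((e x : ℤ) - e (ComplexEmbedding.conjugate x)) +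
      b' * ((e' x : ℤ) - e' (ComplexEmbedding.conjugate x)) : ℤ)) : ℚ) = 0 := by
      rw [hz x, Int.cast_zero]
    push_cast at h1
    have h2 := hMe x
    have h3 := hMe' x
    push_cast at h2 h3
    rw [h2, h3] at h1
    linarith
  by_cases hb' : b' = 0
  · have ha' : (a' : ℚ) ≠ 0 := by
      rcases hab with h1 | h1
      · exact_mod_cast h1
      · exact absurd hb' h1
    apply hc0
    funext x
    have h1 := hlin x
    rw [hb', Int.cast_zero, zero_mul, zero_mul, add_zero] at h1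
    exact (mul_eq_zero.1 h1).resolve_left (mul_ne_zero ha' hM0)
  · have hb0 : (b' : ℚ) ≠ 0 := by exact_mod_cast hb'
    apply hcc'
    rw [Submodule.mem_span_singleton]
    refine ⟨-(a' * M) / (b' * M'), ?_⟩
    funext x
    rw [Pi.smul_apply, smul_eq_mul, div_mul_eq_mul_div, div_eq_iff (mul_ne_zero hb0 hM0')]
    linarith [hlin x]

end Pool.Agent.H21.FF
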